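import Pool.Agent.V8H36.IN.Rel2
import Pool.Agent.V8H36.CV.Fin

set_option autoImplicit false
set_option linter.all false
set_option maxHeartbeats 4000000

/-!
Central values in intervals, part 7: from the families to the characters; uniformity.
-/

namespace Pool.Agent.V8H36.IN

open Finset Filter Topology MeasureTheory ProbabilityTheory
open Pool.Agent.H306R2.RZ hiding Gt
open Pool.Agent.H306R2.RG
open Pool.Agent.V8H36.CV
open Pool.Agent.R318.QL
open Pool.Agent.R318.QL.CL
open Pool.Agent.H463R2.RGFIN (Qr Rr ch ch_spec mem_FS FS Qr_unique inj_gen mem_le r_bd)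

noncomputable section

/-- the event of an interval -/
def EvI (X : ℕ) (a b : ℝ) (p : Σ N : ℕ, DirichletCharacter ℂ N) : Prop :=
  Real.exp (1 / 2 * Real.log (Real.log X) + a * Real.sqrt (Real.log (Real.log X))) < cv p ∧
  cv p < Real.exp (1 / 2 * Real.log (Real.log X) + b * Real.sqrt (Real.log (Real.log X)))

/-- the lower density -/
def Psi (x : ℝ) : ℝ := x ^ 2 / (x + 1 / 7)

lemma Psi_le {x : ℝ} (hx : 0 ≤ x) : Psi x ≤ x := by
  unfold Psi
  rw [div_le_iff₀ (by positivity)]
  nlinarith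

lemma Psi_nonneg {x : ℝ} (hx : 0 ≤ x) : 0 ≤ Psi x := by
  unfold Psi
  positivity

lemma Psi_lip {x y : ℝ} (hy : 0 ≤ y) (hxy : y ≤ x) : Psi x ≤ Psi y + (x - y) := by
  have h1 := frac_id (hy.trans hxy)
  have h2 := frac_id hy
  have h3 := frac_mono hy hxy
  unfold Psi
  linarith

theorem int_pt (s : ℤ) (a b : ℝ) (hab : a ≤ b) (ε : ℝ) (hε : 0 < ε) : ∀ᶠ X : ℕ in atTop,
    (Psi (Gt a - Gt b) - ε) * (chars s X).ncard ≤ ((chars s X ∩ {p | EvI X a b p}).ncard : ℝ) := by
  classical
  have hall : ∀ᶠ X : ℕ in atTop, ∀ φ ∈ FSs s,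
      ((Gt a - Gt b) ^ 2 / ((Gt a - Gt b) + 1 / 7) - ε) * (AX φ (X / φ.r)).card ≤
        (((AX φ (X / φ.r)).filter (fun d =>
          Real.exp (1 / 2 * Real.log (Real.log X) + a * Real.sqrt (Real.log (Real.log X))) < |LLg φ d (1 / 2)| ∧
          |LLg φ d (1 / 2)| < Real.exp (1 / 2 * Real.log (Real.log X) +
            b * Real.sqrt (Real.log (Real.log X))))).card : ℝ) := by
    apply (Filter.eventually_all_finset (FSs s)).2
    intro φ hφ
    have hf := fss_fam hφ
    filter_upwards [fam_int φ hf (LnkA.FGF φ hf) (LnkC.CGF φ hf) a b hab ε hε] with X hX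
    convert hX
  filter_upwards [hall] with X hX
  have he : ∀ φ ∈ FSs s, (AX φ (X / φ.r)).filter (fun d => EvI X a b (ch φ d)) =
      (AX φ (X / φ.r)).filter (fun d =>
          Real.exp (1 / 2 * Real.log (Real.log X) + a * Real.sqrt (Real.log (Real.log X))) < |LLg φ d (1 / 2)| ∧
          |LLg φ d (1 / 2)| < Real.exp (1 / 2 * Real.log (Real.log X) +
            b * Real.sqrt (Real.log (Real.log X)))) := by
    intro φ hφ
    apply Finset.filter_congr
    intro d hd
    have hd' := (mem_AX.1 hd).2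
    unfold EvI
    rw [ch_cv φ (fss_fam hφ) hd']
  apply count_ge
  intro φ hφ
  rw [he φ hφ]
  exact hX φ hφ

/-- finitely many points suffice -/
lemma cov (e : ℝ) (he : 0 < e) : ∃ T : Finset ℝ,
    (∀ a : ℝ, (∃ a' ∈ T, a ≤ a' ∧ Gt a ≤ Gt a' + e) ∨ Gt a ≤ e) ∧
    (∀ b : ℝ, (∃ b' ∈ T, b' ≤ b ∧ Gt b' ≤ Gt b + e) ∨ 1 - e ≤ Gt b) := by
  obtain ⟨M1, hM1⟩ := Gt_top e he
  obtain ⟨M2, hM2⟩ := Gt_bot e he
  obtain ⟨J, hJ⟩ := exists_nat_gt ((|M1| + |M2|) / e)
  rw [div_lt_iff₀ he] at hJ
  have hJ1 : (J : ℝ) * e ∈ (Finset.Icc (-(J : ℤ)) J).image (fun j : ℤ => (j : ℝ) * e) := by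
    rw [Finset.mem_image]
    exact ⟨J, by rw [Finset.mem_Icc]; constructor <;> omega, by push_cast; ring⟩
  have hJ2 : -((J : ℝ) * e) ∈ (Finset.Icc (-(J : ℤ)) J).image (fun j : ℤ => (j : ℝ) * e) := by
    rw [Finset.mem_image]
    exact ⟨-J, by rw [Finset.mem_Icc]; constructor <;> omega, by push_cast; ring⟩
  have g1 := hM1 ((J : ℝ) * e) (by have := le_abs_self M1; have := abs_nonneg M2; linarith)
  have g2 := hM2 (-((J : ℝ) * e)) (by have := neg_abs_le M2; have := abs_nonneg M1; linarith)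
  refine ⟨(Finset.Icc (-(J : ℤ)) J).image (fun j : ℤ => (j : ℝ) * e), ?_, ?_⟩
  · intro a
    by_cases h1 : (J : ℝ) * e ≤ a
    · exact Or.inr ((Gt_anti h1).trans g1)
    · rw [not_le] at h1
      left
      by_cases h2 : a ≤ -((J : ℝ) * e)
      · exact ⟨_, hJ2, h2, by have := Gt_le_one a; linarith⟩
      · rw [not_le] at h2
        have h3 : a ≤ (⌈a / e⌉ : ℝ) * e := by
          have := Int.le_ceil (a / e)
          rwa [div_le_iff₀ he] at this
        have h4 : (⌈a / e⌉ : ℝ) * e < a + e := by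
          have := Int.ceil_lt_add_one (a / e)
          calc (⌈a / e⌉ : ℝ) * e < (a / e + 1) * e := mul_lt_mul_of_pos_right this he
            _ = a + e := by field_simp
        refine ⟨(⌈a / e⌉ : ℝ) * e, ?_, h3, ?_⟩
        · rw [Finset.mem_image]
          refine ⟨⌈a / e⌉, ?_, rfl⟩
          rw [Finset.mem_Icc]
          constructor
          · have : (-(J : ℝ)) < (⌈a / e⌉ : ℝ) := by
              by_contra h
              rw [not_lt] at h
              have := mul_le_mul_of_nonneg_right h he.le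
              linarith
            have h5 : (-(J : ℤ)) < ⌈a / e⌉ := by exact_mod_cast this
            omega
          · rw [Int.ceil_le]
            rw [div_le_iff₀ he]
            push_cast
            exact h1.le
        · have := Gt_lip h3
          linarith
  · intro b
    by_cases h1 : b ≤ -((J : ℝ) * e)
    · exact Or.inr (g2.trans (Gt_anti h1))
    · rw [not_le] at h1
      left
      by_cases h2 : (J : ℝ) * e ≤ b
      · exact ⟨_, hJ1, h2, by have := Gt_nonneg b; linarith⟩
      · rw [not_le] at h2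
        have h3 : (⌊b / e⌋ : ℝ) * e ≤ b := by
          have := Int.floor_le (b / e)
          rwa [le_div_iff₀ he] at this
        have h4 : b < (⌊b / e⌋ : ℝ) * e + e := by
          have := Int.lt_floor_add_one (b / e)
          rw [div_lt_iff₀ he] at this
          linarith
        refine ⟨(⌊b / e⌋ : ℝ) * e, ?_, h3, ?_⟩
        · rw [Finset.mem_image]
          refine ⟨⌊b / e⌋, ?_, rfl⟩
          rw [Finset.mem_Icc]
          constructor
          · rw [Int.le_floor]
            rw [le_div_iff₀ he]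
            push_cast
            linarith
          · have : (⌊b / e⌋ : ℝ) < (J : ℝ) := by
              by_contra h
              rw [not_lt] at h
              have := mul_le_mul_of_nonneg_right h he.le
              linarith
            have h5 : ⌊b / e⌋ < (J : ℤ) := by exact_mod_cast this
            omega
        · have := Gt_lip h3
          linarith

/-- **intervals, uniformly** -/
theorem int_uni (s : ℤ) (ε : ℝ) (hε : 0 < ε) : ∀ᶠ X : ℕ in atTop, ∀ a b : ℝ, a ≤ b →
    (Psi (Gt a - Gt b) - ε) * (chars s X).ncard ≤ ((chars s X ∩ {p | EvI X a b p}).ncard : ℝ) := by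
  classical
  obtain ⟨T, hTa, hTb⟩ := cov (ε / 4) (by positivity)
  have hall : ∀ᶠ X : ℕ in atTop, ∀ a ∈ T, ∀ b ∈ T, a ≤ b →
      (Psi (Gt a - Gt b) - ε / 2) * (chars s X).ncard ≤ ((chars s X ∩ {p | EvI X a b p}).ncard : ℝ) := by
    apply (Filter.eventually_all_finset T).2
    intro a _
    apply (Filter.eventually_all_finset T).2
    intro b _
    by_cases h : a ≤ b
    · filter_upwards [int_pt s a b h (ε / 2) (by positivity)] with X hX _
      exact hX
    · exact Filter.Eventually.of_forall fun X h2 => absurd h2 h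
  filter_upwards [hall] with X hX a b hab
  have hN : (0 : ℝ) ≤ ((chars s X).ncard : ℝ) := Nat.cast_nonneg _
  have hγ : 0 ≤ Gt a - Gt b := by have := Gt_anti hab; linarith
  have hP := Psi_le hγ
  have ga0 := Gt_nonneg a
  have gb0 := Gt_nonneg b
  have ga1 := Gt_le_one a
  have triv : Gt a - Gt b ≤ ε → (Psi (Gt a - Gt b) - ε) * (chars s X).ncard ≤
      ((chars s X ∩ {p | EvI X a b p}).ncard : ℝ) := by
    intro h
    refine (mul_nonpos_of_nonpos_of_nonneg (by linarith) hN).trans (Nat.cast_nonneg _)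
  rcases hTa a with ⟨a', ha', ha1, ha2⟩ | h
  swap
  · exact triv (by linarith)
  rcases hTb b with ⟨b', hb', hb1, hb2⟩ | h
  swap
  · exact triv (by linarith)
  by_cases hab' : a' ≤ b'
  · have h1 := hX a' ha' b' hb' hab'
    have h2 : (chars s X ∩ {p | EvI X a' b' p}).ncard ≤ (chars s X ∩ {p | EvI X a b p}).ncard := by
      apply Set.ncard_le_ncard _ ((chars_fin s X).subset Set.inter_subset_left)
      rintro p ⟨hp, hp2, hp3⟩
      have q1 := mul_le_mul_of_nonneg_right ha1 (Real.sqrt_nonneg (Real.log (Real.log X)))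
      have q2 := mul_le_mul_of_nonneg_right hb1 (Real.sqrt_nonneg (Real.log (Real.log X)))
      refine ⟨hp, lt_of_le_of_lt (Real.exp_le_exp.2 ?_) hp2, lt_of_lt_of_le hp3 (Real.exp_le_exp.2 ?_)⟩
      · linarith
      · linarith
    have h3 : ((chars s X ∩ {p | EvI X a' b' p}).ncard : ℝ) ≤ ((chars s X ∩ {p | EvI X a b p}).ncard : ℝ) := by
      exact_mod_cast h2
    refine le_trans ?_ (h1.trans h3)
    apply mul_le_mul_of_nonneg_right _ hN
    have h4 : 0 ≤ Gt a' - Gt b' := by have := Gt_anti hab'; linarith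
    have h5 : Gt a' - Gt b' ≤ Gt a - Gt b := by
      have := Gt_anti ha1
      have := Gt_anti hb1
      linarith
    have := Psi_lip h4 h5
    linarith
  · apply triv
    rw [not_le] at hab'
    have := Gt_anti hab'.le
    linarith

/-- **half lines, uniformly** -/
theorem half_uni (s : ℤ) (ε : ℝ) (hε : 0 < ε) : ∀ᶠ X : ℕ in atTop, ∀ t : ℝ,
    (Psi (Gt t) - ε) * (chars s X).ncard ≤ ((chars s X ∩ {p | Ev X t p}).ncard : ℝ) := by
  obtain ⟨M, hM⟩ := Gt_top (ε / 2) (by positivity)
  filter_upwards [int_uni s (ε / 2) (by positivity)] with X hX t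
  have hN : (0 : ℝ) ≤ ((chars s X).ncard : ℝ) := Nat.cast_nonneg _
  have h1 := hX t (max t M) (le_max_left _ _)
  have h2 := hM (max t M) (le_max_right _ _)
  have h3 : (chars s X ∩ {p | EvI X t (max t M) p}).ncard ≤ (chars s X ∩ {p | Ev X t p}).ncard := by
    apply Set.ncard_le_ncard _ ((chars_fin s X).subset Set.inter_subset_left)
    rintro p ⟨hp, hp2, hp3⟩
    exact ⟨hp, hp2⟩
  have h4 : ((chars s X ∩ {p | EvI X t (max t M) p}).ncard : ℝ) ≤ ((chars s X ∩ {p | Ev X t p}).ncard : ℝ) := by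
    exact_mod_cast h3
  refine le_trans ?_ (h1.trans h4)
  apply mul_le_mul_of_nonneg_right _ hN
  have h5 := Gt_nonneg (max t M)
  have h6 := Gt_anti (le_max_left t M)
  have := Psi_lip (show 0 ≤ Gt t - Gt (max t M) by linarith) (show Gt t - Gt (max t M) ≤ Gt t by linarith)
  linarith

/-- **the law** -/
theorem law (s : ℤ) (ε : ℝ) (hε : 0 < ε) : ∀ᶠ X : ℕ in atTop,
    (∀ t : ℝ, (Psi (Gt t) - ε) * (chars s X).ncard ≤ ((chars s X ∩ {p | Ev X t p}).ncard : ℝ) ∧
      ((chars s X ∩ {p | Ev X t p}).ncard : ℝ) ≤ (Gt t + ε) * (chars s X).ncard) ∧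
    ∀ a b : ℝ, a ≤ b →
      (Psi (Gt a - Gt b) - ε) * (chars s X).ncard ≤ ((chars s X ∩ {p | EvI X a b p}).ncard : ℝ) := by
  filter_upwards [half_uni s ε hε, int_uni s ε hε, part2 s ε hε] with X h1 h2 h3
  exact ⟨fun t => ⟨h1 t, (h3 t).2⟩, h2⟩

end

end Pool.Agent.V8H36.IN
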