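import Pool.Agent.V8H36.IN.Tm4
import Pool.Agent.V8H36.CV.Cen
import Pool.Agent.H423R2.RZA.ES3
import Pool.Agent.H423R2.RGL.ES2G

set_option autoImplicit false
set_option linter.all false
set_option maxHeartbeats 4000000

/-!
Central values in intervals, part 5: the mollified central value is not small for a positive
proportion of the discriminants in every interval.
-/

namespace Pool.Agent.V8H36.IN

open Finset Filter Topology MeasureTheory ProbabilityTheory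
open Pool.Agent.H306R2.RZ Pool.Agent.H306R2.RG
open Pool.Agent.V8H36.CV
open Pool.Agent.W161.LF (NM N_shift M_shift js_shift)
open Pool.Agent.R318.QL.CL (YY sL sL_mem aL)

noncomputable section

/-- the hypotheses on a family -/
structure FH (φ : FD) (m0 : ℕ) : Prop where
  jo2 : ∀ d p : ℕ, φ.A d → p.Prime → p ≠ 2 → ¬ p ∣ d → jo φ d p ^ 2 = 1
  odd : Odd m0
  gs : ∀ F : ℝ → ℝ, TF F → GS φ F m0

/-- sieved averages, with the shift property for large `L` -/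
theorem ESlim (φ : FD) (P : ℕ) (hP : Odd P) (hPs : Squarefree P) (F : ℝ → ℝ)
    (f : ℕ → ℝ → ℕ → ℝ) (l : ℝ)
    (hf : ∀ a, Odd a → ∀ᶠ L : ℝ in atTop, ∀ d, f 1 L (a ^ 2 * d) = f a L d)
    (hlim : ∀ a, Odd a → ∀ c : ℝ, 0 < c →
      Tendsto (fun L : ℝ => EAg φ F (c * Real.exp L) (fun d => f a L d)) atTop (𝓝 l)) :
    Tendsto (fun L : ℝ => ESg φ P F (Real.exp L) (fun d => f 1 L d)) atTop (𝓝 (PiP P * l)) := by
  rw [← Pool.Agent.H423R2.RZA.ES3n.ES3_PiP P hPs, Finset.sum_mul]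
  unfold ESg
  refine tendsto_finsetSum _ fun a ha => ?_
  have haP := Nat.dvd_of_mem_divisors ha
  have ha1 : Odd a := Odd.of_dvd_nat hP haP
  have ha0 : 0 < a := Nat.pos_of_mem_divisors ha
  have h1 := (hlim a ha1 (1 / (a : ℝ) ^ 2) (by positivity)).const_mul
    (((ArithmeticFunction.moebius a : ℤ) : ℝ) / (a : ℝ) ^ 2)
  refine h1.congr' ?_
  filter_upwards [hf a ha1] with L hL
  congr 1
  have h2 : 1 / (a : ℝ) ^ 2 * Real.exp L = Real.exp L / (a : ℝ) ^ 2 := by ring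
  rw [h2]
  congr 1
  funext d
  exact (hL d).symm

/-- the sum over primes does not see square factors -/
theorem YY_shift (φ : FD) (a : ℕ) (ha : Odd a) : ∀ᶠ L : ℝ in atTop, ∀ d,
    YY φ L (a ^ 2 * d) = YY φ L d := by
  filter_upwards [sL_cop a ha.pos.ne'] with L hL d
  unfold YY
  refine sum_congr rfl fun p hp => ?_
  obtain ⟨q1, q2, q3, q4, q5⟩ := hL p hp
  congr 1
  unfold jo
  rw [if_pos q2, if_pos q2, js_shift φ.e a d p q1.ne_zero, if_pos q3]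

/-- the quadratic form -/
def Phi (g : ℝ → ℝ) (lam μ0 y n : ℝ) : ℝ :=
  g y * (1 - lam * n) ^ 2 + lam ^ 2 * (1 - g y) * (n - μ0) ^ 2

/-- the sieved average of the quadratic form -/
theorem ES_Phi (φ : FD) (hφ : FG φ) (m0 : ℕ) (hH : FH φ m0) (P : ℕ) (hP : Odd P) (hPs : Squarefree P)
    (F : ℝ → ℝ) (hF : TF F) (hF0 : ∀ x, 0 ≤ F x)
    (s θ : ℝ) (hA : Adm2 s θ) (w Q : ℝ → ℝ) (hw : Wt s w) (hQ : Wt θ Q)
    (g : ℝ → ℝ) (hg : Continuous g) (hgc : HasCompactSupport g) (lam : ℝ) :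
    Tendsto (fun L : ℝ => ESg φ P F (Real.exp L)
      (fun d => Phi g lam (mn w Q / 2) (YY φ L d) (Ndg φ 2 L w d * Mdg φ 2 L Q d))) atTop
      (𝓝 (PiP P * (φ.δ * Ft F 0 * ((∫ y, g y ∂(gaussianReal 0 1)) * (1 - 2 * (lam * (mn w Q / 2))) +
        lam ^ 2 * (BB w Q w Q - (mn w Q / 2) ^ 2 * (1 - ∫ y, g y ∂(gaussianReal 0 1))))))) := by
  have key := ESlim φ P hP hPs F
    (fun a L d => Phi g lam (mn w Q / 2) (YY φ L d) (NM φ (2 * a) L w Q d))
    (φ.δ * Ft F 0 * ((∫ y, g y ∂(gaussianReal 0 1)) * (1 - 2 * (lam * (mn w Q / 2))) +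
        lam ^ 2 * (BB w Q w Q - (mn w Q / 2) ^ 2 * (1 - ∫ y, g y ∂(gaussianReal 0 1))))) ?_ ?_
  · exact key
  · intro a ha
    filter_upwards [YY_shift φ a ha] with L hL d
    have e1 : NM φ (2 * 1) L w Q (a ^ 2 * d) = NM φ (2 * a) L w Q d := by
      unfold NM
      rw [mul_one, N_shift φ even_two, M_shift φ even_two]
    rw [hL d, e1]
  · intro a ha c hc
    have hq : Even (2 * a) := even_two_mul a
    have hq0 : 2 * a ≠ 0 := by have := ha.pos; omega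
    have l1 := tst_1 φ hφ hH.jo2 F hF hF0 m0 hH.odd.pos.ne' (hH.gs F hF) c hc g hg hgc
    have l2 := tst_NM2 φ hφ hH.jo2 F hF hF0 m0 hH.odd (hH.gs F hF) (2 * a) hq hq0 c hc s θ hA w Q hw hQ
      g hg hgc
    have l3 := Pool.Agent.W161.LF.lim_sq φ hφ hF hq hq0 hc hA hw hQ
    have l4 := hφ.lim1 F hF (2 * a) hq hq0 c hc s θ hA w Q hw hQ
    have l5 := hφ.ef1 F hF c hc
    set μ0 : ℝ := mn w Q / 2 with hμ0
    have L1 := ((((l1.const_mul (1 - lam ^ 2 * μ0 ^ 2)).add (l2.const_mul (2 * lam ^ 2 * μ0 - 2 * lam))).add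
      (l3.const_mul (lam ^ 2))).add (l4.const_mul (-(2 * lam ^ 2 * μ0)))).add
      (l5.const_mul (lam ^ 2 * μ0 ^ 2))
    have e0 : φ.δ * Ft F 0 * ((∫ y, g y ∂(gaussianReal 0 1)) * (1 - 2 * (lam * μ0)) +
        lam ^ 2 * (BB w Q w Q - μ0 ^ 2 * (1 - ∫ y, g y ∂(gaussianReal 0 1)))) =
        (1 - lam ^ 2 * μ0 ^ 2) * (φ.δ * Ft F 0 * ∫ y, g y ∂(gaussianReal 0 1)) +
        (2 * lam ^ 2 * μ0 - 2 * lam) * (φ.δ * Ft F 0 * μ0 * ∫ y, g y ∂(gaussianReal 0 1)) +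
        lam ^ 2 * (φ.δ * Ft F 0 * BB w Q w Q) + -(2 * lam ^ 2 * μ0) * (φ.δ * Ft F 0 * μ0) +
        lam ^ 2 * μ0 ^ 2 * (φ.δ * Ft F 0) := by ring
    rw [e0]
    refine L1.congr fun L => ?_
    have hX : 0 < c * Real.exp L := by positivity
    have hTO : TOg φ F (c * Real.exp L) (2 * a) L w Q =
        EAg φ F (c * Real.exp L) (fun d => NM φ (2 * a) L w Q d) := rfl
    rw [hTO, ← Pool.Agent.W161.LF.EAg_cmul, ← Pool.Agent.W161.LF.EAg_cmul,
      ← Pool.Agent.W161.LF.EAg_cmul, ← Pool.Agent.W161.LF.EAg_cmul, ← Pool.Agent.W161.LF.EAg_cmul,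
      ← Pool.Agent.W161.LF.EAg_add φ hF hX, ← Pool.Agent.W161.LF.EAg_add φ hF hX,
      ← Pool.Agent.W161.LF.EAg_add φ hF hX, ← Pool.Agent.W161.LF.EAg_add φ hF hX]
    congr 1
    funext d
    unfold Phi
    ring

/-- **the centre, in intervals** -/
theorem cen2 (t : ℝ) (ht : 0 < t) : ∃ (δ θ : ℝ) (ρ Q : ℝ → ℝ) (η : ℝ), 0 < δ ∧ δ ≤ 1 / 64 ∧
    Adm2 (1 / 2 + 3 * δ) θ ∧ RH δ ρ ∧ Wt θ Q ∧ 0 < η ∧
    ∀ (φ : FD) (_ : FG φ) (m0 : ℕ) (_ : FH φ m0) (F : ℝ → ℝ) (_ : TF F) (_ : ∀ x, 0 ≤ F x) (P : ℕ)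
      (_ : Odd P) (_ : Squarefree P) (g : ℝ → ℝ) (_ : Continuous g) (_ : HasCompactSupport g)
      (_ : ∀ y, 0 ≤ g y ∧ g y ≤ 1) (ε : ℝ) (_ : 0 < ε), ∀ᶠ L : ℝ in atTop,
      cnt F L (SFg φ ∩ {d | |Nfg φ L (KGg φ L (beg φ L d) (Ph ρ 0)) d * Mdg φ 2 L Q d| < η ∧
        g (YY φ L d) = 1}) ≤
        PiP P * (φ.δ * Ft F 0) * ((∫ y, g y ∂(gaussianReal 0 1)) /
          (1 + 7 * ∫ y, g y ∂(gaussianReal 0 1)) + t) + ε := by
  -- the parameter
  obtain ⟨s, hs0, hs1, hst⟩ : ∃ s : ℝ, 0 < s ∧ s < 1 / 100 ∧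
      7 * (1 / ((2 - 2 * s) ^ 3 - 1)) * ((1 + s) / (1 - s) ^ 2) ≤ 1 + 8 * t := by
    have hc : ContinuousAt (fun s : ℝ => 7 * (1 / ((2 - 2 * s) ^ 3 - 1)) * ((1 + s) / (1 - s) ^ 2)) 0 := by
      apply ContinuousAt.mul
      · apply ContinuousAt.mul continuousAt_const
        exact continuousAt_const.div (by fun_prop : ContinuousAt (fun s : ℝ => (2 - 2 * s) ^ 3 - 1) 0)
          (by norm_num)
      · exact (by fun_prop : ContinuousAt (fun s : ℝ => 1 + s) 0).div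
          (by fun_prop : ContinuousAt (fun s : ℝ => (1 - s) ^ 2) 0) (by norm_num)
    have h1 : ∀ᶠ s in 𝓝 (0 : ℝ), 7 * (1 / ((2 - 2 * s) ^ 3 - 1)) * ((1 + s) / (1 - s) ^ 2) < 1 + 8 * t := by
      apply hc.eventually (gt_mem_nhds _)
      norm_num
      linarith
    have h2 := h1.filter_mono (nhdsWithin_le_nhds (s := Set.Ioi (0 : ℝ)))
    have h3 : ∀ᶠ s in 𝓝[>] (0 : ℝ), s < 1 / 100 :=
      (gt_mem_nhds (show (0 : ℝ) < 1 / 100 by norm_num) : ∀ᶠ s in 𝓝 (0 : ℝ), s < 1 / 100).filter_mono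
        nhdsWithin_le_nhds
    obtain ⟨s, ⟨h4, h5⟩, h6⟩ := ((h2.and h3).and self_mem_nhdsWithin).exists
    exact ⟨s, h6, h5, h4.le⟩
  set θ' : ℝ := 1 / 2 - s with hθ'
  set θ : ℝ := 1 / 2 - s / 2 with hθd
  set δ : ℝ := s / 12 with hδd
  have hδ : 0 < δ := by positivity
  have hδ1 : δ < 1 / 8 := by rw [hδd]; linarith
  have hθ'0 : 0 < θ' := by rw [hθ']; linarith
  have hθθ : θ' < θ := by rw [hθ', hθd]; linarith
  have hθ1 : θ < 1 / 2 := by rw [hθd]; linarith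
  have hA : Adm2 (1 / 2 + 3 * δ) θ := by
    constructor <;> (try rw [hδd]) <;> (try rw [hθd]) <;> linarith
  obtain ⟨w1, w2, w3⟩ := Pool.Agent.H692R2.RZ2W0.W0
  obtain ⟨ρ, hρ⟩ := w1 δ hδ
  obtain ⟨κ, hκ⟩ := w2 δ 1 hδ one_pos
  obtain ⟨ζ, hζ⟩ := w3 (-1 / 2) (-1 / 4) (by norm_num)
  obtain ⟨χ, hχ⟩ := w3 θ' θ hθθ
  obtain ⟨o1, o2, o3⟩ := opt_num hθ'0 hθθ hθ1 hχ hδ hδ1 one_pos le_rfl hρ hκ hζ
  set Q := Qc ζ (psi χ) with hQd
  set w := Wf ρ κ 0 with hw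
  set μ := mn w Q with hμ
  set B := BB w Q w Q with hB
  have hQ : Wt θ Q := by
    apply Qc_wt hζ
    · unfold psi
      exact (contDiff_const.add (contDiff_const.mul contDiff_id)).mul hχ.smooth
    · intro t ht
      unfold psi
      rw [hχ.zero t ht, mul_zero]
  have hwW : Wt (1 / 2 + 3 * δ) w := by
    obtain ⟨h4a, -⟩ := Pool.Agent.H423R2.RGL.OldW.W4 δ 1 hδ one_pos le_rfl ρ κ hρ hκ
    exact (h4a 0).1
  have hμ0 : 0 < μ := by
    refine lt_of_lt_of_le ?_ o1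
    have : 1 < (1 + 2 * θ') ^ 3 := one_lt_pow₀ (by linarith) (by norm_num)
    linarith
  -- the constant
  set κ1 : ℝ := 1 / ((2 - 2 * s) ^ 3 - 1) with hκ1
  have hden : 6 < (2 - 2 * s) ^ 3 - 1 := by
    have h1 : (99 / 50 : ℝ) ≤ 2 - 2 * s := by linarith
    have h2 : (99 / 50 : ℝ) ^ 3 ≤ (2 - 2 * s) ^ 3 := pow_le_pow_left₀ (by norm_num) h1 3
    have h3 : (7 : ℝ) < (99 / 50) ^ 3 := by norm_num
    linarith
  have hden2 : (2 - 2 * s) ^ 3 - 1 ≤ 7 := by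
    have h1 : 2 - 2 * s ≤ 2 := by linarith
    have h2 : (2 - 2 * s) ^ 3 ≤ 2 ^ 3 := pow_le_pow_left₀ (by linarith) h1 3
    linarith
  have hκ10 : 0 < κ1 := by
    rw [hκ1]
    exact one_div_pos.2 (by linarith)
  have hκ17 : 1 ≤ 7 * κ1 := by
    rw [hκ1, mul_one_div, le_div_iff₀ (by linarith)]
    linarith
  have hBk : B ≤ (μ / 2) ^ 2 * (1 + κ1) := by
    have e2 : 1 + 2 * θ' = 2 - 2 * s := by rw [hθ']; ring
    rw [e2] at o1
    have h1 : 1 / 6 * μ ≤ μ ^ 2 * κ1 := by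
      rw [hκ1, mul_one_div, le_div_iff₀ (by linarith)]
      nlinarith
    nlinarith
  refine ⟨δ, θ, ρ, Q, s * μ / 4, hδ, by rw [hδd]; linarith, hA, hρ, hQ, by positivity, ?_⟩
  intro φ hφ m0 hH F hF hF0 P hP hPs g hg hgc hg01 ε hε
  obtain ⟨hce1, hce2⟩ := ceg_bd φ hφ
  have hce0 : 0 < ceg φ := by linarith
  -- the mass of `g`
  set G : ℝ := ∫ y, g y ∂(gaussianReal 0 1) with hGd
  have hG0 : 0 ≤ G := integral_nonneg fun y => (hg01 y).1
  have hG1 : G ≤ 1 := by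
    have h1 : G ≤ ∫ y, (1 : ℝ) ∂(gaussianReal 0 1) := by
      apply integral_mono_of_nonneg
      · exact Filter.Eventually.of_forall fun y => (hg01 y).1
      · exact integrable_const _
      · exact Filter.Eventually.of_forall fun y => (hg01 y).2
    simpa using h1
  set lam : ℝ := G / (κ1 + G) / (μ / 2) with hlam
  have hlam0 : 0 ≤ lam := by positivity
  have hx : lam * (μ / 2) = G / (κ1 + G) := by
    rw [hlam]
    field_simp
  have hx1 : G / (κ1 + G) ≤ 1 := by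
    rw [div_le_one (by positivity)]
    linarith
  set a := (1 + s) / (1 - s) ^ 2 with ha
  set b := (1 + 1 / s) * (2 * lam + 1) ^ 2 / (1 - s) ^ 2 with hb
  have h1s : 0 < 1 - s := by linarith
  have ha0 : 0 < a := by positivity
  have hb0 : 0 < b := by positivity
  -- the value of the form
  set V : ℝ := G * (1 - 2 * (lam * (μ / 2))) + lam ^ 2 * (B - (μ / 2) ^ 2 * (1 - G)) with hV
  have hV1 : V ≤ G * κ1 / (κ1 + G) := by
    have e1 : lam ^ 2 * (B - (μ / 2) ^ 2 * (1 - G)) ≤ (lam * (μ / 2)) ^ 2 * (κ1 + G) := by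
      have h1 : B - (μ / 2) ^ 2 * (1 - G) ≤ (μ / 2) ^ 2 * (κ1 + G) := by nlinarith
      calc _ ≤ lam ^ 2 * ((μ / 2) ^ 2 * (κ1 + G)) := mul_le_mul_of_nonneg_left h1 (sq_nonneg _)
        _ = _ := by ring
    have e2 : G * (1 - 2 * (lam * (μ / 2))) + (lam * (μ / 2)) ^ 2 * (κ1 + G) = G * κ1 / (κ1 + G) := by
      rw [hx]
      have : κ1 + G ≠ 0 := by positivity
      field_simp
      ring
    rw [hV]
    linarith
  have hV2 : a * V ≤ G / (1 + 7 * G) + t := by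
    have e1 : G * κ1 / (κ1 + G) ≤ 7 * κ1 * (G / (1 + 7 * G)) := by
      rw [div_le_iff₀ (by positivity)]
      have e3 : 7 * κ1 * (G / (1 + 7 * G)) * (κ1 + G) = κ1 * G * (7 * κ1 + 7 * G) / (1 + 7 * G) := by
        field_simp
      rw [e3, le_div_iff₀ (by positivity)]
      have : 0 ≤ κ1 * G := by positivity
      nlinarith
    have e2 : G / (1 + 7 * G) ≤ 1 / 8 := by
      rw [div_le_div_iff₀ (by positivity) (by norm_num)]
      linarith
    have e4 : 0 ≤ G / (1 + 7 * G) := by positivity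
    calc a * V ≤ a * (7 * κ1 * (G / (1 + 7 * G))) :=
          mul_le_mul_of_nonneg_left (hV1.trans e1) ha0.le
      _ = (7 * κ1 * a) * (G / (1 + 7 * G)) := by ring
      _ ≤ (1 + 8 * t) * (G / (1 + 7 * G)) := mul_le_mul_of_nonneg_right hst e4
      _ = G / (1 + 7 * G) + 8 * t * (G / (1 + 7 * G)) := by ring
      _ ≤ G / (1 + 7 * G) + 8 * t * (1 / 8) := by gcongr
      _ = _ := by ring
  -- the comparison
  obtain ⟨CK, LK, kK, hCK, hLK, hKEb⟩ := LnkB.KEG φ hφ F hF hF0 δ 1 θ hδ one_pos le_rfl hA κ hκ (0 + 1) (by norm_num)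
  obtain ⟨BP, hBP⟩ := Pool.Agent.H423R2.RGM.Gr_Ph kK δ ρ hρ 0
  obtain ⟨BQ, hBQ0, hBQ⟩ := Pool.Agent.H423R2.RZA.TR1n.bd_exists hQ.smooth hQ.supp kK
  have hE : ∀ L : ℝ, LK ≤ L → EAg φ F (Real.exp L) (fun d => ((Nfg φ L (KGg φ L (beg φ L d) (Ph ρ 0)) d -
        ceg φ * Ndg φ 2 L w d) * Mdg φ 2 L Q d) ^ 2) ≤ CK * BP ^ 2 * BQ ^ 2 / L ^ 2 := by
    intro L hL
    exact hKEb L (Ph ρ 0) Q BP BQ hL (hBP 0 le_rfl le_rfl).smooth
      (fun τ hτ => by unfold Ph; rw [hρ.zero τ hτ, mul_zero]) (hBP 0 le_rfl le_rfl).bd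
      (fun j => by
        obtain ⟨B', hB'⟩ := Pool.Agent.H423R2.RGM.Gr_Ph j δ ρ hρ 0
        exact ⟨B', (hB' 0 le_rfl le_rfl).bd j le_rfl⟩) hQ hBQ
  -- the limits
  have hlim := ES_Phi φ hφ m0 hH P hP hPs F hF hF0 (1 / 2 + 3 * δ) θ hA w Q hwW hQ g hg hgc lam
  have hPi := Pool.Agent.H864R2.RGFI4G.PiP_nonneg P
  have hFt := Pool.Agent.H864R2.RGFI4G.Ft_nonneg hF0
  have hδφ := hφ.hδ
  have hl1 : ∀ᶠ L : ℝ in atTop, ESg φ P F (Real.exp L)
      (fun d => Phi g lam (μ / 2) (YY φ L d) (Ndg φ 2 L w d * Mdg φ 2 L Q d)) <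
      PiP P * (φ.δ * Ft F 0 * V) + ε / (2 * a) := by
    have hlim' : Tendsto (fun L : ℝ => ESg φ P F (Real.exp L)
        (fun d => Phi g lam (μ / 2) (YY φ L d) (Ndg φ 2 L w d * Mdg φ 2 L Q d))) atTop
        (𝓝 (PiP P * (φ.δ * Ft F 0 * V))) := hlim
    have h0 : 0 < ε / (2 * a) := by positivity
    exact hlim'.eventually (gt_mem_nhds (lt_add_of_pos_right _ h0))
  have hl2 : ∀ᶠ L : ℝ in atTop, b * (CK * BP ^ 2 * BQ ^ 2 / L ^ 2) < ε / 2 := by
    have h1 : Tendsto (fun L : ℝ => b * (CK * BP ^ 2 * BQ ^ 2 / L ^ 2)) atTop (𝓝 (b * 0)) := by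
      apply Tendsto.const_mul
      exact tendsto_const_nhds.div_atTop (tendsto_pow_atTop (by norm_num))
    rw [mul_zero] at h1
    exact h1.eventually (gt_mem_nhds (by positivity))
  filter_upwards [hl1, hl2, eventually_ge_atTop LK] with L g1 g2 g3
  have hX : 0 < Real.exp L := Real.exp_pos L
  have hPhi0 : ∀ y n, 0 ≤ Phi g lam (μ / 2) y n := by
    intro y n
    unfold Phi
    have h1 := (hg01 y).1
    have h2 : 0 ≤ 1 - g y := by linarith [(hg01 y).2]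
    positivity
  have key := cnt_sieve φ hφ hP hPs hF hF0 L
    (SFg φ ∩ {d | |Nfg φ L (KGg φ L (beg φ L d) (Ph ρ 0)) d * Mdg φ 2 L Q d| < s * μ / 4 ∧
      g (YY φ L d) = 1})
    Set.inter_subset_left
    (fun d => a * Phi g lam (μ / 2) (YY φ L d) (Ndg φ 2 L w d * Mdg φ 2 L Q d))
    (fun d => b * ((Nfg φ L (KGg φ L (beg φ L d) (Ph ρ 0)) d - ceg φ * Ndg φ 2 L w d) * Mdg φ 2 L Q d) ^ 2)
    (fun d => mul_nonneg ha0.le (hPhi0 _ _)) (fun d => by positivity) (by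
      intro d hd
      obtain ⟨-, hd2, hd2'⟩ := hd
      have hd3 : |Nfg φ L (KGg φ L (beg φ L d) (Ph ρ 0)) d * Mdg φ 2 L Q d| < s * μ / 4 := hd2
      have hd4 : g (YY φ L d) = 1 := hd2'
      set N := Nfg φ L (KGg φ L (beg φ L d) (Ph ρ 0)) d
      set MQ := Mdg φ 2 L Q d with hMQ
      set Nd := Ndg φ 2 L w d with hNd
      have hPhi : Phi g lam (μ / 2) (YY φ L d) (Nd * MQ) = (1 - lam * (Nd * MQ)) ^ 2 := by
        unfold Phi
        rw [hd4]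
        ring
      simp only [hPhi]
      set Er := (N - ceg φ * Nd) * MQ with hEr
      set G' := 1 - lam / ceg φ * (N * MQ) with hG'
      have e1 : G' - (1 - lam * (Nd * MQ)) = -(lam / ceg φ * Er) := by
        rw [hG', hEr]
        field_simp
        ring
      have hmc : |lam / ceg φ| ≤ 2 * lam := by
        rw [div_eq_mul_one_div, abs_mul, abs_of_nonneg hlam0, mul_comm 2 lam]
        exact mul_le_mul_of_nonneg_left hce2 hlam0
      have h1 : |lam / ceg φ * (N * MQ)| ≤ s := by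
        rw [abs_mul]
        calc |lam / ceg φ| * |N * MQ| ≤ (2 * lam) * (s * μ / 4) :=
              mul_le_mul hmc hd3.le (abs_nonneg _) (by positivity)
          _ = s * (lam * (μ / 2)) := by ring
          _ ≤ s * 1 := by
              rw [hx]
              exact mul_le_mul_of_nonneg_left hx1 hs0.le
          _ = s := mul_one s
      have h2 : 1 - s ≤ G' := by
        rw [hG']
        have := (abs_le.1 h1).2
        linarith
      have h3 : (1 - s) ^ 2 ≤ G' ^ 2 := pow_le_pow_left₀ h1s.le h2 2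
      have h4 : (lam / ceg φ * Er) ^ 2 ≤ (2 * lam + 1) ^ 2 * Er ^ 2 := by
        rw [mul_pow]
        apply mul_le_mul_of_nonneg_right _ (sq_nonneg _)
        rw [← sq_abs (lam / ceg φ)]
        exact pow_le_pow_left₀ (abs_nonneg _) (by linarith) 2
      set g0 := 1 - lam * (Nd * MQ) with hg0
      have h5 : G' ^ 2 ≤ (1 + s) * g0 ^ 2 + (1 + 1 / s) * (lam / ceg φ * Er) ^ 2 := by
        have e2 : G' = g0 - lam / ceg φ * Er := by linarith
        rw [e2]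
        have e3 : (1 + s) * g0 ^ 2 + (1 + 1 / s) * (lam / ceg φ * Er) ^ 2 - (g0 - lam / ceg φ * Er) ^ 2 =
          (s * g0 + lam / ceg φ * Er) ^ 2 / s := by
          field_simp
          ring
        have : 0 ≤ (s * g0 + lam / ceg φ * Er) ^ 2 / s := by positivity
        linarith
      have h6 : (1 + 1 / s) * (lam / ceg φ * Er) ^ 2 ≤ (1 + 1 / s) * ((2 * lam + 1) ^ 2 * Er ^ 2) := by gcongr
      have e4 : a * g0 ^ 2 + b * Er ^ 2 = ((1 + s) * g0 ^ 2 + (1 + 1 / s) * ((2 * lam + 1) ^ 2 * Er ^ 2)) / (1 - s) ^ 2 := by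
        rw [ha, hb]
        ring
      rw [e4, le_div_iff₀ (by positivity)]
      linarith)
  rw [ESg_smul, Pool.Agent.H568R3.TR1Gn.ef_smul] at key
  have h1 := mul_le_mul_of_nonneg_left g1.le ha0.le
  have h2 := mul_le_mul_of_nonneg_left (hE L g3) hb0.le
  have h3 : a * (PiP P * (φ.δ * Ft F 0 * V) + ε / (2 * a)) ≤
      PiP P * (φ.δ * Ft F 0) * (G / (1 + 7 * G) + t) + ε / 2 := by
    have e5 : a * (PiP P * (φ.δ * Ft F 0 * V) + ε / (2 * a)) =
        PiP P * (φ.δ * Ft F 0) * (a * V) + ε / 2 := by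
      field_simp
    rw [e5]
    have h5 : 0 ≤ PiP P * (φ.δ * Ft F 0) := by positivity
    have := mul_le_mul_of_nonneg_left hV2 h5
    linarith
  linarith

end

end Pool.Agent.V8H36.IN
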