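import Pool.Agent.V8H40.IN.Rb

set_option autoImplicit false
set_option linter.all false
set_option maxHeartbeats 4000000

/-!
Tuples of primes with an odd multiplicity carry little weight.
-/

namespace Pool.Agent.V8H36.IN

open Finset Pool.Agent.R318.QL.CL

noncomputable section

open Classical in
theorem odd_tuples (s : Finset ℕ) (a β : ℕ → ℝ) (ha : ∀ p ∈ s, 0 ≤ a p ∧ a p ≤ 1)
    (hβ : ∀ p ∈ s, 0 ≤ β p ∧ β p ≤ 1) (V : ℝ) (hV : ∑ p ∈ s, a p ^ 2 ≤ V) (k : ℕ) :
    ∑ f ∈ (Fintype.piFinset (fun _ : Fin k => s)).filter (fun f => ¬ EvC s f),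
      (∏ i, a (f i)) * ∏ p ∈ s, (if Even (univ.filter (fun i => f i = p)).card then 1 else β p) ≤
    k.factorial * Real.exp (V / 2) * (Real.exp (2 * ∑ p ∈ s, a p * β p) - 1) :=
  Pool.Agent.V8H40.IN.odd_tuples s a β ha hβ V hV k

end

end Pool.Agent.V8H36.IN
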