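import Pool.Agent.V8H36.IN.Cen2
import Pool.Agent.V8H36.CV.FamRel
import Pool.Agent.V8H36.CV.Nl

set_option autoImplicit false
set_option linter.all false
set_option maxHeartbeats 4000000

/-!
Central values in intervals, part 6: the size of the central value for the members of a family whose sum
over primes lies in a given interval.
-/

namespace Pool.Agent.V8H36.IN

open Finset Filter Topology MeasureTheory ProbabilityTheory
open Pool.Agent.H306R2.RZ hiding Gt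
open Pool.Agent.H306R2.RG
open Pool.Agent.V8H36.CV
open Pool.Agent.R318.QL
open Pool.Agent.R318.QL.CL (zL wL sL YY zL_facts AX mem_AX AX_card)
open Pool.Agent.W169.QP (cnt_mono cnt_union markov)

noncomputable section

/-- the hypotheses hold for the basic families -/
theorem FH_fam (φ : FD) (h : Fam φ) : FH φ 1 where
  jo2 := fun d p _ hp hp2 hpd => jo_sq h hp hp2 hpd
  odd := odd_one
  gs := fun F hF => gs_fam φ h F hF

theorem rel2 (φ : FD) (hfam : Fam φ) (hφ : FG φ) (hC : CG φ) (t : ℝ) (ht : 0 < t) (F : ℝ → ℝ) (hF : TF F)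
    (hF0 : ∀ x, 0 ≤ F x) : ∃ A : ℝ, 0 < A ∧
      ∀ g : ℝ → ℝ, Continuous g → HasCompactSupport g → (∀ y, 0 ≤ g y ∧ g y ≤ 1) →
      ∀ P : ℕ, Odd P → Squarefree P → ∀ ε : ℝ, 0 < ε → ∀ᶠ L : ℝ in atTop,
        cnt F L (SFg φ ∩ {d | ¬ Lo φ L A d ∧ g (YY φ L d) = 1}) ≤
          PiP P * (φ.δ * Ft F 0) * ((∫ y, g y ∂(gaussianReal 0 1)) /
          (1 + 7 * ∫ y, g y ∂(gaussianReal 0 1)) + t) + ε := by
  obtain ⟨δ, θ, ρ, Q, η, hδ, hδ1, hA, hρ, hQ, hη, hcen⟩ := cen2 t ht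
  obtain ⟨A, hA1, hA2⟩ := cross φ hfam hφ hC F hF hF0 δ θ hδ hδ1 hA ρ hρ Q hQ
  refine ⟨(A : ℝ) + 4, by positivity, ?_⟩
  intro g hg hgc hg01 P hP hPs ε hε
  filter_upwards [hA2 η hη (ε / 3) (by positivity), pf_rel φ hfam F hF hF0 (ε / 3) (by positivity),
    hcen φ hφ 1 (FH_fam φ hfam) F hF hF0 P hP hPs g hg hgc hg01 (ε / 3) (by positivity), xL_facts]
    with L h1 h2 h3 h4
  obtain ⟨hL4, hlog, hx, hxL, -⟩ := h4
  refine (cnt_supp hF hF0 L (B :=
    (SFg φ ∩ {d | |Nfg φ L (KGg φ L (beg φ L d) (Ph ρ 0)) d * Mdg φ 2 L Q d| < η ∧ g (YY φ L d) = 1}) ∪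
    ((SFg φ ∩ {d | η ≤ |Nfg φ L (KGg φ L (beg φ L d) (Ph ρ 0)) d * Mdg φ 2 L Q d| ∧
        ¬ (Real.exp (PF φ L d (xL L / L)) ≤ Real.log L ^ A * |LLg φ d (1 / 2)|)}) ∪
    (SFg φ ∩ {d | ¬ (|PF φ L d (xL L / L) - (1 / 2 * Real.log L + SS φ L d)| ≤
    4 * Real.log (Real.log L))}))) ?_).trans ?_
  · intro d hd _
    by_contra hB
    rw [Set.mem_union, Set.mem_union, not_or, not_or] at hB
    obtain ⟨a0, a1, a2⟩ := hB
    have a5 : η ≤ |Nfg φ L (KGg φ L (beg φ L d) (Ph ρ 0)) d * Mdg φ 2 L Q d| := by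
      by_contra h
      exact a0 ⟨hd.1, not_le.1 h, hd.2.2⟩
    have a3 : Real.exp (PF φ L d (xL L / L)) ≤ Real.log L ^ A * |LLg φ d (1 / 2)| := by
      by_contra h
      exact a1 ⟨hd.1, a5, h⟩
    have a4 : |PF φ L d (xL L / L) - (1 / 2 * Real.log L + SS φ L d)| ≤ 4 * Real.log (Real.log L) := by
      by_contra h
      exact a2 ⟨hd.1, h⟩
    apply hd.2.1
    show Real.exp _ ≤ |LLg φ d (1 / 2)|
    have e1 : Real.log L ^ A = Real.exp (A * Real.log (Real.log L)) := by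
      rw [Real.exp_nat_mul, Real.exp_log (by linarith)]
    rw [e1] at a3
    have h5 : Real.exp (PF φ L d (xL L / L) - A * Real.log (Real.log L)) ≤ |LLg φ d (1 / 2)| := by
      rw [Real.exp_sub, div_le_iff₀ (Real.exp_pos _)]
      linarith
    refine le_trans (Real.exp_le_exp.2 ?_) h5
    have := (abs_le.1 a4).1
    linarith
  · refine (cnt_union hF hF0 L _ _).trans ?_
    have := cnt_union hF hF0 L (SFg φ ∩ {d | η ≤ |Nfg φ L (KGg φ L (beg φ L d) (Ph ρ 0)) d * Mdg φ 2 L Q d| ∧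
        ¬ (Real.exp (PF φ L d (xL L / L)) ≤ Real.log L ^ A * |LLg φ d (1 / 2)|)})
        (SFg φ ∩ {d | ¬ (|PF φ L d (xL L / L) - (1 / 2 * Real.log L + SS φ L d)| ≤
          4 * Real.log (Real.log L))})
    linarith

open Classical in
/-- **the counts** -/
theorem fam_count2 (φ : FD) (hfam : Fam φ) (hφ : FG φ) (hC : CG φ) (t : ℝ) (ht : 0 < t)
    (g : ℝ → ℝ) (hg : Continuous g) (hgc : HasCompactSupport g) (hg01 : ∀ y, 0 ≤ g y ∧ g y ≤ 1) :
    ∃ A : ℝ, 0 < A ∧ ∀ᶠ X : ℕ in atTop,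
      (((AX φ (X / φ.r)).filter (fun d => ¬ Lo φ (Real.log X) A d ∧ g (YY φ (Real.log X) d) = 1)).card : ℝ) ≤
        ((∫ y, g y ∂(gaussianReal 0 1)) / (1 + 7 * ∫ y, g y ∂(gaussianReal 0 1)) + t) *
        (AX φ (X / φ.r)).card := by
  have hr := hφ.hr.1
  have hr0 : (0 : ℝ) < φ.r := by exact_mod_cast hr
  have hδφ := hφ.hδ
  have hG0 : 0 ≤ ∫ y, g y ∂(gaussianReal 0 1) := integral_nonneg fun y => (hg01 y).1
  set K : ℝ := (∫ y, g y ∂(gaussianReal 0 1)) / (1 + 7 * ∫ y, g y ∂(gaussianReal 0 1)) with hKd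
  have hK0 : 0 ≤ K := by positivity
  set D : ℝ := φ.δ * (8 / Real.pi ^ 2) with hD
  have hpi := Real.pi_pos
  have hD0 : 0 < D := by positivity
  -- the parameters
  obtain ⟨s, hs0, hs1, hsa, hsb⟩ : ∃ s : ℝ, 0 < s ∧ s < 1 ∧
      s < D ∧
      s + (8 / Real.pi ^ 2 + s) * (φ.δ * (1 + s)) * (K + s) + s + s < (K + t) * (D - s) := by
    have hc2 : Continuous (fun s : ℝ => (K + t) * (D - s) -
      (s + (8 / Real.pi ^ 2 + s) * (φ.δ * (1 + s)) * (K + s) + s + s)) := by fun_prop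
    have h2 : ∀ᶠ s in 𝓝 (0 : ℝ), 0 < (K + t) * (D - s) -
      (s + (8 / Real.pi ^ 2 + s) * (φ.δ * (1 + s)) * (K + s) + s + s) := by
      apply (hc2.tendsto 0).eventually (lt_mem_nhds _)
      have : 0 < t * D := by positivity
      have e : (8 / Real.pi ^ 2 + 0) * (φ.δ * (1 + 0)) * (K + 0) = D * K := by rw [hD]; ring
      rw [e]
      linarith
    have h1 : ∀ᶠ s in 𝓝 (0 : ℝ), s < D := gt_mem_nhds hD0
    have h3 := (h1.and h2).filter_mono (nhdsWithin_le_nhds (s := Set.Ioi (0 : ℝ)))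
    have h4 : ∀ᶠ s in 𝓝[>] (0 : ℝ), s < 1 :=
      (gt_mem_nhds (show (0 : ℝ) < 1 by norm_num) : ∀ᶠ s in 𝓝 (0 : ℝ), s < 1).filter_mono
        nhdsWithin_le_nhds
    obtain ⟨s, ⟨⟨h5, h6⟩, h7⟩, h8⟩ := ((h3.and h4).and self_mem_nhdsWithin).exists
    exact ⟨s, h8, h7, h5, by linarith⟩
  obtain ⟨P, hP, hPs, hPP⟩ := Pool.Agent.H614R2.RZ2.FI2 s hs0
  obtain ⟨F, hF, hF0, hF1, hFt⟩ := bumpR s hs0 hs1 hr0
  obtain ⟨A, hA0, hA2⟩ := rel2 φ hfam hφ hC s hs0 F hF hF0
  refine ⟨A, hA0, ?_⟩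
  have hlog : Tendsto (fun X : ℕ => Real.log X) atTop atTop :=
    Real.tendsto_log_atTop.comp tendsto_natCast_atTop_atTop
  have hsr : 0 < s / φ.r := by positivity
  have hDs : 0 < D - s := by linarith
  have hlow := AX_low φ hfam hr (D - s) (by linarith) hDs.le
  have hbig : ∀ᶠ X : ℕ in atTop, (K + t) * (D - s) ≤ s * ((X : ℝ) / φ.r) := by
    have h1 : Tendsto (fun X : ℕ => s * ((X : ℝ) / φ.r)) atTop atTop :=
      (tendsto_natCast_atTop_atTop.atTop_div_const hr0).const_mul_atTop hs0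
    exact h1.eventually_ge_atTop _
  filter_upwards [hlog.eventually (hA2 g hg hgc hg01 P hP hPs (s / φ.r) hsr), hlow, hbig,
    eventually_gt_atTop 0] with X g2 g3 g4a g5
  rw [← hKd] at g2
  have hX0 : (0 : ℝ) < X := by exact_mod_cast g5
  set Y : ℝ := (X : ℝ) / φ.r with hY
  have hY0 : 0 < Y := by positivity
  have k1 := cnt_to_card hF hF0 hs0 hr hF1 φ hC.dpos X g5
    {d | ¬ Lo φ (Real.log X) A d ∧ g (YY φ (Real.log X) d) = 1}
  have hPi := Pool.Agent.H864R2.RGFI4G.PiP_nonneg P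
  have hFt0 := Pool.Agent.H864R2.RGFI4G.Ft_nonneg hF0
  have k2 : PiP P * (φ.δ * Ft F 0) * (K + s) ≤
      (8 / Real.pi ^ 2 + s) * (φ.δ * ((1 + s) / φ.r)) * (K + s) := by
    apply mul_le_mul_of_nonneg_right _ (by positivity)
    exact mul_le_mul hPP (mul_le_mul_of_nonneg_left hFt hδφ.le) (by positivity) (by positivity)
  have k3 : (X : ℝ) * cnt F (Real.log X) (SFg φ ∩ {d | ¬ Lo φ (Real.log X) A d ∧ g (YY φ (Real.log X) d) = 1}) ≤
      ((8 / Real.pi ^ 2 + s) * (φ.δ * (1 + s)) * (K + s) + s) * Y := by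
    calc _ ≤ (X : ℝ) * ((8 / Real.pi ^ 2 + s) * (φ.δ * ((1 + s) / φ.r)) * (K + s) + s / φ.r) :=
          mul_le_mul_of_nonneg_left (g2.trans (by linarith)) hX0.le
      _ = _ := by rw [hY]; ring
  have k4 : (K + t) * ((D - s) * Y - (D - s)) ≤ (K + t) * (AX φ (X / φ.r)).card :=
    mul_le_mul_of_nonneg_left g3 (by positivity)
  have k5 : (s + (8 / Real.pi ^ 2 + s) * (φ.δ * (1 + s)) * (K + s) + s + s) * Y ≤ (K + t) * (D - s) * Y :=
    mul_le_mul_of_nonneg_right hsb.le hY0.le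
  simp only [Set.mem_setOf_eq] at k1
  linarith

/-! ### the interval -/

/-- a trapezoid -/
def tz (e a b : ℝ) (y : ℝ) : ℝ := max 0 (min 1 (min ((y - a) / e) ((b - y) / e)))

lemma tz_cont (e a b : ℝ) : Continuous (tz e a b) := by
  unfold tz
  fun_prop

lemma tz_01 (e a b y : ℝ) : 0 ≤ tz e a b y ∧ tz e a b y ≤ 1 := by
  unfold tz
  exact ⟨le_max_left _ _, max_le zero_le_one (min_le_left _ _)⟩

lemma tz_out {e a b y : ℝ} (he : 0 < e) (h : ¬ y ∈ Set.Ioc a b) : tz e a b y = 0 := by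
  unfold tz
  apply max_eq_left
  rw [Set.mem_Ioc, not_and_or, not_lt, not_le] at h
  refine (min_le_right _ _).trans ?_
  rcases h with h | h
  · refine (min_le_left _ _).trans ?_
    exact div_nonpos_of_nonpos_of_nonneg (by linarith) he.le
  · refine (min_le_right _ _).trans ?_
    exact div_nonpos_of_nonpos_of_nonneg (by linarith) he.le

lemma tz_in {e a b y : ℝ} (he : 0 < e) (h1 : a + e < y) (h2 : y < b - e) : tz e a b y = 1 := by
  unfold tz
  have h3 : 1 ≤ (y - a) / e := by rw [le_div_iff₀ he]; linarith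
  have h4 : 1 ≤ (b - y) / e := by rw [le_div_iff₀ he]; linarith
  rw [min_eq_left (le_min h3 h4)]
  exact max_eq_right zero_le_one

lemma tz_cpt {e a b : ℝ} (he : 0 < e) : HasCompactSupport (tz e a b) := by
  apply HasCompactSupport.intro (isCompact_Icc (a := a) (b := b))
  intro y hy
  apply tz_out he
  intro h
  exact hy ⟨h.1.le, h.2⟩

lemma Gt_sub {a b : ℝ} (hab : a ≤ b) : (gaussianReal 0 1 (Set.Ioc a b)).toReal = Gt a - Gt b := by
  have h1 : Set.Ioc a b ∪ Set.Ioi b = Set.Ioi a := Set.Ioc_union_Ioi_eq_Ioi hab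
  have h2 : gaussianReal 0 1 (Set.Ioi a) = gaussianReal 0 1 (Set.Ioc a b) + gaussianReal 0 1 (Set.Ioi b) := by
    rw [← h1, measure_union _ measurableSet_Ioi]
    rw [Set.disjoint_left]
    intro x hx hx2
    exact absurd hx.2 (not_le.2 hx2)
  unfold Gt
  rw [h2, ENNReal.toReal_add (measure_ne_top _ _) (measure_ne_top _ _)]
  ring

lemma tz_int {e a b : ℝ} (he : 0 < e) (hab : a ≤ b) : ∫ y, tz e a b y ∂(gaussianReal 0 1) ≤ Gt a - Gt b := by
  rw [← Gt_sub hab]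
  have h1 : ∫ y, tz e a b y ∂(gaussianReal 0 1) ≤
      ∫ y, (Set.Ioc a b).indicator (fun _ => (1 : ℝ)) y ∂(gaussianReal 0 1) := by
    apply integral_mono_of_nonneg
    · exact Filter.Eventually.of_forall fun y => (tz_01 e a b y).1
    · exact (integrable_const (1 : ℝ)).indicator measurableSet_Ioc
    · apply Filter.Eventually.of_forall
      intro y
      by_cases h : y ∈ Set.Ioc a b
      · show tz e a b y ≤ (Set.Ioc a b).indicator (fun _ => (1 : ℝ)) y
        rw [Set.indicator_of_mem h]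
        exact (tz_01 e a b y).2
      · show tz e a b y ≤ (Set.Ioc a b).indicator (fun _ => (1 : ℝ)) y
        rw [Set.indicator_of_notMem h, tz_out he h]
  refine h1.trans (le_of_eq ?_)
  rw [integral_indicator measurableSet_Ioc, setIntegral_const, smul_eq_mul, mul_one]
  rfl

lemma Gt_Ioo (c d : ℝ) : Gt c - Gt d ≤ (gaussianReal 0 1 (Set.Ioo c d)).toReal := by
  have h0 := Gt_compl d
  have h1 : Set.Iio d ⊆ Set.Iic c ∪ Set.Ioo c d := by
    intro x hx
    by_cases h : x ≤ c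
    · exact Or.inl h
    · exact Or.inr ⟨not_le.1 h, hx⟩
  have h2 : (gaussianReal 0 1 (Set.Iic c)).toReal = 1 - Gt c := by
    have h3 : gaussianReal 0 1 (Set.Iic c) + gaussianReal 0 1 (Set.Ioi c) = 1 := by
      rw [← Set.compl_Iic, prob_add_prob_compl measurableSet_Iic]
    have h4 := congrArg ENNReal.toReal h3
    rw [ENNReal.toReal_add (measure_ne_top _ _) (measure_ne_top _ _)] at h4
    unfold Gt
    simp only [ENNReal.toReal_one] at h4
    linarith
  have h3 : gaussianReal 0 1 (Set.Iio d) ≤ gaussianReal 0 1 (Set.Iic c) + gaussianReal 0 1 (Set.Ioo c d) :=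
    (measure_mono h1).trans (measure_union_le _ _)
  have h4 := ENNReal.toReal_mono (by simp [measure_ne_top]) h3
  rw [ENNReal.toReal_add (measure_ne_top _ _) (measure_ne_top _ _), h0, h2] at h4
  linarith

lemma frac_mono {x y : ℝ} (hx : 0 ≤ x) (hxy : x ≤ y) : x / (1 + 7 * x) ≤ y / (1 + 7 * y) := by
  rw [div_le_div_iff₀ (by positivity) (by linarith)]
  nlinarith

lemma frac_id {x : ℝ} (hx : 0 ≤ x) : x - x / (1 + 7 * x) = x ^ 2 / (x + 1 / 7) := by
  have h1 : 1 + 7 * x ≠ 0 := by positivity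
  have h2 : x + 1 / 7 ≠ 0 := by positivity
  field_simp
  ring

open Classical in
/-- **the law in a family, in intervals** -/
theorem fam_int (φ : FD) (hfam : Fam φ) (hφ : FG φ) (hC : CG φ) (a b : ℝ) (hab : a ≤ b) (ε : ℝ) (hε : 0 < ε) :
    ∀ᶠ X : ℕ in atTop,
      ((Gt a - Gt b) ^ 2 / ((Gt a - Gt b) + 1 / 7) - ε) * (AX φ (X / φ.r)).card ≤
        (((AX φ (X / φ.r)).filter (fun d =>
          Real.exp (1 / 2 * Real.log (Real.log X) + a * Real.sqrt (Real.log (Real.log X))) < |LLg φ d (1 / 2)| ∧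
          |LLg φ d (1 / 2)| < Real.exp (1 / 2 * Real.log (Real.log X) +
            b * Real.sqrt (Real.log (Real.log X))))).card : ℝ) := by
  obtain ⟨ε', hε'⟩ : ∃ e : ℝ, ε = 5 * e := ⟨ε / 5, by ring⟩
  have hε0 : 0 < ε' := by linarith
  obtain ⟨V, hV⟩ : ∃ V : Set ℝ, V = Set.Ioo (a + ε') (b - ε') := ⟨_, rfl⟩
  obtain ⟨A1, hA1, hcnt1⟩ := fam_count φ hfam hφ hC ε' hε0
  obtain ⟨A2, hA2, hcnt2⟩ := fam_count2 φ hfam hφ hC ε' hε0 (tz ε' a b) (tz_cont _ _ _) (tz_cpt hε0)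
    (tz_01 _ _ _)
  have hlogX : Tendsto (fun X : ℕ => Real.log X) atTop atTop :=
    Real.tendsto_log_atTop.comp tendsto_natCast_atTop_atTop
  have hllX : Tendsto (fun X : ℕ => Real.log (Real.log X)) atTop atTop :=
    Real.tendsto_log_atTop.comp hlogX
  have hsmall : ∀ A : ℝ, 0 < A → ∀ᶠ l : ℝ in atTop,
      Real.sqrt (Real.sqrt l) + 1 + A * Real.log l ≤ ε' * Real.sqrt l ∧ 0 < Real.sqrt l := by
    intro A hA0
    have hA1 : 0 < ε' / (3 * A) := by positivity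
    have h1 := (isLittleO_log_rpow_atTop (show (0 : ℝ) < 1 / 2 by norm_num)).bound hA1
    have hs : Tendsto Real.sqrt atTop atTop := Real.tendsto_sqrt_atTop
    have h2 : ∀ᶠ y : ℝ in atTop, Real.sqrt y ≤ ε' / 3 * y := by
      filter_upwards [hs.eventually_ge_atTop (3 / ε'), eventually_ge_atTop (0 : ℝ)] with y hy hy0
      have h3 : Real.sqrt y * Real.sqrt y = y := Real.mul_self_sqrt hy0
      rw [div_le_iff₀ hε0] at hy
      have h4 := Real.sqrt_nonneg y
      nlinarith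
    filter_upwards [h1, hs.eventually h2, hs.eventually_ge_atTop (3 / ε'), eventually_ge_atTop (1 : ℝ)]
      with l k1 k2 k3 k4
    have k5 := Real.log_nonneg k4
    rw [Real.norm_of_nonneg k5, ← Real.sqrt_eq_rpow, Real.norm_of_nonneg (Real.sqrt_nonneg _)] at k1
    have k6 : A * Real.log l ≤ ε' / 3 * Real.sqrt l := by
      calc A * Real.log l ≤ A * (ε' / (3 * A) * Real.sqrt l) := mul_le_mul_of_nonneg_left k1 hA0.le
        _ = _ := by field_simp
    rw [div_le_iff₀ hε0] at k3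
    refine ⟨by linarith, Real.sqrt_pos.2 (by linarith)⟩
  have hδ := hφ.hδ
  have hr := hφ.hr.1
  filter_upwards [hcnt1, hcnt2, hllX.eventually (hsmall A1 hA1), hllX.eventually (hsmall A2 hA2),
    hlogX.eventually SS_YY,
    fam_openR φ hfam hδ φ.r hr V (hV ▸ isOpen_Ioo) ε' hε0] with X h1 h1' h2 h2' h3 h4
  obtain ⟨c1, -⟩ := h1
  obtain ⟨s1, s2⟩ := h2
  obtain ⟨s1', -⟩ := h2'
  set L : ℝ := Real.log X with hL
  set l : ℝ := Real.log L with hl
  set U := AX φ (X / φ.r) with hU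
  set γ : ℝ := Gt a - Gt b with hγ
  have hγ0 : 0 ≤ γ := by have := Gt_anti hab; linarith
  have hU0 : (0 : ℝ) ≤ U.card := Nat.cast_nonneg _
  have hG0 : 0 ≤ ∫ y, tz ε' a b y ∂(gaussianReal 0 1) := integral_nonneg fun y => (tz_01 _ _ _ y).1
  have e1 := frac_mono hG0 (tz_int hε0 hab)
  have e2 : γ - 2 * ε' ≤ (gaussianReal 0 1 V).toReal := by
    rw [hV]
    refine le_trans ?_ (Gt_Ioo _ _)
    have q1 := Gt_lip (show a ≤ a + ε' by linarith)
    have q2 := Gt_lip (show b - ε' ≤ b by linarith)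
    linarith
  have k1 : U.filter (fun d => YY φ L d ∈ V) ⊆ U.filter (fun d => ¬ Up φ L A1 d) ∪
      (U.filter (fun d => ¬ Lo φ L A2 d ∧ tz ε' a b (YY φ L d) = 1) ∪
      U.filter (fun d => Real.exp (1 / 2 * l + a * Real.sqrt l) < |LLg φ d (1 / 2)| ∧
        |LLg φ d (1 / 2)| < Real.exp (1 / 2 * l + b * Real.sqrt l))) := by
    intro d hd
    rw [Finset.mem_filter] at hd
    rw [Finset.mem_union, Finset.mem_union, Finset.mem_filter, Finset.mem_filter, Finset.mem_filter]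
    by_contra hcon
    rw [not_or, not_or] at hcon
    have hY := hd.2
    rw [hV] at hY
    obtain ⟨y1, y2⟩ := hY
    have a1 : Up φ L A1 d := by
      by_contra h
      exact hcon.1 ⟨hd.1, h⟩
    have a2 : Lo φ L A2 d := by
      by_contra h
      exact hcon.2.1 ⟨hd.1, h, tz_in hε0 y1 y2⟩
    have b1 : |LLg φ d (1 / 2)| ≤ Real.exp (1 / 2 * l + SS φ L d + A1 * Real.log l) := a1
    have b2 : Real.exp (1 / 2 * l + SS φ L d - A2 * Real.log l) ≤ |LLg φ d (1 / 2)| := a2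
    have b3 := abs_le.1 (h3 φ d)
    apply hcon.2.2
    refine ⟨hd.1, ?_, ?_⟩
    · refine lt_of_lt_of_le (Real.exp_lt_exp.2 ?_) b2
      have a5 : Real.sqrt l * (a + ε') < Real.sqrt l * YY φ L d := mul_lt_mul_of_pos_left y1 s2
      linarith [b3.1]
    · refine lt_of_le_of_lt b1 (Real.exp_lt_exp.2 ?_)
      have a5 : Real.sqrt l * YY φ L d < Real.sqrt l * (b - ε') := mul_lt_mul_of_pos_left y2 s2
      linarith [b3.2]
  have k2 := (Finset.card_le_card k1).trans ((Finset.card_union_le _ _).trans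
    (Nat.add_le_add_left (Finset.card_union_le _ _) _))
  have k3 : ((U.filter (fun d => YY φ L d ∈ V)).card : ℝ) ≤
      (U.filter (fun d => ¬ Up φ L A1 d)).card +
      ((U.filter (fun d => ¬ Lo φ L A2 d ∧ tz ε' a b (YY φ L d) = 1)).card +
      (U.filter (fun d => Real.exp (1 / 2 * l + a * Real.sqrt l) < |LLg φ d (1 / 2)| ∧
        |LLg φ d (1 / 2)| < Real.exp (1 / 2 * l + b * Real.sqrt l))).card) := by
    exact_mod_cast k2
  have k5 : (γ - 2 * ε') * U.card ≤ (gaussianReal 0 1 V).toReal * U.card := mul_le_mul_of_nonneg_right e2 hU0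
  have k6 := mul_le_mul_of_nonneg_right e1 hU0
  have k7 := frac_id hγ0
  rw [← k7, hε']
  linarith

end

end Pool.Agent.V8H36.IN
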