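import Mathlib

set_option autoImplicit false
set_option linter.all false
set_option maxHeartbeats 4000000

/-!
From trigonometric to continuous test functions, for sums with signed weights.
-/

namespace Pool.Agent.V8H36.IN

open Finset Filter Topology MeasureTheory ProbabilityTheory

noncomputable section

theorem test_fun {ι : Type*} (l : Filter ι) (A : ι → Finset ℕ) (W : ι → ℕ → ℝ) (Y : ι → ℕ → ℝ)
    (m C : ℝ)
    (h1 : ∀ t : ℝ, Tendsto (fun i => ∑ d ∈ A i, W i d * Real.cos (t * Y i d)) l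
      (𝓝 (m * Real.exp (-(t ^ 2 / 2)))))
    (h2 : ∀ t : ℝ, Tendsto (fun i => ∑ d ∈ A i, W i d * Real.sin (t * Y i d)) l (𝓝 0))
    (h3 : ∀ᶠ i in l, ∑ d ∈ A i, |W i d| ≤ C)
    (h4 : ∀ ε : ℝ, 0 < ε → ∃ R : ℝ, ∀ᶠ i in l,
      ∑ d ∈ (A i).filter (fun d => R < |Y i d|), |W i d| ≤ ε)
    (g : ℝ → ℝ) (hg : Continuous g) (hgc : HasCompactSupport g) :
    Tendsto (fun i => ∑ d ∈ A i, W i d * g (Y i d)) l
      (𝓝 (m * ∫ y, g y ∂(gaussianReal 0 1))) := by
  sorry

end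

end Pool.Agent.V8H36.IN
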