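import Pool.Agent.W161.LF.Stab
import Pool.Agent.W161.LF.Tw

set_option autoImplicit false
set_option linter.all false
set_option maxHeartbeats 4000000

/-!
Central values in intervals, part 1: bounds for the mollified values which are uniform in the
removed primes, and the first moment twisted by a non-square.
-/

namespace Pool.Agent.V8H36.IN

open Finset Filter Topology MeasureTheory Pool.Agent.H306R2.RZ Pool.Agent.H306R2.RG
open Pool.Agent.W161.LF

noncomputable section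

/-- averages of the characters over the family, for the moduli prime to `m0` that are not squares -/
def GS (φ : FD) (F : ℝ → ℝ) (m0 : ℕ) : Prop :=
  ∀ A : ℕ, Even A → 2 ≤ A → ∃ C C' : ℝ, 0 ≤ C ∧ 0 ≤ C' ∧ ∀ (X : ℝ) (n : ℕ), 0 < X → Odd n →
    Nat.Coprime n m0 → ¬ IsSquare n →
    |EAg φ F X (fun d => js (φ.e * (d : ℤ)) n)| ≤ C * ((n : ℝ) / X) ^ A + C' / Real.sqrt X

theorem gs_fam (φ : FD) (hφ : Fam φ) (F : ℝ → ℝ) (hF : TF F) : GS φ F 1 := by
  intro A hA hA2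
  obtain ⟨C, C', hC, hC', h⟩ := good_all φ hφ F hF A hA hA2
  refine ⟨C, C', hC, hC', fun X n hX hn _ hsq => ?_⟩
  have h1 := h X n hX hn
  have h2 : Gk 0 n * Ft F 0 / n = 0 := by
    have := Gk_zero n hn
    unfold kap at this
    rw [if_neg hsq] at this
    rw [mul_div_right_comm, this, zero_mul]
  rw [h2, mul_zero, sub_zero] at h1
  exact h1

theorem M_zero (φ : FD) {q : ℕ} (hq : Even q) {L : ℝ} (hL : 0 < L) {w : ℝ → ℝ}
    (h : ∀ y, 0 ≤ y → w y = 0) (d : ℕ) : Mdg φ q L w d = 0 := by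
  rw [M_congr φ hq hL (w' := fun _ => 0) h, Mdg_mt]
  simp [Pool.Agent.W161.LF.mt]

/-- expansion of the second sum with `p` removed -/
theorem M_exp (φ : FD) {q : ℕ} (hq : Even q) {p : ℕ} (hp : p.Prime) (hp2 : Odd p)
    (hpq : Nat.Coprime p q) {s L : ℝ} (hL : 0 < L) {w : ℝ → ℝ} (hw : Up s w) (d J : ℕ) :
    Mdg φ (q * p) L w d = (∑ j ∈ range J, (js (φ.e * (d : ℤ)) p / Real.sqrt p) ^ j *
      Mdg φ q L (fun y => w (y + j * (Real.log p / L))) d) +
      (js (φ.e * (d : ℤ)) p / Real.sqrt p) ^ J *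
        Mdg φ (q * p) L (fun y => w (y + J * (Real.log p / L))) d := by
  induction J with
  | zero => simp
  | succ J ih =>
    have hh : 0 ≤ Real.log p / L :=
      div_nonneg (Real.log_nonneg (by exact_mod_cast hp.one_lt.le)) hL.le
    have h1 := M_rec φ hq hp hp2 hpq hL (hw.shift (t := J * (Real.log p / L))
      (by positivity)) d
    have e : (fun y => w (y + Real.log p / L + J * (Real.log p / L))) =
        fun y => w (y + ((J + 1 : ℕ) : ℝ) * (Real.log p / L)) := by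
      funext y
      congr 1
      push_cast
      ring
    rw [e] at h1
    rw [ih, sum_range_succ, h1]
    ring

/-- one step: removing one prime costs a constant -/
theorem ub_step (φ : FD) (F : ℝ → ℝ) (hF : TF F) (hF0 : ∀ x, 0 ≤ F x) {q : ℕ} (hq : Even q)
    {p : ℕ} (hp : p.Prime) (hp2 : Odd p) (hpq : Nat.Coprime p q) {c : ℝ} (hc : 0 < c)
    {s θ : ℝ} (hs0 : 0 < s) (hθs : θ ≤ s) {ψ : ℝ → ℝ}
    (hψ : ContDiff ℝ ((⊤ : ℕ∞) : WithTop ℕ∞) ψ) (hψs : ∀ y, ψ y ≠ 0 → -1 ≤ y ∧ y ≤ s + 1)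
    (hψ1 : ∀ y, 0 ≤ y → y ≤ s → ψ y = 1) {k : ℕ} {Bψ : ℝ} (hBψ : Bd k ψ Bψ) {L K : ℝ} (hL : 0 < L)
    (hK : 0 ≤ K)
    (ih : ∀ (w Q : ℝ → ℝ) (B1 B2 : ℝ), Wt s w → Wt θ Q → Bd k w B1 → Bd k Q B2 →
      EAg φ F (c * Real.exp L) (fun d => NM φ q L w Q d ^ 2) ≤ K * B1 ^ 2 * B2 ^ 2)
    (w Q : ℝ → ℝ) (B1 B2 : ℝ) (hw : Wt s w) (hQ : Wt θ Q) (h1 : Bd k w B1) (h2 : Bd k Q B2) :
    EAg φ F (c * Real.exp L) (fun d => NM φ (q * p) L w Q d ^ 2) ≤
      (36 * (1 + 2 ^ k * Bψ) ^ 4 * K) * B1 ^ 2 * B2 ^ 2 := by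
  have hX : 0 < c * Real.exp L := by positivity
  have hq' : Even (q * p) := hq.mul_right p
  have hBψ0 : 0 ≤ Bψ := Bd_nonneg hBψ
  have hB1 : 0 ≤ B1 := Bd_nonneg h1
  have hB2 : 0 ≤ B2 := Bd_nonneg h2
  have hp3 : 3 ≤ p := by
    rcases hp.two_le.lt_or_eq with h | h
    · omega
    · rw [← h] at hp2
      exact absurd hp2 (by decide)
  have hp1 : (1 : ℝ) < p := by exact_mod_cast hp.one_lt
  have hp3' : (3 : ℝ) ≤ p := by exact_mod_cast hp3
  have hsp : 0 < Real.sqrt p := Real.sqrt_pos.2 (by linarith)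
  set ρ : ℝ := 1 / Real.sqrt p with hρ
  have hρ0 : 0 ≤ ρ := by positivity
  have hρ1 : ρ ≤ 2 / 3 := by
    rw [hρ, div_le_div_iff₀ hsp (by norm_num)]
    have : 3 / 2 ≤ Real.sqrt p := Real.le_sqrt_of_sq_le (by linarith)
    linarith
  have hlog : 0 < Real.log p := Real.log_pos hp1
  set h : ℝ := Real.log p / L with hh
  have hh0 : 0 < h := by positivity
  obtain ⟨J, hJ⟩ := exists_nat_gt (s / h)
  have hJ' : s < J * h := by
    rwa [div_lt_iff₀ hh0] at hJ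
  have hup := up_of_wt hw
  have hupQ : Up s Q := fun y hy => up_of_wt hQ y (lt_of_le_of_lt hθs hy)
  set κ : ℝ := 1 + 2 ^ k * Bψ with hκ
  have hκ1 : 1 ≤ κ := by
    have : 0 ≤ 2 ^ k * Bψ := by positivity
    linarith
  have hcB : ∀ (B t : ℝ) (v : ℝ → ℝ), 0 ≤ B → ContDiff ℝ ((⊤ : ℕ∞) : WithTop ℕ∞) v → Bd k v B →
      Bd k (cw ψ v t) (κ * B) := by
    intro B t v hB hv hvB j hj y
    refine (cw_bd hψ hψs hv hB hvB hBψ t j hj y).trans ?_
    rw [hκ]
    nlinarith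
  -- pieces
  set z : ℕ → ℕ → ℝ := fun j d => NM φ q L (cw ψ w 0) (cw ψ Q (j * h)) d -
    js (φ.e * (d : ℤ)) p / Real.sqrt p * NM φ q L (cw ψ w h) (cw ψ Q (j * h)) d with hz
  have cwN : ∀ (t : ℝ), 0 ≤ t → ∀ d, Ndg φ q L (fun y => w (y + t)) d = Ndg φ q L (cw ψ w t) d := by
    intro t ht d
    refine N_congr φ hq hL (fun y hy => ?_) d
    unfold cw
    by_cases hys : y ≤ s
    · rw [hψ1 y hy hys, mul_one]
    · rw [not_le] at hys
      rw [hup (y + t) (by linarith)]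
      ring
  have cwM : ∀ (t : ℝ), 0 ≤ t → ∀ d, Mdg φ q L (fun y => Q (y + t)) d = Mdg φ q L (cw ψ Q t) d := by
    intro t ht d
    refine M_congr φ hq hL (fun y hy => ?_) d
    unfold cw
    by_cases hys : y ≤ s
    · rw [hψ1 y hy hys, mul_one]
    · rw [not_le] at hys
      rw [hupQ (y + t) (by linarith)]
      ring
  have hu : ∀ d : ℕ, |js (φ.e * (d : ℤ)) p / Real.sqrt p| ≤ ρ := by
    intro d
    rw [abs_div, abs_of_pos hsp, hρ]
    exact div_le_div_of_nonneg_right (abs_js_le _ _) hsp.le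
  have hexp : ∀ d, NM φ (q * p) L w Q d =
      ∑ j ∈ range J, (js (φ.e * (d : ℤ)) p / Real.sqrt p) ^ j * z j d := by
    intro d
    have e1 := M_exp φ hq hp hp2 hpq hL hupQ d J
    have e2 : Mdg φ (q * p) L (fun y => Q (y + (J : ℝ) * (Real.log p / L))) d = 0 := by
      refine M_zero φ hq' hL (fun y hy => ?_) d
      apply hupQ
      rw [← hh]
      linarith
    rw [e2, mul_zero, add_zero] at e1
    have e3 := N_rec φ hq hp hp2 hpq hL hup d
    have e4 : Ndg φ (q * p) L w d = Ndg φ q L (cw ψ w 0) d -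
        js (φ.e * (d : ℤ)) p / Real.sqrt p * Ndg φ q L (cw ψ w h) d := by
      rw [← cwN 0 le_rfl, ← cwN h hh0.le]
      simp only [add_zero]
      rw [e3]
      ring
    unfold NM
    rw [e4, e1, mul_sum]
    refine sum_congr rfl fun j _ => ?_
    rw [← hh, cwM (j * h) (by positivity)]
    simp only [hz]
    unfold NM
    ring
  have hpt : ∀ d, NM φ (q * p) L w Q d ^ 2 ≤ 3 * ∑ j ∈ range J, ρ ^ j * z j d ^ 2 := by
    intro d
    rw [hexp d]
    have hcs := Finset.sum_mul_sq_le_sq_mul_sq (range J) (fun i => Real.sqrt (ρ ^ i))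
      (fun i => Real.sqrt (ρ ^ i) * |z i d|)
    have e1 : ∀ i, Real.sqrt (ρ ^ i) * (Real.sqrt (ρ ^ i) * |z i d|) = ρ ^ i * |z i d| := by
      intro i
      rw [← mul_assoc, Real.mul_self_sqrt (pow_nonneg hρ0 i)]
    have e2 : ∀ i, Real.sqrt (ρ ^ i) ^ 2 = ρ ^ i := fun i => Real.sq_sqrt (pow_nonneg hρ0 i)
    have e3 : ∀ i, (Real.sqrt (ρ ^ i) * |z i d|) ^ 2 = ρ ^ i * z i d ^ 2 := by
      intro i
      rw [mul_pow, e2, sq_abs]
    simp only [e1, e2, e3] at hcs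
    have b1 : |∑ j ∈ range J, (js (φ.e * (d : ℤ)) p / Real.sqrt p) ^ j * z j d| ≤
        ∑ j ∈ range J, ρ ^ j * |z j d| := by
      refine (abs_sum_le_sum_abs _ _).trans (sum_le_sum fun i _ => ?_)
      rw [abs_mul, abs_pow]
      exact mul_le_mul_of_nonneg_right (pow_le_pow_left₀ (abs_nonneg _) (hu d) i) (abs_nonneg _)
    rw [← sq_abs]
    refine (pow_le_pow_left₀ (abs_nonneg _) b1 2).trans (hcs.trans ?_)
    refine mul_le_mul_of_nonneg_right ?_ (sum_nonneg fun i _ => mul_nonneg (pow_nonneg hρ0 i)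
      (sq_nonneg _))
    refine (geo_le ρ hρ0 (by linarith) J).trans ?_
    rw [div_le_iff₀ (by linarith)]
    linarith
  have hzi : ∀ j, EAg φ F (c * Real.exp L) (fun d => z j d ^ 2) ≤ 4 * (K * (κ * B1) ^ 2 * (κ * B2) ^ 2) := by
    intro j
    have hj0 : 0 ≤ (j : ℝ) * h := by positivity
    have b1 := ih (cw ψ w 0) (cw ψ Q (j * h)) (κ * B1) (κ * B2) (cw_wt hψ hψs hw le_rfl)
      (cw_wt hψ hψs hQ hj0) (hcB B1 0 w hB1 hw.smooth h1) (hcB B2 _ Q hB2 hQ.smooth h2)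
    have b2 := ih (cw ψ w h) (cw ψ Q (j * h)) (κ * B1) (κ * B2) (cw_wt hψ hψs hw hh0.le)
      (cw_wt hψ hψs hQ hj0) (hcB B1 h w hB1 hw.smooth h1) (hcB B2 _ Q hB2 hQ.smooth h2)
    have r1 : EAg φ F (c * Real.exp L) (fun d => z j d ^ 2) ≤
        2 * EAg φ F (c * Real.exp L) (fun d => NM φ q L (cw ψ w 0) (cw ψ Q (j * h)) d ^ 2) +
        2 * EAg φ F (c * Real.exp L) (fun d => NM φ q L (cw ψ w h) (cw ψ Q (j * h)) d ^ 2) := by
      rw [← EAg_cmul, ← EAg_cmul, ← EAg_add φ hF hX]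
      refine EAg_mono φ hF hF0 hX (fun d _ => ?_)
      simp only [hz]
      set a := NM φ q L (cw ψ w 0) (cw ψ Q (j * h)) d
      set b := NM φ q L (cw ψ w h) (cw ψ Q (j * h)) d
      set u := js (φ.e * (d : ℤ)) p / Real.sqrt p with hud
      have hu1 : u ^ 2 ≤ 1 := by
        rw [← sq_abs]
        have := hu d
        have h3 : |u| ≤ 1 := this.trans (by linarith)
        exact pow_le_one₀ (abs_nonneg _) h3
      have h4 : (u * b) ^ 2 ≤ b ^ 2 := by
        rw [mul_pow]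
        exact mul_le_of_le_one_left (sq_nonneg _) hu1
      nlinarith [sq_nonneg (a + u * b)]
    linarith
  have hE1 : EAg φ F (c * Real.exp L) (fun d => NM φ (q * p) L w Q d ^ 2) ≤
      3 * ∑ j ∈ range J, ρ ^ j * EAg φ F (c * Real.exp L) (fun d => z j d ^ 2) := by
    refine (EAg_mono φ hF hF0 hX (fun d _ => hpt d)).trans (le_of_eq ?_)
    rw [EAg_cmul, EAg_sum φ hF hX]
    congr 1
    refine sum_congr rfl fun i _ => ?_
    rw [EAg_cmul]
  refine hE1.trans ?_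
  have hgeo : ∑ j ∈ range J, ρ ^ j ≤ 3 := by
    refine (geo_le ρ hρ0 (by linarith) J).trans ?_
    rw [div_le_iff₀ (by linarith)]
    linarith
  have hKK : 0 ≤ 4 * (K * (κ * B1) ^ 2 * (κ * B2) ^ 2) := by positivity
  calc 3 * ∑ j ∈ range J, ρ ^ j * EAg φ F (c * Real.exp L) (fun d => z j d ^ 2)
      ≤ 3 * ∑ j ∈ range J, ρ ^ j * (4 * (K * (κ * B1) ^ 2 * (κ * B2) ^ 2)) := by
        apply mul_le_mul_of_nonneg_left _ (by norm_num)
        exact sum_le_sum fun i _ => mul_le_mul_of_nonneg_left (hzi i) (pow_nonneg hρ0 i)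
    _ = 3 * ((∑ j ∈ range J, ρ ^ j) * (4 * (K * (κ * B1) ^ 2 * (κ * B2) ^ 2))) := by rw [sum_mul]
    _ ≤ 3 * (3 * (4 * (K * (κ * B1) ^ 2 * (κ * B2) ^ 2))) := by
        apply mul_le_mul_of_nonneg_left _ (by norm_num)
        exact mul_le_mul_of_nonneg_right hgeo hKK
    _ = _ := by ring

/-- the second moment is bounded uniformly in the removed primes -/
theorem ubq (φ : FD) (hφ : FG φ) (F : ℝ → ℝ) (hF : TF F) (hF0 : ∀ x, 0 ≤ F x) (q : ℕ)
    (hq : Even q) (hq0 : q ≠ 0) (c : ℝ) (hc : 0 < c) (s θ : ℝ) (hA : Adm2 s θ) :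
    ∃ (C K L0 : ℝ) (k : ℕ), 0 < C ∧ 1 ≤ K ∧ ∀ L : ℝ, L0 ≤ L → 0 < L → ∀ U : Finset ℕ,
      (∀ p ∈ U, p.Prime ∧ Odd p ∧ Nat.Coprime p q) → ∀ (w Q : ℝ → ℝ) (B1 B2 : ℝ),
      Wt s w → Wt θ Q → Bd k w B1 → Bd k Q B2 →
      EAg φ F (c * Real.exp L) (fun d => NM φ (q * ∏ p ∈ U, p) L w Q d ^ 2) ≤
        (C * K ^ U.card) * B1 ^ 2 * B2 ^ 2 := by
  classical
  have hs0 : 0 < s := by linarith [hA.hs]
  have hθs : θ ≤ s := by linarith [hA.hs, hA.hθ1]
  obtain ⟨C, L0, k, hC, hub⟩ := hφ.ub F hF q hq hq0 c hc s θ hA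
  obtain ⟨ψ, hψ, hψs, hψ1⟩ := cutoff s hs0
  obtain ⟨Bψ, hBψ0, hBψ⟩ := Pool.Agent.H423R2.RZA.TR1n.bd_exists hψ hψs k
  have hK : 1 ≤ 36 * (1 + 2 ^ k * Bψ) ^ 4 := by
    have h1 : 1 ≤ (1 + 2 ^ k * Bψ) ^ 4 := one_le_pow₀ (by
      have : 0 ≤ 2 ^ k * Bψ := by positivity
      linarith)
    linarith
  refine ⟨C, 36 * (1 + 2 ^ k * Bψ) ^ 4, L0, k, hC, hK, fun L hL0 hL U => ?_⟩
  induction U using Finset.induction_on with
  | empty =>
    intro _ w Q B1 B2 h1 h2 h3 h4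
    have := hub L hL0 w w Q Q B1 B1 B2 B2 h1 h1 h2 h2 h3 h3 h4 h4
    have e : TTg φ F (c * Real.exp L) q L w Q w Q =
        EAg φ F (c * Real.exp L) (fun d => NM φ (q * ∏ p ∈ (∅ : Finset ℕ), p) L w Q d ^ 2) := by
      unfold TTg NM
      rw [prod_empty, mul_one]
      congr 1
      funext d
      ring
    rw [← e, card_empty, pow_zero, mul_one]
    refine ((le_abs_self _).trans this).trans (le_of_eq ?_)
    ring
  | insert p U hp ih =>
    intro hU w Q B1 B2 h1 h2 h3 h4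
    have hU' : ∀ p ∈ U, p.Prime ∧ Odd p ∧ Nat.Coprime p q := fun r hr => hU r (mem_insert_of_mem hr)
    obtain ⟨hpp, hpo, hpq⟩ := hU p (mem_insert_self p U)
    have hcop : Nat.Coprime p (q * ∏ r ∈ U, r) := by
      apply Nat.Coprime.mul_right hpq
      apply Nat.Coprime.prod_right
      intro r hr
      rw [Nat.coprime_primes hpp (hU' r hr).1]
      rintro rfl
      exact hp hr
    have key := ub_step φ F hF hF0 (q := q * ∏ r ∈ U, r) (hq.mul_right _) hpp hpo hcop hc hs0 hθs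
      hψ hψs hψ1 hBψ hL (K := C * (36 * (1 + 2 ^ k * Bψ) ^ 4) ^ U.card) (by positivity)
      (fun w Q B1 B2 h1 h2 h3 h4 => ih hU' w Q B1 B2 h1 h2 h3 h4) w Q B1 B2 h1 h2 h3 h4
    have e : q * ∏ r ∈ insert p U, r = q * (∏ r ∈ U, r) * p := by
      rw [prod_insert hp]
      ring
    rw [e]
    refine key.trans (le_of_eq ?_)
    rw [card_insert_of_notMem hp, pow_succ]
    ring

/-- `js` of a twist times the mollified value -/
theorem tw_exp (φ : FD) {q : ℕ} (hq : Even q) {L : ℝ} (hL : 0 < L) {s θ : ℝ} {w Q : ℝ → ℝ}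
    (hw : Wt s w) (hQ : Wt θ Q) {r : ℕ} (hr : r ≠ 0) (d : ℕ) :
    js (φ.e * (d : ℤ)) r * NM φ q L w Q d =
      ∑ p ∈ Icc 1 ⌊Real.exp (s * L)⌋₊ ×ˢ Icc 1 ⌊Real.exp (θ * L)⌋₊,
        Pool.Agent.H423R2.RZL.LIM1n.cf q L w Q p * js (φ.e * (d : ℤ)) (r * (p.1 * p.2)) := by
  unfold NM
  rw [Pool.Agent.H884R2.RG.prodg_eq φ q hq L hL s θ w Q hw hQ, mul_sum]
  refine sum_congr rfl fun p hp => ?_
  rw [mem_product, mem_Icc, mem_Icc] at hp
  rw [js_mul _ hr (Nat.mul_ne_zero (by omega) (by omega))]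
  ring

/-- the first moment twisted by a non-square -/
theorem e0 (φ : FD) (F : ℝ → ℝ) (hF : TF F) (m0 : ℕ) (hG : GS φ F m0) (c : ℝ)
    (hc : 0 < c) (s θ : ℝ) (hA : Adm2 s θ) (k : ℕ) :
    ∃ (C η L0 : ℝ), 0 < C ∧ 0 < η ∧ ∀ L : ℝ, L0 ≤ L → ∀ q : ℕ, Even q → m0 ∣ q →
      ∀ r : ℕ, Odd r → Nat.Coprime r m0 → (r : ℝ) ≤ Real.exp (k * (L / Real.log L)) →
      (∀ a b : ℕ, Nat.Coprime a q → Nat.Coprime b q → ¬ IsSquare (r * (a * b))) →
      ∀ (w Q : ℝ → ℝ) (B1 B2 : ℝ), Wt s w → Wt θ Q → (∀ y, |w y| ≤ B1) → (∀ y, |Q y| ≤ B2) →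
      |EAg φ F (c * Real.exp L) (fun d => js (φ.e * (d : ℤ)) r * NM φ q L w Q d)| ≤
        C * B1 * B2 * Real.exp (-(η * L)) := by
  set η : ℝ := (1 - (s + θ)) / 2 with hη
  have hη0 : 0 < η := by rw [hη]; linarith [hA.hst]
  have hst : s + θ = 1 - 2 * η := by rw [hη]; ring
  -- the exponent
  obtain ⟨m, hm⟩ := exists_nat_gt (1 / η)
  set A : ℕ := 2 * (m + 1) with hAd
  have hAη : 1 ≤ A * η := by
    rw [div_lt_iff₀ hη0] at hm
    have : (m : ℝ) ≤ A := by rw [hAd]; push_cast; linarith [(Nat.cast_nonneg m : (0 : ℝ) ≤ m)]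
    nlinarith
  obtain ⟨C, C', hC, hC', hE⟩ := hG A ⟨m + 1, by omega⟩ (by omega)
  have hlogL : ∀ᶠ L : ℝ in atTop, (k : ℝ) / η ≤ Real.log L :=
    Real.tendsto_log_atTop.eventually_ge_atTop _
  obtain ⟨L1, hL1⟩ := eventually_atTop.1 hlogL
  refine ⟨4 * (C * (1 / c) ^ A + C' / Real.sqrt c) + 1, η / 2, max L1 (Real.exp 1), by positivity,
    by positivity, ?_⟩
  intro L hL q hq hmq r hr hrm hrb hns w Q B1 B2 hw hQ h1 h2
  have hLe : Real.exp 1 ≤ L := (le_max_right _ _).trans hL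
  have hL0 : 0 < L := lt_of_lt_of_le (Real.exp_pos 1) hLe
  have hlog1 : 1 ≤ Real.log L := by
    rw [← Real.log_exp 1]
    exact Real.log_le_log (Real.exp_pos 1) hLe
  have hkl : (k : ℝ) * (L / Real.log L) ≤ η * L := by
    have := hL1 L ((le_max_left _ _).trans hL)
    rw [div_le_iff₀ hη0] at this
    rw [mul_div_assoc', div_le_iff₀ (by linarith)]
    nlinarith
  have hX : 0 < c * Real.exp L := by positivity
  have hB1 : 0 ≤ B1 := (abs_nonneg _).trans (h1 0)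
  have hB2 : 0 ≤ B2 := (abs_nonneg _).trans (h2 0)
  have hr0 : r ≠ 0 := hr.pos.ne'
  simp only [tw_exp φ hq hL0 hw hQ hr0]
  rw [EAg_sum φ hF hX]
  set Ns : ℕ := ⌊Real.exp (s * L)⌋₊ with hNs
  set Nt : ℕ := ⌊Real.exp (θ * L)⌋₊ with hNt
  have hNs' : (Ns : ℝ) ≤ Real.exp (s * L) := Nat.floor_le (Real.exp_pos _).le
  have hNt' : (Nt : ℝ) ≤ Real.exp (θ * L) := Nat.floor_le (Real.exp_pos _).le
  set T : ℝ := C * (1 / c) ^ A * Real.exp (-(A * η * L)) + C' / Real.sqrt c * Real.exp (-(L / 2)) with hT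
  have hT0 : 0 ≤ T := by positivity
  have hterm : ∀ p ∈ Icc 1 Ns ×ˢ Icc 1 Nt,
      |EAg φ F (c * Real.exp L) (fun d => Pool.Agent.H423R2.RZL.LIM1n.cf q L w Q p *
        js (φ.e * (d : ℤ)) (r * (p.1 * p.2)))| ≤
      (B1 * B2 * T) * (1 / Real.sqrt p.1 * (1 / Real.sqrt p.2)) := by
    intro p hp
    rw [mem_product, mem_Icc, mem_Icc] at hp
    obtain ⟨⟨hp1, hp1'⟩, ⟨hp2, hp2'⟩⟩ := hp
    rw [EAg_cmul, abs_mul]
    by_cases hcp : Nat.Coprime p.1 q ∧ Nat.Coprime p.2 q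
    · have b2 := Pool.Agent.H884R2.RG.kf_abs q L w Q B1 B2 hB1 h1 h2 hB2 p hp1 hp2
      have hodd : Odd (r * (p.1 * p.2)) := hr.mul ((odd_of_cop hq hcp.1).mul (odd_of_cop hq hcp.2))
      have hcm : Nat.Coprime (r * (p.1 * p.2)) m0 := by
        apply Nat.Coprime.mul_left hrm
        apply Nat.Coprime.mul_left
        · exact Nat.Coprime.coprime_dvd_right hmq hcp.1
        · exact Nat.Coprime.coprime_dvd_right hmq hcp.2
      have b3 := hE (c * Real.exp L) (r * (p.1 * p.2)) hX hodd hcm (hns _ _ hcp.1 hcp.2)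
      have b4 : C * (((r * (p.1 * p.2) : ℕ) : ℝ) / (c * Real.exp L)) ^ A + C' / Real.sqrt (c * Real.exp L) ≤ T := by
        have e4 : Real.sqrt (c * Real.exp L) = Real.sqrt c * Real.exp (L / 2) := by
          rw [Real.sqrt_mul hc.le, Real.exp_half]
        have c1 : ((r * (p.1 * p.2) : ℕ) : ℝ) ≤ Real.exp (η * L) * Real.exp ((s + θ) * L) := by
          push_cast
          have e1 : (p.1 : ℝ) ≤ Real.exp (s * L) := le_trans (by exact_mod_cast hp1') hNs'
          have e2 : (p.2 : ℝ) ≤ Real.exp (θ * L) := le_trans (by exact_mod_cast hp2') hNt'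
          have e3 : Real.exp (s * L) * Real.exp (θ * L) = Real.exp ((s + θ) * L) := by
            rw [← Real.exp_add]; ring_nf
          rw [← e3]
          have e5 : (r : ℝ) ≤ Real.exp (η * L) := hrb.trans (Real.exp_le_exp.2 hkl)
          exact mul_le_mul e5 (mul_le_mul e1 e2 (Nat.cast_nonneg _) (Real.exp_pos _).le)
            (by positivity) (Real.exp_pos _).le
        have c2 : (((r * (p.1 * p.2) : ℕ) : ℝ) / (c * Real.exp L)) ^ A ≤
            (1 / c) ^ A * Real.exp (-(A * η * L)) := by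
          have c3 : ((r * (p.1 * p.2) : ℕ) : ℝ) / (c * Real.exp L) ≤ (1 / c) * Real.exp (-(η * L)) := by
            rw [div_le_iff₀ hX]
            refine c1.trans (le_of_eq ?_)
            rw [hst, ← Real.exp_add]
            have : (1 / c) * Real.exp (-(η * L)) * (c * Real.exp L) =
                Real.exp (-(η * L)) * Real.exp L := by
              field_simp
            rw [this, ← Real.exp_add]
            congr 1
            ring
          refine (pow_le_pow_left₀ (by positivity) c3 A).trans (le_of_eq ?_)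
          rw [mul_pow, ← Real.exp_nat_mul]
          congr 2
          ring
        rw [hT, e4]
        apply add_le_add
        · rw [mul_assoc]
          exact mul_le_mul_of_nonneg_left c2 hC
        · apply le_of_eq
          rw [Real.exp_neg]
          field_simp
      calc _ ≤ (B1 * B2 * (1 / Real.sqrt p.1 * (1 / Real.sqrt p.2))) * T :=
            mul_le_mul b2 (b3.trans b4) (abs_nonneg _) (by positivity)
        _ = _ := by ring
    · rw [Pool.Agent.H423R2.RZL.LIM1n.cf, if_neg hcp, abs_zero, zero_mul]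
      positivity
  refine (abs_sum_le_sum_abs _ _).trans ((sum_le_sum hterm).trans ?_)
  rw [← mul_sum, sum_product]
  simp only [← mul_sum]
  rw [← sum_mul]
  have g1 : ∑ n ∈ Icc 1 Ns, 1 / Real.sqrt (n : ℝ) ≤ 2 * Real.exp (s * L / 2) := by
    refine (Pool.Agent.H884R2.RG.sum_inv_sqrt Ns).trans ?_
    apply mul_le_mul_of_nonneg_left _ (by norm_num)
    rw [Real.exp_half]
    exact Real.sqrt_le_sqrt hNs'
  have g2 : ∑ n ∈ Icc 1 Nt, 1 / Real.sqrt (n : ℝ) ≤ 2 * Real.exp (θ * L / 2) := by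
    refine (Pool.Agent.H884R2.RG.sum_inv_sqrt Nt).trans ?_
    apply mul_le_mul_of_nonneg_left _ (by norm_num)
    rw [Real.exp_half]
    exact Real.sqrt_le_sqrt hNt'
  have g3 : 0 ≤ ∑ n ∈ Icc 1 Nt, 1 / Real.sqrt (n : ℝ) :=
    Finset.sum_nonneg fun n _ => by positivity
  have g4 : (∑ n ∈ Icc 1 Ns, 1 / Real.sqrt (n : ℝ)) * (∑ n ∈ Icc 1 Nt, 1 / Real.sqrt (n : ℝ)) ≤
      4 * Real.exp ((1 / 2 - η) * L) := by
    calc _ ≤ (2 * Real.exp (s * L / 2)) * (2 * Real.exp (θ * L / 2)) :=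
          mul_le_mul g1 g2 g3 (by positivity)
      _ = 4 * (Real.exp (s * L / 2) * Real.exp (θ * L / 2)) := by ring
      _ = _ := by
          rw [← Real.exp_add]
          congr 2
          have : s * L / 2 + θ * L / 2 = (s + θ) * L / 2 := by ring
          rw [this, hst]
          ring
  have g5 : T * (4 * Real.exp ((1 / 2 - η) * L)) ≤
      (4 * (C * (1 / c) ^ A + C' / Real.sqrt c)) * Real.exp (-(η / 2 * L)) := by
    have k1 : Real.exp (-(A * η * L)) * Real.exp ((1 / 2 - η) * L) ≤ Real.exp (-(η / 2 * L)) := by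
      rw [← Real.exp_add]
      apply Real.exp_le_exp.2
      nlinarith
    have k2 : Real.exp (-(L / 2)) * Real.exp ((1 / 2 - η) * L) ≤ Real.exp (-(η / 2 * L)) := by
      rw [← Real.exp_add]
      apply Real.exp_le_exp.2
      nlinarith
    have e1 : T * (4 * Real.exp ((1 / 2 - η) * L)) =
        4 * (C * (1 / c) ^ A * (Real.exp (-(A * η * L)) * Real.exp ((1 / 2 - η) * L)) +
          C' / Real.sqrt c * (Real.exp (-(L / 2)) * Real.exp ((1 / 2 - η) * L))) := by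
      rw [hT]
      ring
    rw [e1]
    have k3 := mul_le_mul_of_nonneg_left k1 (show 0 ≤ C * (1 / c) ^ A by positivity)
    have k4 := mul_le_mul_of_nonneg_left k2 (show 0 ≤ C' / Real.sqrt c by positivity)
    linarith
  calc _ ≤ B1 * B2 * T * (4 * Real.exp ((1 / 2 - η) * L)) :=
        mul_le_mul_of_nonneg_left g4 (by positivity)
    _ = B1 * B2 * (T * (4 * Real.exp ((1 / 2 - η) * L))) := by ring
    _ ≤ B1 * B2 * ((4 * (C * (1 / c) ^ A + C' / Real.sqrt c)) * Real.exp (-(η / 2 * L))) :=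
        mul_le_mul_of_nonneg_left g5 (by positivity)
    _ ≤ _ := by
        have : 0 ≤ B1 * B2 * Real.exp (-(η / 2 * L)) := by positivity
        nlinarith

end

end Pool.Agent.V8H36.IN
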