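import Pool.Agent.V8H36.IN.Tm1

set_option autoImplicit false
set_option linter.all false
set_option maxHeartbeats 4000000

/-!
Central values in intervals, part 2: the first moment twisted by a product of small primes.
-/

namespace Pool.Agent.V8H36.IN

open Finset Filter Topology MeasureTheory Pool.Agent.H306R2.RZ Pool.Agent.H306R2.RG
open Pool.Agent.W161.LF

noncomputable section

/-- the recursion for the product, with cut weights -/
theorem rec_id (φ : FD) {q : ℕ} (hq : Even q) {p : ℕ} (hp : p.Prime) (hp2 : Odd p)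
    (hpq : Nat.Coprime p q) {s θ : ℝ} (hs0 : 0 < s) (hθs : θ ≤ s) {ψ : ℝ → ℝ}
    (hψ1 : ∀ y, 0 ≤ y → y ≤ s → ψ y = 1) {L : ℝ} (hL : 0 < L) {w Q : ℝ → ℝ} (hw : Wt s w)
    (hQ : Wt θ Q) : ∃ J : ℕ, ∀ d : ℕ, NM φ q L w Q d = NM φ (q * p) L w Q d +
      ∑ i ∈ range J, (js (φ.e * (d : ℤ)) p / Real.sqrt p) ^ (i + 1) *
        (NM φ (q * p) L (dw ψ w (i * (Real.log p / L)) (Real.log p / L)) Q d -
          NM φ (q * p) L (cw ψ w (i * (Real.log p / L))) (dw ψ Q 0 (Real.log p / L)) d) := by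
  have hq' : Even (q * p) := hq.mul_right p
  have hp1 : (1 : ℝ) < p := by exact_mod_cast hp.one_lt
  have hlog : 0 < Real.log p := Real.log_pos hp1
  set h : ℝ := Real.log p / L with hh
  have hh0 : 0 < h := by positivity
  obtain ⟨J, hJ⟩ := exists_nat_gt (s / h)
  have hJ' : s < J * h := by
    rwa [div_lt_iff₀ hh0] at hJ
  have hup := up_of_wt hw
  have hupQ : Up s Q := fun y hy => up_of_wt hQ y (lt_of_le_of_lt hθs hy)
  refine ⟨J, fun d => ?_⟩
  set n : ℕ → ℝ := fun j => Ndg φ (q * p) L (fun y => w (y + j * h)) d with hn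
  set m0 : ℝ := Mdg φ (q * p) L Q d with hm0
  set m1 : ℝ := Mdg φ (q * p) L (fun y => Q (y + h)) d with hm1
  have hnz : ∀ j, J ≤ j → n j = 0 := by
    intro j hj
    refine N_zero φ hq' hL (fun y hy => ?_) d
    apply hup
    have : (J : ℝ) ≤ j := by exact_mod_cast hj
    nlinarith
  have e1 := N_exp φ hq hp hp2 hpq hL hup d (J + 1)
  have e2 : Ndg φ q L (fun y => w (y + ((J + 1 : ℕ) : ℝ) * (Real.log p / L))) d = 0 := by
    refine N_zero φ hq hL (fun y hy => ?_) d
    apply hup
    have : (J : ℝ) * h < ((J + 1 : ℕ) : ℝ) * h := by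
      push_cast
      nlinarith
    rw [← hh]
    linarith
  rw [e2, mul_zero, add_zero] at e1
  have e3 := M_rec φ hq hp hp2 hpq hL hupQ d
  have e4 := alg (js (φ.e * (d : ℤ)) p / Real.sqrt p) m0 m1 (Ndg φ q L w d)
    (Mdg φ q L Q d) n J e1 e3 (hnz J le_rfl)
  have e5 : n 0 = Ndg φ (q * p) L w d := by
    simp [hn]
  rw [e5] at e4
  have q1 : ∀ i : ℕ, n (i + 1) - n i = Ndg φ (q * p) L (dw ψ w (i * h) h) d := by
    intro i
    have hi0 : 0 ≤ (i : ℝ) * h := by positivity
    have hu1 : Up s (fun y => w (y + ((i + 1 : ℕ) : ℝ) * h)) := hup.shift (by positivity)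
    have hu2 : Up s (fun y => w (y + (i : ℝ) * h)) := hup.shift hi0
    have := N_sub φ hq' hL hu1 hu2 d
    simp only [hn]
    rw [← this]
    refine N_congr φ hq' hL (fun y hy => ?_) d
    unfold dw
    by_cases hys : y ≤ s
    · rw [hψ1 y hy hys, mul_one]
      congr 2
      push_cast
      ring
    · rw [not_le] at hys
      have a1 : w (y + ((i + 1 : ℕ) : ℝ) * h) = 0 := hu1 y hys
      have a2 : w (y + (i : ℝ) * h) = 0 := hu2 y hys
      have a3 := hup (y + (i * h + h)) (by linarith)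
      rw [a1, a2, a3]
      ring
  have q2 : ∀ i : ℕ, n i = Ndg φ (q * p) L (cw ψ w (i * h)) d := by
    intro i
    have hi0 : 0 ≤ (i : ℝ) * h := by positivity
    refine N_congr φ hq' hL (fun y hy => ?_) d
    unfold cw
    by_cases hys : y ≤ s
    · rw [hψ1 y hy hys, mul_one]
    · rw [not_le] at hys
      rw [hup (y + i * h) (by linarith)]
      ring
  have q3 : m0 - m1 = - Mdg φ (q * p) L (dw ψ Q 0 h) d := by
    have hu1 : Up s (fun y => Q (y + h)) := hupQ.shift hh0.le
    have := M_sub φ hq' hL hu1 hupQ d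
    simp only [hm0, hm1]
    have e : Mdg φ (q * p) L (dw ψ Q 0 h) d = Mdg φ (q * p) L (fun y => Q (y + h) - Q y) d := by
      refine M_congr φ hq' hL (fun y hy => ?_) d
      unfold dw
      by_cases hys : y ≤ s
      · rw [hψ1 y hy hys, mul_one, zero_add, add_zero]
      · rw [not_le] at hys
        rw [zero_add, add_zero, hupQ (y + h) (by linarith), hupQ y hys]
        ring
    rw [e, this]
    ring
  have e6 : ∑ i ∈ range J, (js (φ.e * (d : ℤ)) p / Real.sqrt p) ^ (i + 1) *
        (NM φ (q * p) L (dw ψ w (i * h) h) Q d - NM φ (q * p) L (cw ψ w (i * h)) (dw ψ Q 0 h) d) =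
      ∑ i ∈ range J, (js (φ.e * (d : ℤ)) p / Real.sqrt p) ^ (i + 1) *
        ((n (i + 1) - n i) * m0 + n i * (m0 - m1)) := by
    refine sum_congr rfl fun i _ => ?_
    rw [q3, q1, q2]
    unfold NM
    ring
  rw [e6]
  unfold NM
  linarith

/-- the twist -/
def tw (φ : FD) (e : ℕ → ℕ) (W : Finset ℕ) (d : ℕ) : ℝ := ∏ p ∈ W, js (φ.e * (d : ℤ)) p ^ e p

theorem tw_abs (φ : FD) (e : ℕ → ℕ) (W : Finset ℕ) (d : ℕ) : |tw φ e W d| ≤ 1 := by
  unfold tw
  rw [abs_prod]
  refine prod_le_one (fun i _ => abs_nonneg _) (fun i _ => ?_)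
  rw [abs_pow]
  exact pow_le_one₀ (abs_nonneg _) (abs_js_le _ _)

theorem tw_update (φ : FD) (e : ℕ → ℕ) (W : Finset ℕ) (d p j : ℕ) (hp : p ∈ W) :
    tw φ e W d * js (φ.e * (d : ℤ)) p ^ j = tw φ (Function.update e p (e p + j)) W d := by
  classical
  unfold tw
  rw [← mul_prod_erase W (fun r => js (φ.e * (d : ℤ)) r ^ e r) hp,
    ← mul_prod_erase W (fun r => js (φ.e * (d : ℤ)) r ^ Function.update e p (e p + j) r) hp]
  have e1 : ∏ r ∈ W.erase p, js (φ.e * (d : ℤ)) r ^ Function.update e p (e p + j) r =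
      ∏ r ∈ W.erase p, js (φ.e * (d : ℤ)) r ^ e r := by
    refine prod_congr rfl fun r hr => ?_
    rw [Function.update_of_ne (ne_of_mem_erase hr)]
  rw [e1]
  simp only [Function.update_self]
  rw [pow_add]
  ring

/-- reduced exponents -/
def rx (j : ℕ) : ℕ := if j = 0 then 0 else if Even j then 2 else 1

theorem js_vals (k : ℤ) (n : ℕ) : js k n = 0 ∨ js k n = 1 ∨ js k n = -1 := by
  unfold js
  rcases jacobiSym.trichotomy k n with h | h | h <;> rw [h] <;> simp

theorem js_rx (k : ℤ) (n j : ℕ) : js k n ^ j = js k n ^ rx j := by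
  unfold rx
  split_ifs with h1 h2
  · rw [h1]
  · rcases js_vals k n with h | h | h
    · rw [h, zero_pow h1, zero_pow two_ne_zero]
    · rw [h, one_pow, one_pow]
    · rw [h, h2.neg_one_pow]
      norm_num
  · rw [Nat.not_even_iff_odd] at h2
    rcases js_vals k n with h | h | h
    · rw [h, zero_pow h1, pow_one]
    · rw [h, one_pow, one_pow]
    · rw [h, h2.neg_one_pow]
      norm_num

theorem js_pow (k : ℤ) (n j : ℕ) : js k (n ^ j) = js k n ^ j := by
  unfold js
  rw [jacobiSym.pow_right]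
  push_cast
  rfl

theorem js_prod (k : ℤ) (U : Finset ℕ) (f : ℕ → ℕ) (hf : ∀ p ∈ U, f p ≠ 0) :
    js k (∏ p ∈ U, f p) = ∏ p ∈ U, js k (f p) := by
  classical
  induction U using Finset.induction_on with
  | empty => simp [js]
  | insert p U hp ih =>
    rw [prod_insert hp, prod_insert hp, js_mul _ (hf p (mem_insert_self p U))
      (prod_ne_zero_iff.2 fun i hi => hf i (mem_insert_of_mem hi)),
      ih (fun i hi => hf i (mem_insert_of_mem hi))]

theorem tw_js (φ : FD) (e : ℕ → ℕ) (U : Finset ℕ) (hU : ∀ p ∈ U, p.Prime) (d : ℕ) :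
    tw φ e U d = js (φ.e * (d : ℤ)) (∏ p ∈ U, p ^ rx (e p)) := by
  rw [js_prod _ _ _ (fun p hp => pow_ne_zero _ (hU p hp).ne_zero)]
  unfold tw
  refine prod_congr rfl fun p _ => ?_
  rw [js_pow, js_rx]

/-- the reduced modulus times integers prime to `U` is not a square if some exponent is odd -/
theorem not_sq (e : ℕ → ℕ) (U : Finset ℕ) (hU : ∀ p ∈ U, p.Prime) (h : ¬ ∀ p ∈ U, Even (e p))
    (a b : ℕ) (ha : Nat.Coprime a (∏ p ∈ U, p)) (hb : Nat.Coprime b (∏ p ∈ U, p)) :
    ¬ IsSquare ((∏ p ∈ U, p ^ rx (e p)) * (a * b)) := by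
  classical
  push Not at h
  obtain ⟨p, hp, hodd⟩ := h
  have hpp := hU p hp
  rw [Nat.not_even_iff_odd] at hodd
  have hrx : rx (e p) = 1 := by
    unfold rx
    rw [if_neg, if_neg (Nat.not_even_iff_odd.2 hodd)]
    intro h0
    rw [h0] at hodd
    exact absurd hodd (by decide)
  have hcop : ∀ n, Nat.Coprime n (∏ p ∈ U, p) → ¬ p ∣ n := by
    intro n hn hd
    have h1 : p ∣ Nat.gcd n (∏ p ∈ U, p) := Nat.dvd_gcd hd (dvd_prod_of_mem _ hp)
    rw [hn] at h1
    exact hpp.one_lt.ne' (Nat.dvd_one.1 h1)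
  rw [← mul_prod_erase U (fun r => r ^ rx (e r)) hp]
  simp only [hrx, pow_one]
  rintro ⟨n, hn⟩
  have h1 : p ∣ n * n := by
    rw [← hn]
    exact Dvd.dvd.mul_right (dvd_mul_right _ _) _
  have h2 : p ∣ n := by
    rcases hpp.dvd_mul.1 h1 with h | h <;> exact h
  obtain ⟨t, rfl⟩ := h2
  have h3 : (∏ r ∈ U.erase p, r ^ rx (e r)) * (a * b) = p * (t * t) := by
    apply Nat.eq_of_mul_eq_mul_left hpp.pos
    rw [← mul_assoc, hn]
    ring
  have h4 : p ∣ (∏ r ∈ U.erase p, r ^ rx (e r)) * (a * b) := by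
    rw [h3]
    exact dvd_mul_right _ _
  rcases hpp.dvd_mul.1 h4 with h | h
  · rw [Prime.dvd_finset_prod_iff hpp.prime] at h
    obtain ⟨r, hr, hd⟩ := h
    have h5 := hpp.dvd_of_dvd_pow hd
    rw [mem_erase] at hr
    exact hr.1 ((Nat.prime_dvd_prime_iff_eq hpp (hU r hr.2)).1 h5).symm
  · rcases hpp.dvd_mul.1 h with h | h
    · exact hcop a ha h
    · exact hcop b hb h

/-- the weight of a prime with odd multiplicity -/
def bt (L : ℝ) (p : ℕ) : ℝ := Real.log p / (L * Real.sqrt p)

open Classical in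
/-- **twisted first moments**, uniformly in the twist -/
theorem tw_main (φ : FD) (hφ : FG φ) (F : ℝ → ℝ) (hF : TF F) (hF0 : ∀ x, 0 ≤ F x) (m0 : ℕ)
    (hG : GS φ F m0) (q : ℕ) (hq : Even q) (hq0 : q ≠ 0) (hmq : m0 ∣ q) (c : ℝ) (hc : 0 < c)
    (s θ : ℝ) (hA : Adm2 s θ) (k : ℕ) :
    ∃ (C κ η L0 : ℝ) (K : ℕ), 0 < C ∧ 1 ≤ κ ∧ 0 < η ∧ ∀ L : ℝ, L0 ≤ L → ∀ V U : Finset ℕ,
      Disjoint U V → (U ∪ V).card ≤ k →
      (∀ p ∈ U ∪ V, p.Prime ∧ Odd p ∧ Nat.Coprime p q ∧ (p : ℝ) ≤ Real.exp (L / Real.log L)) →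
      ∀ (e : ℕ → ℕ) (w Q : ℝ → ℝ) (B1 B2 : ℝ), Wt s w → Wt θ Q →
      Bd (K + V.card) w B1 → Bd (K + V.card) Q B2 →
      |EAg φ F (c * Real.exp L) (fun d => tw φ e (U ∪ V) d * NM φ (q * ∏ p ∈ U, p) L w Q d)| ≤
        C * κ ^ V.card * B1 * B2 * ((if ∀ p ∈ U, Even (e p) then 1 else 0) *
          (∏ p ∈ V, if Even (e p) then 1 else bt L p) + Real.exp (-(η * L))) := by
  have hs0 : 0 < s := by linarith [hA.hs]
  have hθs : θ ≤ s := by linarith [hA.hs, hA.hθ1]
  obtain ⟨Cu, Ku, Lu, K, hCu, hKu, hub⟩ := ubq φ hφ F hF hF0 q hq hq0 c hc s θ hA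
  obtain ⟨Ce, η, Le, hCe, hη, he0⟩ := e0 φ F hF m0 hG c hc s θ hA (2 * k)
  obtain ⟨ψ, hψ, hψs, hψ1⟩ := cutoff s hs0
  obtain ⟨Bψ, hBψ0, hBψ⟩ := Pool.Agent.H423R2.RZA.TR1n.bd_exists hψ hψs (K + k)
  obtain ⟨L1, hL1⟩ := eventually_atTop.1
    ((hφ.ef1 F hF c hc).eventually (gt_mem_nhds (lt_add_one _)))
  set D : ℝ := φ.δ * Ft F 0 + 1 with hD
  set κ1 : ℝ := 1 + 2 ^ (K + k) * Bψ with hκ1
  have hκ11 : 1 ≤ κ1 := by
    have : 0 ≤ 2 ^ (K + k) * Bψ := by positivity
    linarith
  set κ : ℝ := 1 + 6 * κ1 ^ 2 with hκ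
  have hκ11' : 1 ≤ κ1 ^ 2 := one_le_pow₀ hκ11
  set Cb : ℝ := Real.sqrt (|D| * (Cu * Ku ^ k)) with hCb
  refine ⟨Cb + Ce, κ, η, max (max Lu Le) (max L1 (Real.exp 1)), K, by positivity, by linarith, hη,
    ?_⟩
  intro L hL V
  have hLu : Lu ≤ L := (le_max_left _ _).trans ((le_max_left _ _).trans hL)
  have hLe : Le ≤ L := (le_max_right _ _).trans ((le_max_left _ _).trans hL)
  have hLL1 : L1 ≤ L := (le_max_left _ _).trans ((le_max_right _ _).trans hL)
  have hLx : Real.exp 1 ≤ L := (le_max_right _ _).trans ((le_max_right _ _).trans hL)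
  have hL0 : 0 < L := lt_of_lt_of_le (Real.exp_pos 1) hLx
  have hlog1 : 1 ≤ Real.log L := by
    rw [← Real.log_exp 1]
    exact Real.log_le_log (Real.exp_pos 1) hLx
  have hX : 0 < c * Real.exp L := by positivity
  have hC0 : 0 < Cb + Ce := by positivity
  have hbt : ∀ p : ℕ, p.Prime → Odd p → (p : ℝ) ≤ Real.exp (L / Real.log L) →
      0 ≤ bt L p ∧ bt L p ≤ 1 ∧ bt L p = 1 / Real.sqrt p * (Real.log p / L) := by
    intro p hp hpo hpz
    have hp1 : (1 : ℝ) ≤ p := by exact_mod_cast hp.one_lt.le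
    have hs1 : 1 ≤ Real.sqrt p := by
      rw [Real.one_le_sqrt]; exact hp1
    have hl0 : 0 ≤ Real.log p := Real.log_nonneg hp1
    have hl1 : Real.log p ≤ L := by
      have := Real.log_le_log (by linarith) hpz
      rw [Real.log_exp] at this
      exact this.trans (div_le_self hL0.le hlog1)
    refine ⟨by unfold bt; positivity, ?_, ?_⟩
    · unfold bt
      rw [div_le_one (by positivity)]
      nlinarith
    · unfold bt
      field_simp
  induction V using Finset.induction_on with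
  | empty =>
    intro U _ hUk hU e w Q B1 B2 hw hQ hb1 hb2
    simp only [union_empty, card_empty, add_zero, pow_zero, mul_one, prod_empty] at hUk hU hb1 hb2 ⊢
    have hB1 : 0 ≤ B1 := Bd_nonneg hb1
    have hB2 : 0 ≤ B2 := Bd_nonneg hb2
    by_cases hev : ∀ p ∈ U, Even (e p)
    · rw [if_pos hev]
      have h1 := hub L hLu hL0 U (fun p hp => ⟨(hU p hp).1, (hU p hp).2.1, (hU p hp).2.2.1⟩) w Q B1 B2
        hw hQ hb1 hb2
      have h2 := EAg_CS φ hF hF0 hX (tw φ e U) (fun d => NM φ (q * ∏ p ∈ U, p) L w Q d)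
      have h3 : EAg φ F (c * Real.exp L) (fun d => tw φ e U d ^ 2) ≤ |D| := by
        refine le_trans ?_ (le_abs_self D)
        refine le_trans ?_ (hL1 L hLL1).le
        refine EAg_mono φ hF hF0 hX (fun d _ => ?_)
        rw [← sq_abs]
        exact pow_le_one₀ (abs_nonneg _) (tw_abs φ e U d)
      have h4 : (EAg φ F (c * Real.exp L) (fun d => tw φ e U d * NM φ (q * ∏ p ∈ U, p) L w Q d)) ^ 2 ≤
          (Cb * (B1 * B2)) ^ 2 := by
        refine h2.trans ?_
        rw [mul_pow, hCb, Real.sq_sqrt (by positivity)]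
        have h5 : (Cu * Ku ^ U.card) * B1 ^ 2 * B2 ^ 2 ≤ (Cu * Ku ^ k) * B1 ^ 2 * B2 ^ 2 := by
          have : Ku ^ U.card ≤ Ku ^ k := pow_le_pow_right₀ hKu hUk
          gcongr
        calc _ ≤ |D| * ((Cu * Ku ^ k) * B1 ^ 2 * B2 ^ 2) :=
              mul_le_mul h3 (h1.trans h5) (EAg_nonneg φ hF0 hX fun d _ => sq_nonneg _) (abs_nonneg _)
          _ = _ := by ring
      have h6 := abs_le_of_sq_le_sq h4 (by positivity)
      refine h6.trans ?_
      have h7 : 0 < Real.exp (-(η * L)) := Real.exp_pos _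
      have h8 : 0 ≤ B1 * B2 := by positivity
      have h9 : 0 ≤ Ce * (B1 * B2) := by positivity
      have h10 : 0 ≤ (Cb + Ce) * (B1 * B2) * Real.exp (-(η * L)) := by positivity
      nlinarith
    · rw [if_neg hev, zero_add]
      simp only [tw_js φ e U (fun p hp => (hU p hp).1)]
      have hbd1 : ∀ y, |w y| ≤ B1 := fun y => by simpa using hb1 0 (Nat.zero_le _) y
      have hbd2 : ∀ y, |Q y| ≤ B2 := fun y => by simpa using hb2 0 (Nat.zero_le _) y
      have hpr : ∀ p ∈ U, p.Prime := fun p hp => (hU p hp).1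
      have h1 := he0 L hLe (q * ∏ p ∈ U, p) (hq.mul_right _) (hmq.mul_right _)
        (∏ p ∈ U, p ^ rx (e p)) (by
          apply Finset.prod_induction _ Odd (fun a b ha hb => ha.mul hb) odd_one
          intro p hp
          exact (hU p hp).2.1.pow) (by
          apply Nat.Coprime.prod_left
          intro p hp
          exact ((Nat.Coprime.coprime_dvd_right hmq (hU p hp).2.2.1)).pow_left _) (by
          push_cast
          calc ∏ p ∈ U, (p : ℝ) ^ rx (e p) ≤ ∏ p ∈ U, Real.exp (L / Real.log L) ^ 2 := by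
                apply Finset.prod_le_prod
                · intro p _
                  positivity
                · intro p hp
                  have h2 : (1 : ℝ) ≤ p := by exact_mod_cast (hU p hp).1.one_lt.le
                  have h3 : rx (e p) ≤ 2 := by unfold rx; split_ifs <;> omega
                  calc (p : ℝ) ^ rx (e p) ≤ (p : ℝ) ^ 2 := pow_le_pow_right₀ h2 h3
                    _ ≤ _ := pow_le_pow_left₀ (by linarith) (hU p hp).2.2.2 2
            _ = Real.exp (U.card * (2 * (L / Real.log L))) := by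
                rw [prod_const, ← pow_mul, ← Real.exp_nat_mul]
                congr 1
                push_cast
                ring
            _ ≤ _ := by
                apply Real.exp_le_exp.2
                push_cast
                have h4 : (U.card : ℝ) ≤ k := by exact_mod_cast hUk
                have h5 : 0 ≤ L / Real.log L := by positivity
                nlinarith) (by
          intro a b ha hb
          exact not_sq e U hpr hev a b (Nat.Coprime.coprime_mul_left_right ha)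
            (Nat.Coprime.coprime_mul_left_right hb)) w Q B1 B2 hw hQ hbd1 hbd2
      refine h1.trans ?_
      have h2 : 0 ≤ Cb * B1 * B2 * Real.exp (-(η * L)) := by positivity
      nlinarith
  | insert p V hp ih =>
    intro U hdis hUk hU e w Q B1 B2 hw hQ hb1 hb2
    obtain ⟨hpp, hpo, hpq, hpz⟩ := hU p (mem_union_right _ (mem_insert_self p V))
    rw [card_insert_of_notMem hp] at hb1 hb2 ⊢
    have hB1 : 0 ≤ B1 := Bd_nonneg hb1
    have hB2 : 0 ≤ B2 := Bd_nonneg hb2
    have hpU : p ∉ U := fun h => (Finset.disjoint_left.1 hdis h) (mem_insert_self p V)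
    have hUV : Disjoint (insert p U) V := by
      rw [disjoint_insert_left]
      exact ⟨hp, disjoint_of_subset_right (subset_insert p V) hdis⟩
    have hset : U ∪ insert p V = insert p U ∪ V := by
      rw [union_insert, insert_union]
    have hmodu : ∀ r ∈ U, r.Prime := fun r hr => (hU r (mem_union_left _ hr)).1
    have hcop : Nat.Coprime p (q * ∏ r ∈ U, r) := by
      apply Nat.Coprime.mul_right hpq
      apply Nat.Coprime.prod_right
      intro r hr
      rw [Nat.coprime_primes hpp (hmodu r hr)]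
      rintro rfl
      exact hpU hr
    obtain ⟨hb0, hb1', hbe⟩ := hbt p hpp hpo hpz
    set h : ℝ := Real.log p / L with hh
    have hp1 : (1 : ℝ) < p := by exact_mod_cast hpp.one_lt
    have hh0 : 0 < h := div_pos (Real.log_pos hp1) hL0
    have hsp : 0 < Real.sqrt p := Real.sqrt_pos.2 (by linarith)
    set ρ : ℝ := 1 / Real.sqrt p with hρ
    have hρ0 : 0 ≤ ρ := by positivity
    have hp3 : (3 : ℝ) ≤ p := by
      have : 3 ≤ p := by
        rcases hpp.two_le.lt_or_eq with h | h
        · omega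
        · rw [← h] at hpo
          exact absurd hpo (by decide)
      exact_mod_cast this
    have hρ1 : ρ ≤ 2 / 3 := by
      rw [hρ, div_le_div_iff₀ hsp (by norm_num)]
      have : 3 / 2 ≤ Real.sqrt p := Real.le_sqrt_of_sq_le (by linarith)
      linarith
    have hcardV : V.card + 1 ≤ k := by
      have h1 : (insert p V).card ≤ (U ∪ insert p V).card := card_le_card subset_union_right
      rw [card_insert_of_notMem hp] at h1
      omega
    obtain ⟨J, hJ⟩ := rec_id φ (hq.mul_right (∏ r ∈ U, r)) hpp hpo hcop hs0 hθs hψ1 hL0 hw hQ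
    rw [← hh] at hJ
    have hmod : q * ∏ r ∈ insert p U, r = q * (∏ r ∈ U, r) * p := by
      rw [prod_insert hpU]
      ring
    set W := insert p U ∪ V with hW
    have hpW : p ∈ W := mem_union_left _ (mem_insert_self p U)
    rw [hset] at hUk hU ⊢
    -- the inductive hypothesis
    set σ : ℝ := if ∀ r ∈ U, Even (e r) then 1 else 0 with hσ
    set PV : ℝ := ∏ r ∈ V, if Even (e r) then 1 else bt L r with hPV
    have hPV0 : 0 ≤ PV := by
      apply prod_nonneg
      intro r hr
      split_ifs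
      · norm_num
      · exact (hbt r (hU r (mem_union_right _ hr)).1 (hU r (mem_union_right _ hr)).2.1
          (hU r (mem_union_right _ hr)).2.2.2).1
    have hσ0 : 0 ≤ σ := by rw [hσ]; split_ifs <;> norm_num
    set ε : ℝ := Real.exp (-(η * L)) with hε
    have hε0 : 0 < ε := Real.exp_pos _
    set CV : ℝ := (Cb + Ce) * κ ^ V.card with hCV
    have hκ1' : 1 ≤ κ := by linarith
    have hCV0 : 0 < CV := by positivity
    have hSS : 0 ≤ σ * PV + ε := by positivity
    have hupd : ∀ j : ℕ, ∀ r, r ≠ p → Function.update e p j r = e r :=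
      fun j r hr => Function.update_of_ne hr _ _
    have ihi : ∀ (j : ℕ) (w' Q' : ℝ → ℝ) (B1' B2' : ℝ), Wt s w' → Wt θ Q' → Bd (K + V.card) w' B1' →
        Bd (K + V.card) Q' B2' →
        |EAg φ F (c * Real.exp L) (fun d => tw φ (Function.update e p (e p + j)) W d *
          NM φ (q * (∏ r ∈ U, r) * p) L w' Q' d)| ≤ CV * B1' * B2' * (σ * PV + ε) := by
      intro j w' Q' B1' B2' a1 a2 a3 a4
      have h1 := ih (insert p U) hUV hUk hU (Function.update e p (e p + j)) w' Q' B1' B2' a1 a2 a3 a4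
      rw [hmod] at h1
      refine h1.trans ?_
      have hB1' : 0 ≤ B1' := Bd_nonneg a3
      have hB2' : 0 ≤ B2' := Bd_nonneg a4
      apply mul_le_mul_of_nonneg_left _ (by positivity)
      have e1 : (∏ r ∈ V, if Even (Function.update e p (e p + j) r) then (1 : ℝ) else bt L r) = PV := by
        refine prod_congr rfl fun r hr => ?_
        rw [hupd _ r (fun h => hp (h ▸ hr))]
      rw [e1]
      have e2 : (if ∀ r ∈ insert p U, Even (Function.update e p (e p + j) r) then (1 : ℝ) else 0) ≤ σ := by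
        rw [hσ]
        by_cases h3 : ∀ r ∈ insert p U, Even (Function.update e p (e p + j) r)
        · rw [if_pos h3, if_pos]
          intro r hr
          have := h3 r (mem_insert_of_mem hr)
          rwa [hupd _ r (fun h => hpU (h ▸ hr))] at this
        · rw [if_neg h3]
          split_ifs <;> norm_num
      have := mul_le_mul_of_nonneg_right e2 hPV0
      linarith
    -- the bounds of the weights
    have hcB : ∀ (B t : ℝ) (v : ℝ → ℝ), 0 ≤ B → ContDiff ℝ ((⊤ : ℕ∞) : WithTop ℕ∞) v →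
        Bd (K + (V.card + 1)) v B → Bd (K + V.card) (cw ψ v t) (κ1 * B) := by
      intro B t v hB hv hvB j hj y
      have hvB' : Bd (K + V.card) v B := Bd_mono hvB (by omega)
      have hψB' : Bd (K + V.card) ψ Bψ := Bd_mono hBψ (by omega)
      refine (cw_bd hψ hψs hv hB hvB' hψB' t j hj y).trans ?_
      have h1 : (2 : ℝ) ^ (K + V.card) ≤ 2 ^ (K + k) := pow_le_pow_right₀ (by norm_num) (by omega)
      calc (2 : ℝ) ^ (K + V.card) * B * Bψ ≤ 2 ^ (K + k) * B * Bψ := by gcongr
        _ ≤ κ1 * B := by rw [hκ1]; nlinarith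
    have hdB : ∀ (B t : ℝ) (v : ℝ → ℝ), 0 ≤ B → ContDiff ℝ ((⊤ : ℕ∞) : WithTop ℕ∞) v →
        Bd (K + (V.card + 1)) v B → Bd (K + V.card) (dw ψ v t h) (κ1 * B * h) := by
      intro B t v hB hv hvB j hj y
      have hψB' : Bd (K + V.card) ψ Bψ := Bd_mono hBψ (by omega)
      refine (dw_bd hψ hψs hv hB hvB hψB' t hh0.le j hj y).trans ?_
      have h1 : (2 : ℝ) ^ (K + V.card) ≤ 2 ^ (K + k) := pow_le_pow_right₀ (by norm_num) (by omega)
      calc (2 : ℝ) ^ (K + V.card) * (B * h) * Bψ ≤ 2 ^ (K + k) * (B * h) * Bψ := by gcongr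
        _ ≤ κ1 * B * h := by
            rw [hκ1]
            have : 0 ≤ B * h := by positivity
            nlinarith
    -- the expansion
    have hexp : EAg φ F (c * Real.exp L) (fun d => tw φ e W d * NM φ (q * ∏ r ∈ U, r) L w Q d) =
        EAg φ F (c * Real.exp L) (fun d => tw φ e W d * NM φ (q * (∏ r ∈ U, r) * p) L w Q d) +
        ∑ i ∈ range J, ρ ^ (i + 1) * (EAg φ F (c * Real.exp L) (fun d =>
            tw φ (Function.update e p (e p + (i + 1))) W d *
              NM φ (q * (∏ r ∈ U, r) * p) L (dw ψ w (i * h) h) Q d) -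
          EAg φ F (c * Real.exp L) (fun d =>
            tw φ (Function.update e p (e p + (i + 1))) W d *
              NM φ (q * (∏ r ∈ U, r) * p) L (cw ψ w (i * h)) (dw ψ Q 0 h) d)) := by
      have e1 : ∀ d, tw φ e W d * NM φ (q * ∏ r ∈ U, r) L w Q d =
          tw φ e W d * NM φ (q * (∏ r ∈ U, r) * p) L w Q d +
          ∑ i ∈ range J, ρ ^ (i + 1) * (tw φ (Function.update e p (e p + (i + 1))) W d *
              NM φ (q * (∏ r ∈ U, r) * p) L (dw ψ w (i * h) h) Q d -
            tw φ (Function.update e p (e p + (i + 1))) W d *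
              NM φ (q * (∏ r ∈ U, r) * p) L (cw ψ w (i * h)) (dw ψ Q 0 h) d) := by
        intro d
        rw [hJ d, mul_add, mul_sum]
        congr 1
        refine sum_congr rfl fun i _ => ?_
        rw [← tw_update φ e W d p (i + 1) hpW, div_pow, hρ, div_pow, one_pow]
        ring
      simp only [e1]
      rw [EAg_add φ hF hX, EAg_sum φ hF hX]
      congr 1
      refine sum_congr rfl fun i _ => ?_
      rw [EAg_cmul, EAg_sub φ hF hX]
    rw [hexp]
    -- the terms of the sum
    have hterm : ∀ i ∈ range J, |ρ ^ (i + 1) * (EAg φ F (c * Real.exp L) (fun d =>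
            tw φ (Function.update e p (e p + (i + 1))) W d *
              NM φ (q * (∏ r ∈ U, r) * p) L (dw ψ w (i * h) h) Q d) -
          EAg φ F (c * Real.exp L) (fun d =>
            tw φ (Function.update e p (e p + (i + 1))) W d *
              NM φ (q * (∏ r ∈ U, r) * p) L (cw ψ w (i * h)) (dw ψ Q 0 h) d))| ≤
        ρ ^ (i + 1) * (2 * (CV * B1 * B2 * κ1 ^ 2 * h * (σ * PV + ε))) := by
      intro i _
      have hi0 : 0 ≤ (i : ℝ) * h := by positivity
      rw [abs_mul, abs_of_nonneg (by positivity)]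
      apply mul_le_mul_of_nonneg_left _ (by positivity)
      have t1 := ihi (i + 1) (dw ψ w (i * h) h) Q (κ1 * B1 * h) B2 (dw_wt hψ hψs hw hi0 hh0.le) hQ
        (hdB B1 _ w hB1 hw.smooth hb1) (Bd_mono hb2 (by omega))
      have t2 := ihi (i + 1) (cw ψ w (i * h)) (dw ψ Q 0 h) (κ1 * B1) (κ1 * B2 * h)
        (cw_wt hψ hψs hw hi0) (dw_wt hψ hψs hQ le_rfl hh0.le)
        (hcB B1 _ w hB1 hw.smooth hb1) (hdB B2 _ Q hB2 hQ.smooth hb2)
      refine (abs_sub _ _).trans ?_
      have t3 : CV * (κ1 * B1 * h) * B2 * (σ * PV + ε) ≤ CV * B1 * B2 * κ1 ^ 2 * h * (σ * PV + ε) := by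
        have : CV * (κ1 * B1 * h) * B2 * (σ * PV + ε) = (CV * B1 * B2 * h * (σ * PV + ε)) * κ1 := by ring
        rw [this]
        have e2 : CV * B1 * B2 * κ1 ^ 2 * h * (σ * PV + ε) =
            (CV * B1 * B2 * h * (σ * PV + ε)) * κ1 ^ 2 := by ring
        rw [e2]
        apply mul_le_mul_of_nonneg_left _ (by positivity)
        nlinarith
      have t4 : CV * (κ1 * B1) * (κ1 * B2 * h) * (σ * PV + ε) =
          CV * B1 * B2 * κ1 ^ 2 * h * (σ * PV + ε) := by ring
      rw [t4] at t2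
      linarith
    have hsum : |∑ i ∈ range J, ρ ^ (i + 1) * (EAg φ F (c * Real.exp L) (fun d =>
            tw φ (Function.update e p (e p + (i + 1))) W d *
              NM φ (q * (∏ r ∈ U, r) * p) L (dw ψ w (i * h) h) Q d) -
          EAg φ F (c * Real.exp L) (fun d =>
            tw φ (Function.update e p (e p + (i + 1))) W d *
              NM φ (q * (∏ r ∈ U, r) * p) L (cw ψ w (i * h)) (dw ψ Q 0 h) d))| ≤
        CV * B1 * B2 * (6 * κ1 ^ 2 * bt L p) * (σ * PV + ε) := by
      refine (abs_sum_le_sum_abs _ _).trans ((sum_le_sum hterm).trans ?_)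
      rw [← sum_mul]
      have hg : ∑ i ∈ range J, ρ ^ (i + 1) ≤ 3 * ρ := by
        simp only [pow_succ]
        rw [← sum_mul]
        apply mul_le_mul_of_nonneg_right _ hρ0
        refine (geo_le ρ hρ0 (by linarith) J).trans ?_
        rw [div_le_iff₀ (by linarith)]
        linarith
      calc _ ≤ (3 * ρ) * (2 * (CV * B1 * B2 * κ1 ^ 2 * h * (σ * PV + ε))) :=
            mul_le_mul_of_nonneg_right hg (by positivity)
        _ = _ := by rw [hbe]; ring
    have hprod : (∏ r ∈ insert p V, if Even (e r) then (1 : ℝ) else bt L r) =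
        (if Even (e p) then 1 else bt L p) * PV := by
      rw [prod_insert hp]
    rw [hprod]
    have hfin : (Cb + Ce) * κ ^ (V.card + 1) = CV * κ := by
      rw [hCV, pow_succ]
      ring
    rw [hfin]
    have hfirst := ih (insert p U) hUV hUk hU e w Q B1 B2 hw hQ (Bd_mono hb1 (by omega))
      (Bd_mono hb2 (by omega))
    rw [hmod] at hfirst
    have hBB : 0 ≤ CV * B1 * B2 := by positivity
    refine (abs_add_le _ _).trans ?_
    by_cases hep : Even (e p)
    · have e3 : (if ∀ r ∈ insert p U, Even (e r) then (1 : ℝ) else 0) = σ := by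
        rw [hσ]
        by_cases h3 : ∀ r ∈ U, Even (e r)
        · rw [if_pos h3, if_pos]
          intro r hr
          rw [mem_insert] at hr
          rcases hr with rfl | hr
          · exact hep
          · exact h3 r hr
        · rw [if_neg h3, if_neg (fun h4 => h3 fun r hr => h4 r (mem_insert_of_mem hr))]
      rw [e3] at hfirst
      rw [if_pos hep, one_mul]
      calc _ ≤ CV * B1 * B2 * (σ * PV + ε) + CV * B1 * B2 * (6 * κ1 ^ 2 * bt L p) * (σ * PV + ε) :=
            add_le_add hfirst hsum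
        _ = CV * B1 * B2 * (σ * PV + ε) * (1 + 6 * κ1 ^ 2 * bt L p) := by ring
        _ ≤ CV * B1 * B2 * (σ * PV + ε) * κ := by
            apply mul_le_mul_of_nonneg_left _ (by positivity)
            rw [hκ]
            nlinarith
        _ = _ := by ring
    · have e3 : (if ∀ r ∈ insert p U, Even (e r) then (1 : ℝ) else 0) = 0 :=
        if_neg (fun h4 => hep (h4 p (mem_insert_self p U)))
      rw [e3, zero_mul, zero_add] at hfirst
      rw [if_neg hep]
      calc _ ≤ CV * B1 * B2 * ε + CV * B1 * B2 * (6 * κ1 ^ 2 * bt L p) * (σ * PV + ε) :=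
            add_le_add hfirst hsum
        _ = CV * B1 * B2 * (ε + 6 * κ1 ^ 2 * bt L p * ε + 6 * κ1 ^ 2 * (σ * (bt L p * PV))) := by ring
        _ ≤ CV * B1 * B2 * (κ * ε + κ * (σ * (bt L p * PV))) := by
            apply mul_le_mul_of_nonneg_left _ hBB
            have h5 : 0 ≤ σ * (bt L p * PV) := by positivity
            have h6 : 6 * κ1 ^ 2 * bt L p * ε ≤ 6 * κ1 ^ 2 * 1 * ε := by gcongr
            rw [hκ]
            nlinarith
        _ = _ := by ring

end

end Pool.Agent.V8H36.IN
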