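import Pool.Agent.V8H36.IN.Tm2
import Pool.Agent.V8H36.IN.Rb
import Pool.Agent.R318.QL.Cl3
import Pool.Agent.W161.LF.Base

set_option autoImplicit false
set_option linter.all false
set_option maxHeartbeats 4000000

/-!
Central values in intervals, part 3: moments of the sum over primes weighted by the mollified value.
-/

namespace Pool.Agent.V8H36.IN

open Finset Filter Topology MeasureTheory Pool.Agent.H306R2.RZ Pool.Agent.H306R2.RG
open Pool.Agent.W161.LF
open Pool.Agent.R318.QL.CL (RM EvC prod_fiber pow_expand rm_eq rm_bd rm_even_bd sL sL_mem aL aL_bd YY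
  wL zL zL_facts mass mass_lim evc_of_sq)

noncomputable section

open Classical in
/-- the multiples of `p` are rare -/
theorem EAg_dvd (φ : FD) {F : ℝ → ℝ} (hF : TF F) (hF0 : ∀ x, 0 ≤ F x) :
    ∃ C : ℝ, 0 ≤ C ∧ ∀ X : ℝ, 0 < X → ∀ p : ℕ, 0 < p →
      EAg φ F X (fun d => if p ∣ d then 1 else 0) ≤ C / p := by
  obtain ⟨R, hR⟩ := hF.cpt.isCompact.isBounded.subset_closedBall (0 : ℝ)
  obtain ⟨B, hB⟩ := hF.cpt.exists_bound_of_continuous hF.smooth.continuous
  have hB0 : 0 ≤ B := (norm_nonneg _).trans (hB 0)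
  refine ⟨B * |R|, by positivity, fun X hX p hp => ?_⟩
  have hpR : (0 : ℝ) < p := by exact_mod_cast hp
  have hsupp : ∀ d : ℕ, F ((d : ℝ) / X) ≠ 0 → 0 < d ∧ d ≤ ⌊|R| * X⌋₊ := by
    intro d hd
    have hm : (d : ℝ) / X ∈ tsupport F := subset_tsupport F (Function.mem_support.mpr hd)
    have h3 := hR hm
    have h4 : 0 < (d : ℝ) / X := hF.pos hm
    rw [Metric.mem_closedBall, dist_zero_right, Real.norm_eq_abs] at h3
    have h5 : (d : ℝ) / X ≤ |R| := (le_abs_self _).trans (h3.trans (le_abs_self R))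
    rw [div_le_iff₀ hX] at h5
    refine ⟨?_, Nat.le_floor h5⟩
    rcases Nat.eq_zero_or_pos d with h0 | h0
    · rw [h0] at h4
      simp at h4
    · exact h0
  unfold EAg
  rw [tsum_eq_sum (s := (Ioc 0 ⌊|R| * X⌋₊).filter (fun d => p ∣ d))]
  · rw [div_le_iff₀ hX]
    have h1 : ∀ d ∈ (Ioc 0 ⌊|R| * X⌋₊).filter (fun d => p ∣ d),
        (if φ.A d then F ((d : ℝ) / X) * (if p ∣ d then 1 else 0) else 0) ≤ B := by
      intro d hd
      rw [mem_filter] at hd
      rw [if_pos hd.2, mul_one]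
      split_ifs
      · exact (le_abs_self _).trans (hB _)
      · exact hB0
    refine (sum_le_sum h1).trans ?_
    rw [sum_const, Nat.Ioc_filter_dvd_card_eq_div, nsmul_eq_mul]
    calc ((⌊|R| * X⌋₊ / p : ℕ) : ℝ) * B ≤ ((⌊|R| * X⌋₊ : ℝ) / p) * B :=
          mul_le_mul_of_nonneg_right Nat.cast_div_le hB0
      _ ≤ (|R| * X / p) * B := by
          apply mul_le_mul_of_nonneg_right _ hB0
          apply div_le_div_of_nonneg_right _ hpR.le
          exact Nat.floor_le (by positivity)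
      _ = _ := by ring
  · intro d hd
    rw [mem_filter, not_and_or] at hd
    by_cases h1 : F ((d : ℝ) / X) = 0
    · rw [h1, zero_mul, ite_self]
    · rcases hd with h2 | h2
      · exact absurd (mem_Ioc.2 (hsupp d h1)) h2
      · simp only [if_neg h2, mul_zero, ite_self]

open Classical in
/-- comparison of moments, abstract form -/
theorem mom_gen (φ : FD) {F : ℝ → ℝ} (hF : TF F) {X : ℝ} (hX : 0 < X) (s : Finset ℕ)
    (a β : ℕ → ℝ) (ha : ∀ p ∈ s, 0 ≤ a p ∧ a p ≤ 1) (hβ : ∀ p ∈ s, 0 ≤ β p ∧ β p ≤ 1) (V : ℝ)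
    (hV : ∑ p ∈ s, a p ^ 2 ≤ V) (k : ℕ) (H : ℕ → ℝ) (η1 C1 η2 : ℝ) (hη1 : 0 ≤ η1) (hC1 : 0 ≤ C1)
    (hη2 : 0 ≤ η2)
    (h1 : ∀ f : Fin k → ℕ, (∀ i, f i ∈ s) → EvC s f →
      |EAg φ F X (fun d => (∏ i, jo φ d (f i)) * H d) - EAg φ F X H| ≤ η1)
    (h2 : ∀ f : Fin k → ℕ, (∀ i, f i ∈ s) → ¬ EvC s f →
      |EAg φ F X (fun d => (∏ i, jo φ d (f i)) * H d)| ≤
        C1 * (∏ p ∈ s, if Even (univ.filter (fun i => f i = p)).card then 1 else β p) + η2) :
    |EAg φ F X (fun d => (∑ p ∈ s, a p * jo φ d p) ^ k * H d) - RM s a k * EAg φ F X H| ≤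
      η1 * RM s a k + C1 * (k.factorial * Real.exp (V / 2) * (Real.exp (2 * ∑ p ∈ s, a p * β p) - 1)) +
        η2 * (∑ p ∈ s, a p) ^ k := by
  set PP := Fintype.piFinset (fun _ : Fin k => s) with hPP
  have e1 : EAg φ F X (fun d => (∑ p ∈ s, a p * jo φ d p) ^ k * H d) =
      ∑ f ∈ PP, (∏ i, a (f i)) * EAg φ F X (fun d => (∏ i, jo φ d (f i)) * H d) := by
    have e2 : ∀ d, (∑ p ∈ s, a p * jo φ d p) ^ k * H d =
        ∑ f ∈ PP, (∏ i, a (f i)) * ((∏ i, jo φ d (f i)) * H d) := by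
      intro d
      rw [pow_expand s a (jo φ d) k, sum_mul]
      refine sum_congr rfl fun f _ => ?_
      ring
    simp only [e2]
    rw [Pool.Agent.W161.LF.EAg_sum φ hF hX]
    refine sum_congr rfl fun f _ => ?_
    rw [EAg_cmul]
  have e3 : (∑ p ∈ s, a p) ^ k = ∑ f ∈ PP, ∏ i, a (f i) := by
    have := pow_expand s a (fun _ => 1) k
    simp only [mul_one, Finset.prod_const_one] at this
    exact this
  have hot := odd_tuples s a β ha hβ V hV k
  rw [← hPP] at hot
  have hot2 : ∑ f ∈ PP, (∏ i, a (f i)) * (if EvC s f then 0 else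
      ∏ p ∈ s, (if Even (univ.filter (fun i => f i = p)).card then 1 else β p)) ≤
      k.factorial * Real.exp (V / 2) * (Real.exp (2 * ∑ p ∈ s, a p * β p) - 1) := by
    refine le_trans (le_of_eq ?_) hot
    rw [sum_filter]
    refine sum_congr rfl fun f _ => ?_
    by_cases h : EvC s f
    · rw [if_pos h, if_neg (not_not.2 h), mul_zero]
    · rw [if_neg h, if_pos h]
  have hot3 := mul_le_mul_of_nonneg_left hot2 hC1
  refine le_trans ?_ (add_le_add_left (add_le_add_right hot3 _) _)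
  rw [e1, rm_eq, e3, sum_mul, ← Finset.sum_sub_distrib, Finset.mul_sum, Finset.mul_sum, mul_sum,
    ← Finset.sum_add_distrib, ← Finset.sum_add_distrib]
  refine (Finset.abs_sum_le_sum_abs _ _).trans (Finset.sum_le_sum fun f hf => ?_)
  have hfs : ∀ i, f i ∈ s := fun i => Fintype.mem_piFinset.1 hf i
  have hp : 0 ≤ ∏ i, a (f i) := Finset.prod_nonneg fun i _ => (ha _ (hfs i)).1
  by_cases h : EvC s f
  · have := h1 f hfs h
    rw [if_pos h, if_pos h, mul_one, mul_zero, mul_zero, add_zero, ← mul_sub, abs_mul, abs_of_nonneg hp]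
    have h4 : 0 ≤ η2 * ∏ i, a (f i) := mul_nonneg hη2 hp
    have h5 := mul_le_mul_of_nonneg_left this hp
    linarith
  · have := h2 f hfs h
    rw [if_neg h, if_neg h, mul_zero, zero_mul, sub_zero, mul_zero, zero_add, abs_mul, abs_of_nonneg hp]
    have h5 := mul_le_mul_of_nonneg_left this hp
    linarith

/-- even tuples act trivially off the multiples of their primes -/
theorem even_tuple (φ : FD) {F : ℝ → ℝ} (hF : TF F) (hF0 : ∀ x, 0 ≤ F x) {X : ℝ} (hX : 0 < X)
    (hjo : ∀ d p : ℕ, φ.A d → p.Prime → p ≠ 2 → ¬ p ∣ d → jo φ d p ^ 2 = 1)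
    {Cd : ℝ} (hCd0 : 0 ≤ Cd) (hCd : ∀ p : ℕ, 0 < p → EAg φ F X (fun d => if p ∣ d then 1 else 0) ≤ Cd / p)
    (s : Finset ℕ) (w : ℕ) (hw : 0 < w) (hs : ∀ p ∈ s, p.Prime ∧ p ≠ 2 ∧ w ≤ p) (H : ℕ → ℝ) (M : ℝ)
    (hM : EAg φ F X (fun d => H d ^ 2) ≤ M) {k : ℕ} (f : Fin k → ℕ) (hf : ∀ i, f i ∈ s)
    (hev : EvC s f) :
    |EAg φ F X (fun d => (∏ i, jo φ d (f i)) * H d) - EAg φ F X H| ≤ Real.sqrt (k * (Cd / w) * M) := by
  classical
  have hw0 : (0 : ℝ) < w := by exact_mod_cast hw
  rw [← EAg_sub φ hF hX]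
  have e1 : (fun d => (∏ i, jo φ d (f i)) * H d - H d) = fun d => (∏ i, jo φ d (f i) - 1) * H d := by
    funext d
    ring
  rw [e1]
  apply Real.abs_le_sqrt
  refine (EAg_CS φ hF hF0 hX _ _).trans ?_
  have hM0 : 0 ≤ M := le_trans (EAg_nonneg φ hF0 hX fun d _ => sq_nonneg _) hM
  have hpt : ∀ d, φ.A d → (∏ i, jo φ d (f i) - 1) ^ 2 ≤ ∑ i, (if f i ∣ d then (1 : ℝ) else 0) := by
    intro d hdA
    by_cases hall : ∀ i, ¬ f i ∣ d
    · have h1 : ∏ i, jo φ d (f i) = 1 := by
        rw [prod_fiber s f hf (jo φ d)]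
        apply Finset.prod_eq_one
        intro p hp
        obtain ⟨m, hm⟩ := hev p hp
        rcases Nat.eq_zero_or_pos m with h0 | h0
        · rw [hm, h0]
          simp
        · have hne : (Finset.univ.filter (fun i => f i = p)).Nonempty := by
            rw [← Finset.card_pos]
            omega
          obtain ⟨i, hi⟩ := hne
          rw [Finset.mem_filter] at hi
          have h2 : ¬ p ∣ d := by
            rw [← hi.2]
            exact hall i
          have h3 := hjo d p hdA (hs p hp).1 (hs p hp).2.1 h2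
          rw [hm, ← two_mul, pow_mul, h3, one_pow]
      rw [h1, sub_self, zero_pow two_ne_zero]
      exact Finset.sum_nonneg fun i _ => by split_ifs <;> norm_num
    · push Not at hall
      obtain ⟨i, hi⟩ := hall
      have h1 : (1 : ℝ) ≤ ∑ i, (if f i ∣ d then (1 : ℝ) else 0) := by
        have := Finset.single_le_sum (f := fun i => (if f i ∣ d then (1 : ℝ) else 0))
          (fun i _ => by split_ifs <;> norm_num) (Finset.mem_univ i)
        simp only [if_pos hi] at this
        exact this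
      refine le_trans ?_ h1
      have h2 : 0 ≤ ∏ i, jo φ d (f i) := by
        rw [prod_fiber s f hf (jo φ d)]
        exact Finset.prod_nonneg fun p hp => (hev p hp).pow_nonneg _
      have h3 : ∏ i, jo φ d (f i) ≤ 1 := by
        refine (le_abs_self _).trans ?_
        rw [Finset.abs_prod]
        refine Finset.prod_le_one (fun i _ => abs_nonneg _) (fun i _ => ?_)
        unfold jo
        split_ifs
        · exact abs_js_le _ _
        · simp
      nlinarith
  have h4 : EAg φ F X (fun d => (∏ i, jo φ d (f i) - 1) ^ 2) ≤ k * (Cd / w) := by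
    refine (EAg_mono φ hF hF0 hX hpt).trans ?_
    rw [Pool.Agent.W161.LF.EAg_sum φ hF hX]
    have h5 : ∀ i ∈ (Finset.univ : Finset (Fin k)),
        EAg φ F X (fun d => if f i ∣ d then (1 : ℝ) else 0) ≤ Cd / w := by
      intro i _
      have h6 := hs _ (hf i)
      refine (hCd (f i) h6.1.pos).trans ?_
      apply div_le_div_of_nonneg_left hCd0 hw0
      exact_mod_cast h6.2.2
    refine (Finset.sum_le_sum h5).trans (le_of_eq ?_)
    rw [Finset.sum_const, Finset.card_univ, Fintype.card_fin, nsmul_eq_mul]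
  exact mul_le_mul h4 hM (EAg_nonneg φ hF0 hX fun d _ => sq_nonneg _) (by positivity)

/-- the twist of a tuple -/
theorem tuple_tw (φ : FD) {k : ℕ} (f : Fin k → ℕ) (hf : ∀ i, Odd (f i)) (d : ℕ) :
    ∏ i, jo φ d (f i) = tw φ (fun p => (univ.filter (fun i => f i = p)).card) (univ.image f) d := by
  classical
  rw [prod_fiber (univ.image f) f (fun i => mem_image_of_mem f (mem_univ i)) (jo φ d)]
  unfold tw
  refine prod_congr rfl fun p hp => ?_
  obtain ⟨i, _, rfl⟩ := mem_image.1 hp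
  unfold jo
  rw [if_pos (hf i)]

/-- the products over the odd multiplicities agree -/
theorem tuple_bt (s : Finset ℕ) {k : ℕ} (f : Fin k → ℕ) (hf : ∀ i, f i ∈ s) (β : ℕ → ℝ) :
    ∏ p ∈ univ.image f, (if Even (univ.filter (fun i => f i = p)).card then 1 else β p) =
      ∏ p ∈ s, (if Even (univ.filter (fun i => f i = p)).card then 1 else β p) := by
  classical
  apply prod_subset
  · intro p hp
    obtain ⟨i, _, rfl⟩ := mem_image.1 hp
    exact hf i
  · intro p _ hp
    have : univ.filter (fun i => f i = p) = ∅ := by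
      rw [filter_eq_empty_iff]
      intro i _ h
      exact hp (h ▸ mem_image_of_mem f (mem_univ i))
    rw [this, card_empty, if_pos Even.zero]

/-- the sum of the weights is small -/
theorem sum_ab : Tendsto (fun L : ℝ => ∑ p ∈ sL L, aL L p * bt L p) atTop (𝓝 0) := by
  obtain ⟨C, hC, h⟩ := mass
  have hsq : Tendsto (fun L : ℝ => 1 / Real.sqrt (Real.log L)) atTop (𝓝 0) :=
    tendsto_const_nhds.div_atTop (Real.tendsto_sqrt_atTop.comp Real.tendsto_log_atTop)
  have hcl : Tendsto (fun L : ℝ => C / Real.log L) atTop (𝓝 0) :=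
    tendsto_const_nhds.div_atTop Real.tendsto_log_atTop
  have hlim : Tendsto (fun L : ℝ => (1 + C / Real.log L) * (1 / Real.sqrt (Real.log L))) atTop (𝓝 0) := by
    have := (hcl.const_add 1).mul hsq
    simpa using this
  refine squeeze_zero' ?_ ?_ hlim
  · filter_upwards [zL_facts] with L hL
    obtain ⟨h3, hlog, -⟩ := hL
    refine sum_nonneg fun p hp => ?_
    have hp1 : (1 : ℝ) ≤ p := by exact_mod_cast (sL_mem hp).1.one_lt.le
    have := Real.log_nonneg hp1
    unfold aL bt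
    positivity
  · filter_upwards [zL_facts, h] with L hL h
    obtain ⟨h3, hlog, hz3, hz, hlz1, hlz2⟩ := hL
    have hL0 : 0 < L := by linarith
    have hs0 : 0 < Real.sqrt (Real.log L) := Real.sqrt_pos.2 (by linarith)
    have h1 : ∀ p ∈ sL L, aL L p * bt L p ≤
        (1 / Real.sqrt (Real.log L) * (1 / Real.log L)) * (1 / (p : ℝ)) := by
      intro p hp
      obtain ⟨q1, q2, q3, q4⟩ := sL_mem hp
      have hp0 : (0 : ℝ) < p := by exact_mod_cast q1.pos
      have hsp : 0 < Real.sqrt p := Real.sqrt_pos.2 hp0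
      have hlp : Real.log p ≤ L / Real.log L := by
        refine (Real.log_le_log hp0 ?_).trans hlz2
        exact_mod_cast q4
      have e1 : aL L p * bt L p = 1 / Real.sqrt (Real.log L) * (Real.log p / L) * (1 / (p : ℝ)) := by
        have e0 : (1 : ℝ) / p = 1 / Real.sqrt p * (1 / Real.sqrt p) := by
          rw [div_mul_div_comm, one_mul, Real.mul_self_sqrt hp0.le]
        rw [e0]
        unfold aL bt
        field_simp
      rw [e1]
      apply mul_le_mul_of_nonneg_right _ (by positivity)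
      apply mul_le_mul_of_nonneg_left _ (by positivity)
      rw [div_le_div_iff₀ hL0 (by linarith), one_mul]
      rw [le_div_iff₀ (by linarith)] at hlp
      exact hlp
    refine (sum_le_sum h1).trans ?_
    rw [← mul_sum]
    have hl0 : 0 < Real.log L := by linarith
    calc (1 / Real.sqrt (Real.log L) * (1 / Real.log L)) * ∑ p ∈ sL L, 1 / (p : ℝ) ≤
        (1 / Real.sqrt (Real.log L) * (1 / Real.log L)) * (Real.log L + C) :=
          mul_le_mul_of_nonneg_left h.2 (by positivity)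
      _ = _ := by field_simp

/-- the sum of the coefficients -/
theorem sum_a_le : ∀ᶠ L : ℝ in atTop, 0 ≤ ∑ p ∈ sL L, aL L p ∧ ∑ p ∈ sL L, aL L p ≤
    Real.exp (L / Real.log L) := by
  filter_upwards [zL_facts, aL_bd] with L h4 h5
  obtain ⟨k3, klog, kz3, kz, klz1, klz2⟩ := h4
  refine ⟨sum_nonneg fun p hp => (h5 p hp).1, ?_⟩
  refine le_trans ?_ kz
  calc ∑ p ∈ sL L, aL L p ≤ ∑ p ∈ sL L, (1 : ℝ) := Finset.sum_le_sum fun p hp => (h5 p hp).2.2
    _ = (sL L).card := by rw [Finset.sum_const]; simp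
    _ ≤ zL L := by
        have : sL L ⊆ Finset.Icc 1 (zL L) := by
          intro p hp
          rw [Finset.mem_Icc]
          exact ⟨(sL_mem hp).1.one_lt.le, (sL_mem hp).2.2.2⟩
        have := Finset.card_le_card this
        rw [Nat.card_Icc] at this
        exact_mod_cast (by omega : (sL L).card ≤ zL L)

theorem wL_top : Tendsto (fun L : ℝ => (wL L : ℝ)) atTop atTop := by
  apply tendsto_natCast_atTop_atTop.comp
  exact (tendsto_add_atTop_nat 1).comp (tendsto_nat_floor_atTop.comp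
    (Real.tendsto_sqrt_atTop.comp (Real.tendsto_sqrt_atTop.comp Real.tendsto_log_atTop)))

/-- for large `L` the primes of the sum are prime to a fixed number -/
theorem sL_cop (q : ℕ) (hq0 : q ≠ 0) : ∀ᶠ L : ℝ in atTop, ∀ p ∈ sL L, p.Prime ∧ Odd p ∧
    Nat.Coprime p q ∧ (p : ℝ) ≤ Real.exp (L / Real.log L) ∧ q < p := by
  filter_upwards [wL_top.eventually_gt_atTop (q : ℝ), zL_facts] with L h1 h2 p hp
  obtain ⟨q1, q2, q3, q4⟩ := sL_mem hp
  have h3 : q < wL L := by exact_mod_cast h1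
  refine ⟨q1, q1.odd_of_ne_two q2, ?_, ?_, by omega⟩
  · rw [q1.coprime_iff_not_dvd]
    intro hd
    have := Nat.le_of_dvd (Nat.pos_of_ne_zero hq0) hd
    omega
  · refine le_trans ?_ h2.2.2.2.1
    exact_mod_cast q4

/-- `exp (k L / log L)` is smaller than any power of `X` -/
theorem exp_small (k : ℕ) (η : ℝ) (hη : 0 < η) :
    ∀ᶠ L : ℝ in atTop, Real.exp (L / Real.log L) ^ k ≤ Real.exp (η * L) := by
  filter_upwards [Real.tendsto_log_atTop.eventually_ge_atTop ((k : ℝ) / η),
    eventually_ge_atTop (Real.exp 1)] with L h1 h2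
  have hL0 : 0 < L := lt_of_lt_of_le (Real.exp_pos 1) h2
  have hlog1 : 1 ≤ Real.log L := by
    rw [← Real.log_exp 1]
    exact Real.log_le_log (Real.exp_pos 1) h2
  rw [← Real.exp_nat_mul]
  apply Real.exp_le_exp.2
  rw [div_le_iff₀ hη] at h1
  rw [mul_div_assoc', div_le_iff₀ (by linarith)]
  nlinarith

/-- **moments weighted by the mollified value** -/
theorem mom_NM (φ : FD) (hφ : FG φ) (hjo : ∀ d p : ℕ, φ.A d → p.Prime → p ≠ 2 → ¬ p ∣ d → jo φ d p ^ 2 = 1)
    (F : ℝ → ℝ) (hF : TF F) (hF0 : ∀ x, 0 ≤ F x) (m0 : ℕ)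
    (hG : GS φ F m0) (q : ℕ) (hq : Even q) (hq0 : q ≠ 0) (hmq : m0 ∣ q) (c : ℝ) (hc : 0 < c)
    (s θ : ℝ) (hA : Adm2 s θ) (w Q : ℝ → ℝ) (hw : Wt s w) (hQ : Wt θ Q) (k : ℕ) :
    Tendsto (fun L : ℝ => EAg φ F (c * Real.exp L) (fun d => YY φ L d ^ k * NM φ q L w Q d) -
      RM (sL L) (aL L) k * EAg φ F (c * Real.exp L) (fun d => NM φ q L w Q d)) atTop (𝓝 0) := by
  classical
  obtain ⟨C, κ, η, L0, K, hC, hκ, hη, htw⟩ := tw_main φ hφ F hF hF0 m0 hG q hq hq0 hmq c hc s θ hA k
  obtain ⟨B1, hB1, hb1⟩ := wt_bd hw (K + k)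
  obtain ⟨B2, hB2, hb2⟩ := wt_bd hQ (K + k)
  obtain ⟨Cd, hCd0, hCd⟩ := EAg_dvd φ hF hF0
  have hlim2 := lim_sq φ hφ hF hq hq0 hc hA hw hQ
  set M : ℝ := φ.δ * Ft F 0 * BB w Q w Q + 1 with hM
  have hMe : ∀ᶠ L : ℝ in atTop, EAg φ F (c * Real.exp L) (fun d => NM φ q L w Q d ^ 2) ≤ M :=
    (hlim2.eventually (gt_mem_nhds (lt_add_one _))).mono fun L h => h.le
  have hV2 : ∀ᶠ L : ℝ in atTop, ∑ p ∈ sL L, aL L p ^ 2 ≤ 2 :=
    (mass_lim.eventually (gt_mem_nhds (show (1 : ℝ) < 2 by norm_num))).mono fun X hX => hX.le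
  set Rk : ℝ := 1 + (2 * k).factorial * (2 * Real.exp (2 / 2)) with hRk
  set C1 : ℝ := C * κ ^ k * B1 * B2 with hC1
  have hC10 : 0 ≤ C1 := by positivity
  -- the bound
  have b1 : Tendsto (fun L : ℝ => Real.sqrt (k * (Cd / wL L) * M) * Rk) atTop (𝓝 0) := by
    have c1 : Tendsto (fun L : ℝ => Cd / (wL L : ℝ)) atTop (𝓝 0) := tendsto_const_nhds.div_atTop wL_top
    have c2 : Tendsto (fun L : ℝ => (k : ℝ) * (Cd / wL L) * M) atTop (𝓝 0) := by
      have := (c1.const_mul (k : ℝ)).mul_const M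
      simpa using this
    have c3 := (Real.continuous_sqrt.tendsto 0).comp c2
    rw [Real.sqrt_zero] at c3
    have := c3.mul_const Rk
    simpa using this
  have b2 : Tendsto (fun L : ℝ => C1 * (k.factorial * Real.exp (2 / 2) *
      (Real.exp (2 * ∑ p ∈ sL L, aL L p * bt L p) - 1))) atTop (𝓝 0) := by
    have c1 : Tendsto (fun L : ℝ => Real.exp (2 * ∑ p ∈ sL L, aL L p * bt L p)) atTop (𝓝 1) := by
      have := (Real.continuous_exp.tendsto _).comp (sum_ab.const_mul 2)
      rw [mul_zero, Real.exp_zero] at this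
      exact this
    have c2 := (c1.sub_const 1).const_mul (k.factorial * Real.exp (2 / 2))
    have c3 := c2.const_mul C1
    simpa using c3
  have b3 : Tendsto (fun L : ℝ => C1 * Real.exp (-(η / 2 * L))) atTop (𝓝 0) := by
    have : Tendsto (fun L : ℝ => Real.exp (-(η / 2 * L))) atTop (𝓝 0) :=
      Real.tendsto_exp_neg_atTop_nhds_zero.comp (tendsto_id.const_mul_atTop (by positivity))
    simpa using this.const_mul C1
  have bb := (b1.add b2).add b3
  simp only [add_zero] at bb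
  refine squeeze_zero_norm' ?_ bb
  filter_upwards [hMe, hV2, zL_facts, aL_bd, sum_a_le, sL_cop q hq0, exp_small k (η / 2) (by positivity),
    eventually_ge_atTop L0, eventually_gt_atTop (0 : ℝ), wL_top.eventually_gt_atTop 0] with
    L g1 g2 g3 g4 g5 g6 g7 g8 g9 g10
  obtain ⟨k3, klog, kz3, kz, klz1, klz2⟩ := g3
  have hX : 0 < c * Real.exp L := by positivity
  rw [Real.norm_eq_abs]
  have hbt : ∀ p ∈ sL L, 0 ≤ bt L p ∧ bt L p ≤ 1 := by
    intro p hp
    obtain ⟨a1, a2, a3, a4, a5⟩ := g6 p hp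
    have hp1 : (1 : ℝ) ≤ p := by exact_mod_cast a1.one_lt.le
    have hs1 : 1 ≤ Real.sqrt p := by
      rw [Real.one_le_sqrt]; exact hp1
    have hl0 : 0 ≤ Real.log p := Real.log_nonneg hp1
    have hl1 : Real.log p ≤ L := by
      have := Real.log_le_log (by linarith) a4
      rw [Real.log_exp] at this
      exact this.trans (div_le_self g9.le klog)
    refine ⟨by unfold bt; positivity, ?_⟩
    unfold bt
    rw [div_le_one (by positivity)]
    nlinarith
  have hgen := mom_gen φ hF hX (sL L) (aL L) (bt L) (fun p hp => ⟨(g4 p hp).1, (g4 p hp).2.2⟩) hbt 2 g2 k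
    (fun d => NM φ q L w Q d) (Real.sqrt (k * (Cd / wL L) * M)) C1 (C1 * Real.exp (-(η * L)))
    (Real.sqrt_nonneg _) hC10 (by positivity)
    (fun f hf hev => even_tuple φ hF hF0 hX hjo hCd0 (hCd _ hX) (sL L) (wL L) (by exact_mod_cast g10)
      (fun p hp => ⟨(sL_mem hp).1, (sL_mem hp).2.1, (sL_mem hp).2.2.1⟩) _ M g1 f hf hev)
    (by
      intro f hf hev
      have hcard : (univ.image f).card ≤ k := by
        have := card_image_le (s := (univ : Finset (Fin k))) (f := f)
        simpa using this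
      have h1 := htw L g8 (univ.image f) ∅ (disjoint_empty_left _) (by rw [empty_union]; exact hcard) (by
        intro p hp
        rw [empty_union] at hp
        obtain ⟨i, _, rfl⟩ := mem_image.1 hp
        obtain ⟨a1, a2, a3, a4, a5⟩ := g6 _ (hf i)
        exact ⟨a1, a2, a3, a4⟩) (fun p => (univ.filter (fun i => f i = p)).card) w Q B1 B2 hw hQ
        (Bd_mono hb1 (by omega)) (Bd_mono hb2 (by omega))
      rw [empty_union, prod_empty, mul_one, tuple_bt (sL L) f hf (bt L)] at h1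
      rw [if_pos (by simp), one_mul] at h1
      have e1 : ∀ d, (∏ i, jo φ d (f i)) * NM φ q L w Q d =
          tw φ (fun p => (univ.filter (fun i => f i = p)).card) (univ.image f) d * NM φ q L w Q d := by
        intro d
        rw [tuple_tw φ f (fun i => (g6 _ (hf i)).2.1) d]
      simp only [e1]
      refine h1.trans ?_
      have h2 : C * κ ^ (univ.image f).card * B1 * B2 ≤ C1 := by
        rw [hC1]
        have : κ ^ (univ.image f).card ≤ κ ^ k := pow_le_pow_right₀ hκ hcard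
        gcongr
      have h3 : 0 ≤ (∏ p ∈ sL L, if Even (univ.filter (fun i => f i = p)).card then (1 : ℝ) else bt L p) +
          Real.exp (-(η * L)) := by
        apply add_nonneg _ (Real.exp_pos _).le
        apply prod_nonneg
        intro p hp
        split_ifs
        · norm_num
        · exact (hbt p hp).1
      refine (mul_le_mul_of_nonneg_right h2 h3).trans (le_of_eq ?_)
      ring)
  have hYY : ∀ d, YY φ L d = ∑ p ∈ sL L, aL L p * jo φ d p := fun d => rfl
  simp only [hYY]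
  refine hgen.trans ?_
  apply add_le_add
  · apply add_le_add
    · apply mul_le_mul_of_nonneg_left _ (Real.sqrt_nonneg _)
      exact (le_abs_self _).trans (rm_bd (sL L) (aL L) k 2 g2)
    · exact le_rfl
  · calc C1 * Real.exp (-(η * L)) * (∑ p ∈ sL L, aL L p) ^ k ≤
        C1 * Real.exp (-(η * L)) * Real.exp (η / 2 * L) := by
          apply mul_le_mul_of_nonneg_left _ (by positivity)
          exact (pow_le_pow_left₀ g5.1 g5.2 k).trans g7
      _ = _ := by
          rw [mul_assoc, ← Real.exp_add]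
          congr 2
          ring

/-- **moments** -/
theorem mom_1 (φ : FD) (hφ : FG φ) (hjo : ∀ d p : ℕ, φ.A d → p.Prime → p ≠ 2 → ¬ p ∣ d → jo φ d p ^ 2 = 1)
    (F : ℝ → ℝ) (hF : TF F) (hF0 : ∀ x, 0 ≤ F x) (m0 : ℕ) (hm0 : m0 ≠ 0)
    (hG : GS φ F m0) (c : ℝ) (hc : 0 < c) (k : ℕ) :
    Tendsto (fun L : ℝ => EAg φ F (c * Real.exp L) (fun d => YY φ L d ^ k) -
      RM (sL L) (aL L) k * EAg φ F (c * Real.exp L) (fun _ => 1)) atTop (𝓝 0) := by
  classical
  obtain ⟨C, C', hC, hC', hE⟩ := hG 2 even_two le_rfl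
  obtain ⟨Cd, hCd0, hCd⟩ := EAg_dvd φ hF hF0
  set M : ℝ := φ.δ * Ft F 0 + 1 with hM
  have hMe : ∀ᶠ L : ℝ in atTop, EAg φ F (c * Real.exp L) (fun d => (1 : ℝ) ^ 2) ≤ M := by
    simp only [one_pow]
    exact ((hφ.ef1 F hF c hc).eventually (gt_mem_nhds (lt_add_one _))).mono fun L h => h.le
  have hV2 : ∀ᶠ L : ℝ in atTop, ∑ p ∈ sL L, aL L p ^ 2 ≤ 2 :=
    (mass_lim.eventually (gt_mem_nhds (show (1 : ℝ) < 2 by norm_num))).mono fun X hX => hX.le
  set Rk : ℝ := 1 + (2 * k).factorial * (2 * Real.exp (2 / 2)) with hRk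
  have b1 : Tendsto (fun L : ℝ => Real.sqrt (k * (Cd / wL L) * M) * Rk) atTop (𝓝 0) := by
    have c1 : Tendsto (fun L : ℝ => Cd / (wL L : ℝ)) atTop (𝓝 0) := tendsto_const_nhds.div_atTop wL_top
    have c2 : Tendsto (fun L : ℝ => (k : ℝ) * (Cd / wL L) * M) atTop (𝓝 0) := by
      have := (c1.const_mul (k : ℝ)).mul_const M
      simpa using this
    have c3 := (Real.continuous_sqrt.tendsto 0).comp c2
    rw [Real.sqrt_zero] at c3
    have := c3.mul_const Rk
    simpa using this
  set C3 : ℝ := C * (1 / c) ^ 2 + C' / Real.sqrt c with hC3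
  have b3 : Tendsto (fun L : ℝ => C3 * Real.exp (-(1 / 4 * L))) atTop (𝓝 0) := by
    have : Tendsto (fun L : ℝ => Real.exp (-(1 / 4 * L))) atTop (𝓝 0) :=
      Real.tendsto_exp_neg_atTop_nhds_zero.comp (tendsto_id.const_mul_atTop (by norm_num))
    simpa using this.const_mul C3
  have bb := b1.add b3
  simp only [add_zero] at bb
  refine squeeze_zero_norm' ?_ bb
  filter_upwards [hMe, hV2, zL_facts, aL_bd, sum_a_le, sL_cop m0 hm0, exp_small k (1 / 8) (by norm_num),
    eventually_gt_atTop (0 : ℝ), wL_top.eventually_gt_atTop 0] with L g1 g2 g3 g4 g5 g6 g7 g9 g10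
  obtain ⟨k3, klog, kz3, kz, klz1, klz2⟩ := g3
  have hX : 0 < c * Real.exp L := by positivity
  rw [Real.norm_eq_abs]
  have hgen := mom_gen φ hF hX (sL L) (aL L) (fun _ => 0) (fun p hp => ⟨(g4 p hp).1, (g4 p hp).2.2⟩)
    (fun p hp => by norm_num) 2 g2 k
    (fun _ => 1) (Real.sqrt (k * (Cd / wL L) * M)) 0 (C3 * Real.exp (-(3 / 8 * L)))
    (Real.sqrt_nonneg _) le_rfl (by positivity)
    (fun f hf hev => even_tuple φ hF hF0 hX hjo hCd0 (hCd _ hX) (sL L) (wL L) (by exact_mod_cast g10)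
      (fun p hp => ⟨(sL_mem hp).1, (sL_mem hp).2.1, (sL_mem hp).2.2.1⟩) _ M g1 f hf hev)
    (by
      intro f hf hev
      rw [zero_mul, zero_add]
      have hpr : ∀ i, (f i).Prime := fun i => (g6 _ (hf i)).1
      have h0 : ∀ i ∈ (Finset.univ : Finset (Fin k)), f i ≠ 0 := fun i _ => (hpr i).ne_zero
      have hns : ¬ IsSquare (∏ i, f i) := fun h => hev (evc_of_sq (sL L) (fun p hp => (g6 p hp).1) f hf h)
      have hodd : Odd (∏ i, f i) :=
        Finset.prod_induction _ Odd (fun a b ha hb => ha.mul hb) odd_one (fun i _ => (g6 _ (hf i)).2.1)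
      have hcop : Nat.Coprime (∏ i, f i) m0 :=
        Nat.Coprime.prod_left fun i _ => (g6 _ (hf i)).2.2.1
      have h1 := hE (c * Real.exp L) (∏ i, f i) hX hodd hcop hns
      have e1 : ∀ d, (∏ i, jo φ d (f i)) * (1 : ℝ) = js (φ.e * (d : ℤ)) (∏ i, f i) := by
        intro d
        rw [mul_one, Pool.Agent.R318.QL.CL.prod_jo φ d univ f h0]
        unfold jo
        rw [if_pos hodd]
      simp only [e1]
      refine h1.trans ?_
      have hn : ((∏ i, f i : ℕ) : ℝ) ≤ Real.exp (1 / 8 * L) := by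
        push_cast
        refine le_trans ?_ g7
        calc ∏ i, ((f i : ℕ) : ℝ) ≤ ∏ _i : Fin k, Real.exp (L / Real.log L) :=
              Finset.prod_le_prod (fun i _ => Nat.cast_nonneg _) (fun i _ => (g6 _ (hf i)).2.2.2.1)
          _ = _ := by rw [prod_const, card_univ, Fintype.card_fin]
      have e4 : Real.sqrt (c * Real.exp L) = Real.sqrt c * Real.exp (L / 2) := by
        rw [Real.sqrt_mul hc.le, Real.exp_half]
      have h2 : ((∏ i, f i : ℕ) : ℝ) / (c * Real.exp L) ≤ (1 / c) * Real.exp (-(7 / 8 * L)) := by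
        rw [div_le_iff₀ hX]
        refine hn.trans (le_of_eq ?_)
        have : (1 / c) * Real.exp (-(7 / 8 * L)) * (c * Real.exp L) =
            Real.exp (-(7 / 8 * L)) * Real.exp L := by
          field_simp
        rw [this, ← Real.exp_add]
        congr 1
        ring
      have h3 : (((∏ i, f i : ℕ) : ℝ) / (c * Real.exp L)) ^ 2 ≤ (1 / c) ^ 2 * Real.exp (-(3 / 8 * L)) := by
        refine (pow_le_pow_left₀ (by positivity) h2 2).trans ?_
        rw [mul_pow, ← Real.exp_nat_mul]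
        apply mul_le_mul_of_nonneg_left _ (by positivity)
        apply Real.exp_le_exp.2
        push_cast
        linarith
      have h4 : C' / Real.sqrt (c * Real.exp L) ≤ C' / Real.sqrt c * Real.exp (-(3 / 8 * L)) := by
        rw [e4, ← div_div, div_eq_mul_inv (C' / Real.sqrt c), ← Real.exp_neg]
        apply mul_le_mul_of_nonneg_left _ (by positivity)
        apply Real.exp_le_exp.2
        linarith
      have h5 := mul_le_mul_of_nonneg_left h3 hC
      rw [hC3]
      linarith)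
  have hYY : ∀ d, YY φ L d = ∑ p ∈ sL L, aL L p * jo φ d p := fun d => rfl
  simp only [hYY]
  simp only [mul_one, zero_mul, add_zero] at hgen
  refine hgen.trans ?_
  apply add_le_add
  · apply mul_le_mul_of_nonneg_left _ (Real.sqrt_nonneg _)
    exact (le_abs_self _).trans (rm_bd (sL L) (aL L) k 2 g2)
  · calc C3 * Real.exp (-(3 / 8 * L)) * (∑ p ∈ sL L, aL L p) ^ k ≤
        C3 * Real.exp (-(3 / 8 * L)) * Real.exp (1 / 8 * L) := by
          apply mul_le_mul_of_nonneg_left _ (by positivity)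
          exact (pow_le_pow_left₀ g5.1 g5.2 k).trans g7
      _ = _ := by
          rw [mul_assoc, ← Real.exp_add]
          congr 2
          ring

end

end Pool.Agent.V8H36.IN
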