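import Pool.Agent.V8H36.IN.Tm3
import Pool.Agent.V8H61.IN.Tf

set_option autoImplicit false
set_option linter.all false
set_option maxHeartbeats 4000000

/-!
Central values in intervals, part 4: test functions of the sum over primes, weighted by the
mollified value.
-/

namespace Pool.Agent.V8H36.IN

open Finset Filter Topology MeasureTheory ProbabilityTheory
open Pool.Agent.H306R2.RZ Pool.Agent.H306R2.RG
open Pool.Agent.W161.LF
open Pool.Agent.R318.QL.CL (RM RS rs_char EvC rm_bd rm_even_bd sL sL_mem aL aL_bd YY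
  wL zL zL_facts mass mass_lim exp_rem prod_diff cos_exp)

noncomputable section

/-- the product of the cosines -/
theorem cos_lim (t : ℝ) : Tendsto (fun L : ℝ => ∏ p ∈ sL L, Real.cos (t * aL L p)) atTop
    (𝓝 (Real.exp (-(t ^ 2 / 2)))) := by
  have hsq : Tendsto (fun L : ℝ => 1 / Real.sqrt (Real.log L)) atTop (𝓝 0) :=
    tendsto_const_nhds.div_atTop (Real.tendsto_sqrt_atTop.comp Real.tendsto_log_atTop)
  have h4 : Tendsto (fun L : ℝ => ∑ p ∈ sL L, aL L p ^ 4) atTop (𝓝 0) := by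
    have e1 : Tendsto (fun L : ℝ => (1 / Real.sqrt (Real.log L)) ^ 2 * ∑ p ∈ sL L, aL L p ^ 2) atTop (𝓝 0) := by
      have := (hsq.pow 2).mul mass_lim
      simpa using this
    refine squeeze_zero' (Filter.Eventually.of_forall fun X =>
      Finset.sum_nonneg fun p _ => by positivity) ?_ e1
    filter_upwards [aL_bd] with X h5
    rw [Finset.mul_sum]
    refine Finset.sum_le_sum fun p hp => ?_
    obtain ⟨q1, q2, q3⟩ := h5 p hp
    have : aL X p ^ 2 ≤ (1 / Real.sqrt (Real.log X)) ^ 2 := pow_le_pow_left₀ q1 q2 2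
    calc aL X p ^ 4 = aL X p ^ 2 * aL X p ^ 2 := by ring
      _ ≤ _ := mul_le_mul_of_nonneg_right this (by positivity)
  have g1 : Tendsto (fun L : ℝ => Real.exp (-(t ^ 2 * (∑ p ∈ sL L, aL L p ^ 2) / 2))) atTop
      (𝓝 (Real.exp (-(t ^ 2 / 2)))) := by
    have h1 : Tendsto (fun L : ℝ => -(t ^ 2 * (∑ p ∈ sL L, aL L p ^ 2) / 2)) atTop (𝓝 (-(t ^ 2 * 1 / 2))) :=
      ((mass_lim.const_mul (t ^ 2)).div_const 2).neg
    rw [mul_one] at h1
    exact (Real.continuous_exp.tendsto _).comp h1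
  have g2 : Tendsto (fun L : ℝ => ∏ p ∈ sL L, Real.cos (t * aL L p) -
      Real.exp (-(t ^ 2 * (∑ p ∈ sL L, aL L p ^ 2) / 2))) atTop (𝓝 0) := by
    have h1 : Tendsto (fun L : ℝ => t ^ 4 * ∑ p ∈ sL L, aL L p ^ 4) atTop (𝓝 0) := by
      have := h4.const_mul (t ^ 4)
      rwa [mul_zero] at this
    have h2 : ∀ᶠ L : ℝ in atTop, |t| * (1 / Real.sqrt (Real.log L)) ≤ 1 := by
      have h3 : Tendsto (fun L : ℝ => |t| * (1 / Real.sqrt (Real.log L))) atTop (𝓝 0) := by
        have := hsq.const_mul |t|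
        rwa [mul_zero] at this
      exact (h3.eventually (gt_mem_nhds one_pos)).mono fun i hi => hi.le
    rw [tendsto_zero_iff_abs_tendsto_zero]
    refine squeeze_zero' (Filter.Eventually.of_forall fun i => abs_nonneg _) ?_ h1
    filter_upwards [h2, aL_bd] with i hi1 hi2
    have e1 : Real.exp (-(t ^ 2 * (∑ p ∈ sL i, aL i p ^ 2) / 2)) =
        ∏ p ∈ sL i, Real.exp (-((t * aL i p) ^ 2 / 2)) := by
      rw [← Real.exp_sum]
      congr 1
      rw [Finset.sum_neg_distrib, Finset.mul_sum, Finset.sum_div]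
      congr 1
      refine Finset.sum_congr rfl fun p _ => ?_
      ring
    simp only [Function.comp_apply]
    rw [e1]
    refine (prod_diff _ _ _ (fun p _ => Real.abs_cos_le_one _) (fun p _ => ?_)).trans ?_
    · rw [abs_of_pos (Real.exp_pos _), Real.exp_le_one_iff]
      have : 0 ≤ (t * aL i p) ^ 2 / 2 := by positivity
      linarith
    · rw [Finset.mul_sum]
      refine Finset.sum_le_sum fun p hp => ?_
      have h3 : |t * aL i p| ≤ 1 := by
        rw [abs_mul, abs_of_nonneg (hi2 p hp).1]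
        exact (mul_le_mul_of_nonneg_left (hi2 p hp).2.1 (abs_nonneg t)).trans hi1
      refine (cos_exp h3).trans (le_of_eq ?_)
      ring
  have g3 := g2.add g1
  rw [zero_add] at g3
  refine g3.congr fun i => ?_
  ring

/-- real and imaginary parts -/
def UU (u : ℂ → ℝ) : Prop := u = Complex.re ∨ u = Complex.im

/-- Taylor polynomial of `u (exp (i y))` -/
def TP (u : ℂ → ℝ) (K : ℕ) (y : ℝ) : ℝ := ∑ k ∈ range K, u (Complex.I ^ k) / k.factorial * y ^ k

theorem uu_norm {u : ℂ → ℝ} (hu : UU u) (z : ℂ) : |u z| ≤ ‖z‖ := by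
  rcases hu with h | h <;> rw [h]
  · exact Complex.abs_re_le_norm z
  · exact Complex.abs_im_le_norm z

theorem uu_tp {u : ℂ → ℝ} (hu : UU u) (K : ℕ) (y : ℝ) :
    u (∑ k ∈ range K, ((y : ℂ) * Complex.I) ^ k / (k.factorial : ℂ)) = TP u K y := by
  have e : ∀ k : ℕ, ((y : ℂ) * Complex.I) ^ k / (k.factorial : ℂ) =
      ((y ^ k / k.factorial : ℝ) : ℂ) * Complex.I ^ k := by
    intro k
    push_cast
    rw [mul_pow]
    ring
  simp only [e]
  unfold TP
  rcases hu with h | h <;> rw [h]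
  · rw [Complex.re_sum]
    refine sum_congr rfl fun k _ => ?_
    rw [Complex.re_ofReal_mul]
    ring
  · rw [Complex.im_sum]
    refine sum_congr rfl fun k _ => ?_
    rw [Complex.im_ofReal_mul]
    ring

theorem uu_rem {u : ℂ → ℝ} (hu : UU u) (K : ℕ) (y : ℝ) :
    |u (Complex.exp ((y : ℂ) * Complex.I)) - TP u K y| ≤ |y| ^ K / K.factorial := by
  have h := exp_rem K y
  refine le_trans ?_ h
  refine le_trans (le_of_eq ?_) (uu_norm hu _)
  rw [← uu_tp hu]
  rcases hu with h | h <;> rw [h]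
  · rw [Complex.sub_re]
  · rw [Complex.sub_im]

/-- the random signs -/
theorem uu_rs {u : ℂ → ℝ} (hu : UU u) (s : Finset ℕ) (a : ℕ → ℝ) (t : ℝ) (K : ℕ) (hK : Even K) :
    |∑ k ∈ range K, u (Complex.I ^ k) / k.factorial * t ^ k * RM s a k -
      u ((∏ p ∈ s, Real.cos (t * a p) : ℝ) : ℂ)| ≤ |t| ^ K / K.factorial * RM s a K := by
  have h2 : (0 : ℝ) < 2 ^ s.card := by positivity
  have e1 : ∑ k ∈ range K, u (Complex.I ^ k) / k.factorial * t ^ k * RM s a k =
      (∑ T ∈ s.powerset, TP u K (t * RS s a T)) / 2 ^ s.card := by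
    unfold TP RM
    rw [sum_comm, sum_div]
    refine sum_congr rfl fun k _ => ?_
    rw [mul_div_assoc', mul_sum]
    congr 1
    refine sum_congr rfl fun T _ => ?_
    rw [mul_pow]
    ring
  have e2 : u ((∏ p ∈ s, Real.cos (t * a p) : ℝ) : ℂ) =
      (∑ T ∈ s.powerset, u (Complex.exp (((t * RS s a T : ℝ) : ℂ) * Complex.I))) / 2 ^ s.card := by
    have h3 := rs_char s a t
    have h4 : ((∏ p ∈ s, Real.cos (t * a p) : ℝ) : ℂ) =
        (((1 : ℝ) / 2 ^ s.card : ℝ) : ℂ) *
        ∑ T ∈ s.powerset, Complex.exp (((t * RS s a T : ℝ) : ℂ) * Complex.I) := by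
      have h5 : ∑ T ∈ s.powerset, Complex.exp (((t * RS s a T : ℝ) : ℂ) * Complex.I) =
          ∑ T ∈ s.powerset, Complex.exp ((t : ℂ) * (RS s a T : ℂ) * Complex.I) := by
        refine sum_congr rfl fun T _ => ?_
        push_cast
        rfl
      rw [h5, h3]
      have h6 : (2 : ℂ) ^ s.card ≠ 0 := pow_ne_zero _ two_ne_zero
      push_cast
      field_simp
    rw [h4]
    rcases hu with h | h <;> rw [h]
    · rw [Complex.re_ofReal_mul, Complex.re_sum]
      ring
    · rw [Complex.im_ofReal_mul, Complex.im_sum]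
      ring
  rw [e1, e2, ← sub_div, ← sum_sub_distrib, abs_div, abs_of_pos h2, RM, mul_div_assoc']
  apply div_le_div_of_nonneg_right _ h2.le
  rw [mul_sum]
  refine (abs_sum_le_sum_abs _ _).trans (sum_le_sum fun T _ => ?_)
  rw [abs_sub_comm]
  refine (uu_rem hu K _).trans (le_of_eq ?_)
  rw [abs_mul, mul_pow, hK.pow_abs (RS s a T)]
  ring

/-- growth of factorials -/
theorem fac_bd (K : ℕ) : Real.sqrt ((2 * K).factorial) ≤ 2 ^ K * K.factorial := by
  rw [Real.sqrt_le_left (by positivity)]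
  have h1 : (2 * K).factorial = Nat.centralBinom K * (K.factorial * K.factorial) := by
    have := Nat.choose_mul_factorial_mul_factorial (show K ≤ 2 * K by omega)
    rw [show 2 * K - K = K by omega] at this
    rw [Nat.centralBinom, ← this]
    ring
  have h2 : Nat.centralBinom K ≤ 4 ^ K := by
    have := Nat.choose_le_two_pow (2 * K) K
    rw [Nat.centralBinom]
    calc _ ≤ 2 ^ (2 * K) := this
      _ = 4 ^ K := by rw [pow_mul]; norm_num
  have h3 : ((2 * K).factorial : ℝ) ≤ 4 ^ K * (K.factorial * K.factorial) := by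
    rw [h1]
    push_cast
    apply mul_le_mul_of_nonneg_right _ (by positivity)
    exact_mod_cast h2
  refine h3.trans (le_of_eq ?_)
  rw [mul_pow, ← pow_mul, mul_comm K 2, pow_mul]
  norm_num
  ring

/-- the trigonometric moments -/
theorem char_lim (φ : FD) {F : ℝ → ℝ} (hF : TF F) (hF0 : ∀ x, 0 ≤ F x) (c : ℝ) (hc : 0 < c)
    (H : ℝ → ℕ → ℝ) (m M D : ℝ)
    (h1 : ∀ k : ℕ, Tendsto (fun L : ℝ => EAg φ F (c * Real.exp L) (fun d => YY φ L d ^ k * H L d) -
      RM (sL L) (aL L) k * EAg φ F (c * Real.exp L) (H L)) atTop (𝓝 0))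
    (h2 : Tendsto (fun L : ℝ => EAg φ F (c * Real.exp L) (H L)) atTop (𝓝 m))
    (h3 : ∀ᶠ L : ℝ in atTop, EAg φ F (c * Real.exp L) (fun d => H L d ^ 2) ≤ M)
    (h4 : ∀ k : ℕ, Tendsto (fun L : ℝ => EAg φ F (c * Real.exp L) (fun d => YY φ L d ^ k) -
      RM (sL L) (aL L) k * EAg φ F (c * Real.exp L) (fun _ => 1)) atTop (𝓝 0))
    (h5 : Tendsto (fun L : ℝ => EAg φ F (c * Real.exp L) (fun _ => 1)) atTop (𝓝 D))
    (u : ℂ → ℝ) (hu : UU u) (t : ℝ) :
    Tendsto (fun L : ℝ => EAg φ F (c * Real.exp L) (fun d => H L d *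
      u (Complex.exp (((t * YY φ L d : ℝ) : ℂ) * Complex.I)))) atTop
      (𝓝 (m * u ((Real.exp (-(t ^ 2 / 2)) : ℝ) : ℂ))) := by
  have hucont : Continuous u := by
    rcases hu with h | h <;> rw [h]
    · exact Complex.continuous_re
    · exact Complex.continuous_im
  have s1 : Tendsto (fun L : ℝ => EAg φ F (c * Real.exp L) (H L) *
      u ((∏ p ∈ sL L, Real.cos (t * aL L p) : ℝ) : ℂ)) atTop
      (𝓝 (m * u ((Real.exp (-(t ^ 2 / 2)) : ℝ) : ℂ))) := by
    apply h2.mul
    exact ((hucont.comp Complex.continuous_ofReal).tendsto _).comp (cos_lim t)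
  have s2 : Tendsto (fun L : ℝ => EAg φ F (c * Real.exp L) (fun d => H L d *
      u (Complex.exp (((t * YY φ L d : ℝ) : ℂ) * Complex.I))) -
      EAg φ F (c * Real.exp L) (H L) *
      u ((∏ p ∈ sL L, Real.cos (t * aL L p) : ℝ) : ℂ)) atTop (𝓝 0) := by
    rw [Metric.tendsto_nhds]
    intro ε hε
    set lam : ℝ := 4 * |t| + 4 with hlam
    have hl : 0 < lam := by positivity
    have hr : 2 * |t| / lam ≤ 1 / 2 := by
      rw [div_le_div_iff₀ hl (by norm_num)]
      linarith
    have hr' : |t| / lam ≤ 1 / 2 := by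
      rw [div_le_div_iff₀ hl (by norm_num)]
      have := abs_nonneg t
      linarith
    set A1 : ℝ := Real.sqrt ((|D| + 1) * (2 * Real.exp (lam ^ 2)) * |M|) + 1 with hA1
    set A2 : ℝ := (|m| + 1) * (2 * Real.exp (lam ^ 2)) with hA2
    have hA10 : 0 < A1 := by positivity
    have hA20 : 0 < A2 := by positivity
    have hK : ∃ K : ℕ, Even K ∧ (A1 + A2) * (1 / 2) ^ K < ε / 2 := by
      have h1 : Tendsto (fun K : ℕ => (A1 + A2) * (1 / 2 : ℝ) ^ K) atTop (𝓝 0) := by
        have := (tendsto_pow_atTop_nhds_zero_of_lt_one (show (0 : ℝ) ≤ 1 / 2 by norm_num)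
          (by norm_num)).const_mul (A1 + A2)
        rwa [mul_zero] at this
      obtain ⟨K, hK⟩ := (eventually_atTop.1 (h1.eventually (gt_mem_nhds (half_pos hε))))
      exact ⟨2 * K, even_two_mul K, hK (2 * K) (by omega)⟩
    obtain ⟨K, hKe, hK⟩ := hK
    -- the vanishing part
    set η : ℝ → ℕ → ℝ := fun L k => |EAg φ F (c * Real.exp L) (fun d => YY φ L d ^ k * H L d) -
      RM (sL L) (aL L) k * EAg φ F (c * Real.exp L) (H L)| with hη
    have g1 : Tendsto (fun L : ℝ => ∑ k ∈ range K, |t| ^ k / k.factorial * η L k) atTop (𝓝 0) := by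
      have : Tendsto (fun L : ℝ => ∑ k ∈ range K, |t| ^ k / k.factorial * η L k) atTop
          (𝓝 (∑ k ∈ range K, |t| ^ k / (k.factorial : ℝ) * 0)) := by
        apply tendsto_finset_sum
        intro k _
        apply Tendsto.const_mul
        have := (h1 k).abs
        rwa [abs_zero] at this
      simpa using this
    -- the moment of order `2K`
    have g2 : ∀ᶠ L : ℝ in atTop, ∑ p ∈ sL L, aL L p ^ 2 < 2 :=
      mass_lim.eventually (gt_mem_nhds (by norm_num))
    have hfK : (0 : ℝ) < (2 * K).factorial := by exact_mod_cast (2 * K).factorial_pos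
    set R2 : ℝ := (2 * K).factorial / lam ^ (2 * K) * (2 * Real.exp (lam ^ 2)) with hR2
    have hR20 : 0 < R2 := by positivity
    have g3 : ∀ᶠ L : ℝ in atTop, EAg φ F (c * Real.exp L) (fun d => YY φ L d ^ (2 * K)) ≤
        (|D| + 1) * R2 := by
      have k1 : ∀ᶠ L : ℝ in atTop, EAg φ F (c * Real.exp L) (fun _ => 1) < |D| + 1 / 2 :=
        h5.eventually (gt_mem_nhds (by linarith [le_abs_self D]))
      have k2 : ∀ᶠ L : ℝ in atTop, EAg φ F (c * Real.exp L) (fun d => YY φ L d ^ (2 * K)) -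
          RM (sL L) (aL L) (2 * K) * EAg φ F (c * Real.exp L) (fun _ => 1) < R2 / 2 :=
        (h4 (2 * K)).eventually (gt_mem_nhds (by positivity))
      filter_upwards [k1, k2, g2] with L q1 q2 q3
      obtain ⟨h6, h7⟩ := rm_even_bd (sL L) (aL L) (2 * K) (even_two_mul K) lam hl 2 q3.le
      have e : lam ^ 2 * 2 / 2 = lam ^ 2 := by ring
      rw [e] at h7
      have h8 : RM (sL L) (aL L) (2 * K) * EAg φ F (c * Real.exp L) (fun _ => 1) ≤ R2 * (|D| + 1 / 2) := by
        have h9 : 0 ≤ EAg φ F (c * Real.exp L) (fun _ => 1) :=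
          EAg_nonneg φ hF0 (by positivity) fun _ _ => zero_le_one
        exact mul_le_mul h7 q1.le h9 hR20.le
      linarith
    have g4 : ∀ᶠ L : ℝ in atTop, |EAg φ F (c * Real.exp L) (H L)| < |m| + 1 :=
      h2.abs.eventually (gt_mem_nhds (lt_add_one _))
    filter_upwards [g1.eventually (gt_mem_nhds (half_pos hε)), g2, g3, g4, h3] with L k1 k2 k3 k4 k5
    have hX : 0 < c * Real.exp L := by positivity
    rw [dist_zero_right, Real.norm_eq_abs]
    -- first remainder
    have r1 : |EAg φ F (c * Real.exp L) (fun d => H L d *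
        u (Complex.exp (((t * YY φ L d : ℝ) : ℂ) * Complex.I))) -
        EAg φ F (c * Real.exp L) (fun d => H L d * TP u K (t * YY φ L d))| ≤ A1 * (1 / 2) ^ K := by
      rw [← EAg_sub φ hF hX]
      have e1 : ∀ d, H L d * u (Complex.exp (((t * YY φ L d : ℝ) : ℂ) * Complex.I)) -
          H L d * TP u K (t * YY φ L d) =
          (u (Complex.exp (((t * YY φ L d : ℝ) : ℂ) * Complex.I)) - TP u K (t * YY φ L d)) * H L d := by
        intro d
        ring
      simp only [e1]
      have hfK0 : (0 : ℝ) < K.factorial := by exact_mod_cast K.factorial_pos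
      have b1 : EAg φ F (c * Real.exp L) (fun d =>
          (u (Complex.exp (((t * YY φ L d : ℝ) : ℂ) * Complex.I)) - TP u K (t * YY φ L d)) ^ 2) ≤
          (|t| ^ K / K.factorial) ^ 2 * ((|D| + 1) * R2) := by
        refine le_trans ?_ (mul_le_mul_of_nonneg_left k3 (sq_nonneg _))
        rw [← EAg_cmul]
        refine EAg_mono φ hF hF0 hX fun d _ => ?_
        rw [← sq_abs]
        refine (pow_le_pow_left₀ (abs_nonneg _) (uu_rem hu K _) 2).trans (le_of_eq ?_)
        rw [abs_mul, mul_pow, div_pow, div_pow, mul_pow]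
        have : (|YY φ L d| ^ K) ^ 2 = YY φ L d ^ (2 * K) := by
          rw [← pow_mul, mul_comm K 2, (even_two_mul K).pow_abs]
        rw [this]
        ring
      have b2 := EAg_CS φ hF hF0 hX (fun d => u (Complex.exp (((t * YY φ L d : ℝ) : ℂ) * Complex.I)) -
        TP u K (t * YY φ L d)) (H L)
      have b3 : (EAg φ F (c * Real.exp L) (fun d =>
          (u (Complex.exp (((t * YY φ L d : ℝ) : ℂ) * Complex.I)) - TP u K (t * YY φ L d)) * H L d)) ^ 2 ≤
          ((|t| ^ K / K.factorial) ^ 2 * ((|D| + 1) * R2)) * |M| := by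
        refine b2.trans ?_
        exact mul_le_mul b1 (k5.trans (le_abs_self M)) (EAg_nonneg φ hF0 hX fun d _ => sq_nonneg _)
          (by positivity)
      refine (Real.abs_le_sqrt b3).trans ?_
      have b4 : Real.sqrt (((|t| ^ K / K.factorial) ^ 2 * ((|D| + 1) * R2)) * |M|) =
          |t| ^ K / K.factorial * Real.sqrt ((2 * K).factorial) / lam ^ K *
          Real.sqrt ((|D| + 1) * (2 * Real.exp (lam ^ 2)) * |M|) := by
        have e2 : ((|t| ^ K / K.factorial) ^ 2 * ((|D| + 1) * R2)) * |M| =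
            (|t| ^ K / K.factorial * Real.sqrt ((2 * K).factorial) / lam ^ K) ^ 2 *
            ((|D| + 1) * (2 * Real.exp (lam ^ 2)) * |M|) := by
          have e3 : lam ^ (2 * K) = (lam ^ K) ^ 2 := by rw [← pow_mul, mul_comm K 2]
          have e4 : ((2 * K).factorial : ℝ) = Real.sqrt ((2 * K).factorial) ^ 2 :=
            (Real.sq_sqrt hfK.le).symm
          rw [hR2, e3]
          conv_lhs => rw [e4]
          ring
        rw [e2, Real.sqrt_mul (sq_nonneg _), Real.sqrt_sq (by positivity)]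
      rw [b4]
      have b5 : |t| ^ K / K.factorial * Real.sqrt ((2 * K).factorial) / lam ^ K ≤ (1 / 2) ^ K := by
        calc |t| ^ K / K.factorial * Real.sqrt ((2 * K).factorial) / lam ^ K ≤
            |t| ^ K / K.factorial * (2 ^ K * K.factorial) / lam ^ K := by
              have := fac_bd K
              gcongr
          _ = (2 * |t| / lam) ^ K := by
              rw [div_pow, mul_pow]
              field_simp
          _ ≤ _ := pow_le_pow_left₀ (by positivity) hr K
      rw [mul_comm A1]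
      apply mul_le_mul b5 _ (Real.sqrt_nonneg _) (by positivity)
      rw [hA1]
      linarith
    -- the polynomial part
    have r2 : |EAg φ F (c * Real.exp L) (fun d => H L d * TP u K (t * YY φ L d)) -
        EAg φ F (c * Real.exp L) (H L) *
          ∑ k ∈ range K, u (Complex.I ^ k) / k.factorial * t ^ k * RM (sL L) (aL L) k| ≤
        ∑ k ∈ range K, |t| ^ k / k.factorial * η L k := by
      have e1 : EAg φ F (c * Real.exp L) (fun d => H L d * TP u K (t * YY φ L d)) =
          ∑ k ∈ range K, u (Complex.I ^ k) / k.factorial * t ^ k *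
            EAg φ F (c * Real.exp L) (fun d => YY φ L d ^ k * H L d) := by
        have e2 : ∀ d, H L d * TP u K (t * YY φ L d) =
            ∑ k ∈ range K, u (Complex.I ^ k) / k.factorial * t ^ k * (YY φ L d ^ k * H L d) := by
          intro d
          unfold TP
          rw [mul_sum]
          refine sum_congr rfl fun k _ => ?_
          rw [mul_pow]
          ring
        simp only [e2]
        rw [Pool.Agent.W161.LF.EAg_sum φ hF hX]
        refine sum_congr rfl fun k _ => ?_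
        rw [EAg_cmul]
      rw [e1, mul_sum, ← sum_sub_distrib]
      refine (abs_sum_le_sum_abs _ _).trans (sum_le_sum fun k _ => ?_)
      have e3 : u (Complex.I ^ k) / k.factorial * t ^ k *
            EAg φ F (c * Real.exp L) (fun d => YY φ L d ^ k * H L d) -
          EAg φ F (c * Real.exp L) (H L) * (u (Complex.I ^ k) / k.factorial * t ^ k * RM (sL L) (aL L) k) =
          u (Complex.I ^ k) / k.factorial * t ^ k *
            (EAg φ F (c * Real.exp L) (fun d => YY φ L d ^ k * H L d) -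
              RM (sL L) (aL L) k * EAg φ F (c * Real.exp L) (H L)) := by ring
      rw [e3, abs_mul]
      apply mul_le_mul_of_nonneg_right _ (abs_nonneg _)
      rw [abs_mul, abs_div, abs_pow, Nat.abs_cast]
      have h6 : |u (Complex.I ^ k)| ≤ 1 := by
        refine (uu_norm hu _).trans ?_
        rw [norm_pow, Complex.norm_I, one_pow]
      have h7 : (0 : ℝ) < k.factorial := by exact_mod_cast k.factorial_pos
      rw [div_mul_eq_mul_div]
      apply div_le_div_of_nonneg_right _ h7.le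
      exact mul_le_of_le_one_left (by positivity) h6
    -- the random signs
    have r3 : |EAg φ F (c * Real.exp L) (H L) *
          ∑ k ∈ range K, u (Complex.I ^ k) / k.factorial * t ^ k * RM (sL L) (aL L) k -
        EAg φ F (c * Real.exp L) (H L) * u ((∏ p ∈ sL L, Real.cos (t * aL L p) : ℝ) : ℂ)| ≤
        A2 * (1 / 2) ^ K := by
      rw [← mul_sub, abs_mul]
      have h6 := uu_rs hu (sL L) (aL L) t K hKe
      obtain ⟨h8, h7⟩ := rm_even_bd (sL L) (aL L) K hKe lam hl 2 k2.le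
      have e : lam ^ 2 * 2 / 2 = lam ^ 2 := by ring
      rw [e] at h7
      have hfK0 : (0 : ℝ) < K.factorial := by exact_mod_cast K.factorial_pos
      have h9 : |t| ^ K / K.factorial * RM (sL L) (aL L) K ≤ (1 / 2) ^ K * (2 * Real.exp (lam ^ 2)) := by
        calc |t| ^ K / K.factorial * RM (sL L) (aL L) K ≤
            |t| ^ K / K.factorial * (K.factorial / lam ^ K * (2 * Real.exp (lam ^ 2))) := by gcongr
          _ = (|t| / lam) ^ K * (2 * Real.exp (lam ^ 2)) := by
              rw [div_pow]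
              field_simp
          _ ≤ _ := by
              apply mul_le_mul_of_nonneg_right _ (by positivity)
              exact pow_le_pow_left₀ (by positivity) hr' K
      calc _ ≤ (|m| + 1) * ((1 / 2) ^ K * (2 * Real.exp (lam ^ 2))) :=
            mul_le_mul k4.le (h6.trans h9) (abs_nonneg _) (by positivity)
        _ = _ := by rw [hA2]; ring
    have r4 := abs_le.1 r1
    have r5 := abs_le.1 r2
    have r6 := abs_le.1 r3
    rw [abs_lt]
    have e9 : (A1 + A2) * (1 / 2 : ℝ) ^ K = A1 * (1 / 2) ^ K + A2 * (1 / 2) ^ K := by ring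
    rw [e9] at hK
    constructor <;> linarith
  have s3 := s2.add s1
  rw [zero_add] at s3
  refine s3.congr fun L => ?_
  ring

open Classical in
/-- **test functions** -/
theorem tst_gen (φ : FD) {F : ℝ → ℝ} (hF : TF F) (hF0 : ∀ x, 0 ≤ F x) (c : ℝ) (hc : 0 < c)
    (H : ℝ → ℕ → ℝ) (m M D : ℝ)
    (h1 : ∀ k : ℕ, Tendsto (fun L : ℝ => EAg φ F (c * Real.exp L) (fun d => YY φ L d ^ k * H L d) -
      RM (sL L) (aL L) k * EAg φ F (c * Real.exp L) (H L)) atTop (𝓝 0))
    (h2 : Tendsto (fun L : ℝ => EAg φ F (c * Real.exp L) (H L)) atTop (𝓝 m))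
    (h3 : ∀ᶠ L : ℝ in atTop, EAg φ F (c * Real.exp L) (fun d => H L d ^ 2) ≤ M)
    (h4 : ∀ k : ℕ, Tendsto (fun L : ℝ => EAg φ F (c * Real.exp L) (fun d => YY φ L d ^ k) -
      RM (sL L) (aL L) k * EAg φ F (c * Real.exp L) (fun _ => 1)) atTop (𝓝 0))
    (h5 : Tendsto (fun L : ℝ => EAg φ F (c * Real.exp L) (fun _ => 1)) atTop (𝓝 D))
    (g : ℝ → ℝ) (hg : Continuous g) (hgc : HasCompactSupport g) :
    Tendsto (fun L : ℝ => EAg φ F (c * Real.exp L) (fun d => g (YY φ L d) * H L d)) atTop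
      (𝓝 (m * ∫ y, g y ∂(gaussianReal 0 1))) := by
  have hN : ∀ L : ℝ, ∃ N0 : ℕ, ∀ d : ℕ, N0 ≤ d → F ((d : ℝ) / (c * Real.exp L)) = 0 :=
    fun L => tf_cut hF (by positivity)
  choose N hN using hN
  set A : ℝ → Finset ℕ := fun L => (range (N L)).filter (fun d => φ.A d) with hA
  set W : ℝ → ℕ → ℝ := fun L d => F ((d : ℝ) / (c * Real.exp L)) * H L d / (c * Real.exp L) with hW
  have key : ∀ (L : ℝ) (f : ℕ → ℝ), ∑ d ∈ A L, W L d * f d =
      EAg φ F (c * Real.exp L) (fun d => H L d * f d) := by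
    intro L f
    rw [EAg_range φ (hN L), hA, sum_filter, sum_div]
    refine sum_congr rfl fun d _ => ?_
    rw [hW]
    split_ifs
    · ring
    · simp
  have keyabs : ∀ (L : ℝ) (f : ℕ → ℝ), ∑ d ∈ A L, |W L d| * f d =
      EAg φ F (c * Real.exp L) (fun d => |H L d| * f d) := by
    intro L f
    have hX : 0 < c * Real.exp L := by positivity
    rw [EAg_range φ (hN L), hA, sum_filter, sum_div]
    refine sum_congr rfl fun d _ => ?_
    rw [hW]
    split_ifs
    · simp only
      rw [abs_div, abs_mul, abs_of_nonneg (hF0 _), abs_of_pos hX]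
      ring
    · simp
  have hcos : ∀ t y : ℝ, (Complex.exp (((t * y : ℝ) : ℂ) * Complex.I)).re = Real.cos (t * y) :=
    fun t y => Complex.exp_ofReal_mul_I_re _
  have hsin : ∀ t y : ℝ, (Complex.exp (((t * y : ℝ) : ℂ) * Complex.I)).im = Real.sin (t * y) :=
    fun t y => Complex.exp_ofReal_mul_I_im _
  have hY2 : ∀ᶠ L : ℝ in atTop, EAg φ F (c * Real.exp L) (fun d => YY φ L d ^ 2) ≤
      1 + (1 + (2 * 2 : ℕ).factorial * (2 * Real.exp (2 / 2))) * (|D| + 1) := by
    have k1 : ∀ᶠ L : ℝ in atTop, EAg φ F (c * Real.exp L) (fun _ => 1) < |D| + 1 :=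
      h5.eventually (gt_mem_nhds (by linarith [le_abs_self D]))
    have k2 := (h4 2).eventually (gt_mem_nhds one_pos)
    have k3 : ∀ᶠ L : ℝ in atTop, ∑ p ∈ sL L, aL L p ^ 2 < 2 :=
      mass_lim.eventually (gt_mem_nhds (by norm_num))
    filter_upwards [k1, k2, k3] with L q1 q2 q3
    have h6 := (le_abs_self _).trans (rm_bd (sL L) (aL L) 2 2 q3.le)
    have h9 : 0 ≤ EAg φ F (c * Real.exp L) (fun _ => 1) :=
      EAg_nonneg φ hF0 (by positivity) fun _ _ => zero_le_one
    have h8 := mul_le_mul h6 q1.le h9 (by positivity)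
    linarith
  set M2 : ℝ := 1 + (1 + (2 * 2 : ℕ).factorial * (2 * Real.exp (2 / 2))) * (|D| + 1) with hM2
  have hM20 : 0 < M2 := by positivity
  have key2 := Pool.Agent.V8H61.IN.test_fun atTop A W (fun L d => YY φ L d) m (|D| + 1 + |M|) ?_ ?_ ?_ ?_
    g hg hgc
  · refine key2.congr fun L => ?_
    rw [key]
    congr 1
    funext d
    ring
  · intro t
    have := char_lim φ hF hF0 c hc H m M D h1 h2 h3 h4 h5 Complex.re (Or.inl rfl) t
    simp only [hcos, Complex.ofReal_re] at this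
    refine this.congr fun L => ?_
    rw [key]
  · intro t
    have := char_lim φ hF hF0 c hc H m M D h1 h2 h3 h4 h5 Complex.im (Or.inr rfl) t
    simp only [hsin, Complex.ofReal_im, mul_zero] at this
    refine this.congr fun L => ?_
    rw [key]
  · have k1 : ∀ᶠ L : ℝ in atTop, EAg φ F (c * Real.exp L) (fun _ => 1) < |D| + 1 :=
      h5.eventually (gt_mem_nhds (by linarith [le_abs_self D]))
    filter_upwards [k1, h3] with L q1 q2
    have hX : 0 < c * Real.exp L := by positivity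
    have e1 : ∑ d ∈ A L, |W L d| = EAg φ F (c * Real.exp L) (fun d => |H L d|) := by
      have := keyabs L (fun _ => 1)
      simpa using this
    rw [e1]
    have b1 : EAg φ F (c * Real.exp L) (fun d => |H L d|) ≤
        EAg φ F (c * Real.exp L) (fun _ => 1) + EAg φ F (c * Real.exp L) (fun d => H L d ^ 2) := by
      rw [← EAg_add φ hF hX]
      refine EAg_mono φ hF hF0 hX fun d _ => ?_
      rw [← sq_abs]
      nlinarith [sq_nonneg (|H L d| - 1), abs_nonneg (H L d)]
    linarith [le_abs_self M]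
  · intro ε hε
    refine ⟨(M2 + |M|) / (2 * ε) + 1, ?_⟩
    filter_upwards [hY2, h3] with L q1 q2
    have hX : 0 < c * Real.exp L := by positivity
    set R : ℝ := (M2 + |M|) / (2 * ε) + 1 with hR
    have hR0 : 0 < R := by positivity
    have e1 : ∑ d ∈ (A L).filter (fun d => R < |YY φ L d|), |W L d| =
        EAg φ F (c * Real.exp L) (fun d => |H L d| * (if R < |YY φ L d| then 1 else 0)) := by
      rw [← keyabs L, sum_filter]
      refine sum_congr rfl fun d _ => ?_
      split_ifs <;> simp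
    rw [e1]
    have b1 : EAg φ F (c * Real.exp L) (fun d => |H L d| * (if R < |YY φ L d| then 1 else 0)) ≤
        1 / (2 * R) * (EAg φ F (c * Real.exp L) (fun d => YY φ L d ^ 2) +
          EAg φ F (c * Real.exp L) (fun d => H L d ^ 2)) := by
      rw [← EAg_add φ hF hX, ← EAg_cmul]
      refine EAg_mono φ hF hF0 hX fun d _ => ?_
      split_ifs with hh
      · rw [mul_one, div_mul_eq_mul_div, le_div_iff₀ (by positivity), one_mul,
          ← sq_abs (YY φ L d), ← sq_abs (H L d)]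
        have h6 : R * |H L d| ≤ |YY φ L d| * |H L d| :=
          mul_le_mul_of_nonneg_right hh.le (abs_nonneg _)
        nlinarith [sq_nonneg (|YY φ L d| - |H L d|)]
      · rw [mul_zero]
        positivity
    refine b1.trans ?_
    have b2 : 1 / (2 * R) * (EAg φ F (c * Real.exp L) (fun d => YY φ L d ^ 2) +
          EAg φ F (c * Real.exp L) (fun d => H L d ^ 2)) ≤ 1 / (2 * R) * (M2 + |M|) := by
      apply mul_le_mul_of_nonneg_left _ (by positivity)
      linarith [le_abs_self M]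
    refine b2.trans ?_
    rw [div_mul_eq_mul_div, one_mul, div_le_iff₀ (by positivity), hR]
    have : (M2 + |M|) / (2 * ε) * (2 * ε) = M2 + |M| := by field_simp
    nlinarith

/-- test functions, weight `1` -/
theorem tst_1 (φ : FD) (hφ : FG φ) (hjo : ∀ d p : ℕ, φ.A d → p.Prime → p ≠ 2 → ¬ p ∣ d → jo φ d p ^ 2 = 1)
    (F : ℝ → ℝ) (hF : TF F) (hF0 : ∀ x, 0 ≤ F x) (m0 : ℕ) (hm0 : m0 ≠ 0)
    (hG : GS φ F m0) (c : ℝ) (hc : 0 < c) (g : ℝ → ℝ) (hg : Continuous g) (hgc : HasCompactSupport g) :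
    Tendsto (fun L : ℝ => EAg φ F (c * Real.exp L) (fun d => g (YY φ L d))) atTop
      (𝓝 (φ.δ * Ft F 0 * ∫ y, g y ∂(gaussianReal 0 1))) := by
  have hm1 := mom_1 φ hφ hjo F hF hF0 m0 hm0 hG c hc
  have h1 := hφ.ef1 F hF c hc
  have := tst_gen φ hF hF0 c hc (fun _ _ => 1) (φ.δ * Ft F 0) (φ.δ * Ft F 0 + 1) (φ.δ * Ft F 0)
    (fun k => by simpa using hm1 k) h1 (by
      simp only [one_pow]
      exact (h1.eventually (gt_mem_nhds (lt_add_one _))).mono fun L h => h.le) hm1 h1 g hg hgc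
  simpa using this

/-- test functions, weight the mollified value -/
theorem tst_NM (φ : FD) (hφ : FG φ) (hjo : ∀ d p : ℕ, φ.A d → p.Prime → p ≠ 2 → ¬ p ∣ d → jo φ d p ^ 2 = 1)
    (F : ℝ → ℝ) (hF : TF F) (hF0 : ∀ x, 0 ≤ F x) (m0 : ℕ) (hm0 : m0 ≠ 0)
    (hG : GS φ F m0) (q : ℕ) (hq : Even q) (hq0 : q ≠ 0) (hmq : m0 ∣ q) (c : ℝ) (hc : 0 < c)
    (s θ : ℝ) (hA : Adm2 s θ) (w Q : ℝ → ℝ) (hw : Wt s w) (hQ : Wt θ Q)
    (g : ℝ → ℝ) (hg : Continuous g) (hgc : HasCompactSupport g) :
    Tendsto (fun L : ℝ => EAg φ F (c * Real.exp L) (fun d => g (YY φ L d) * NM φ q L w Q d)) atTop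
      (𝓝 (φ.δ * Ft F 0 * (mn w Q / 2) * ∫ y, g y ∂(gaussianReal 0 1))) := by
  exact tst_gen φ hF hF0 c hc (fun L d => NM φ q L w Q d) (φ.δ * Ft F 0 * (mn w Q / 2))
    (φ.δ * Ft F 0 * BB w Q w Q + 1) (φ.δ * Ft F 0)
    (fun k => mom_NM φ hφ hjo F hF hF0 m0 hG q hq hq0 hmq c hc s θ hA w Q hw hQ k)
    (hφ.lim1 F hF q hq hq0 c hc s θ hA w Q hw hQ)
    (((lim_sq φ hφ hF hq hq0 hc hA hw hQ).eventually (gt_mem_nhds (lt_add_one _))).mono fun L h => h.le)
    (mom_1 φ hφ hjo F hF hF0 m0 hm0 hG c hc) (hφ.ef1 F hF c hc) g hg hgc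

/-- test functions, weight the mollified value, all moduli -/
theorem tst_NM2 (φ : FD) (hφ : FG φ) (hjo : ∀ d p : ℕ, φ.A d → p.Prime → p ≠ 2 → ¬ p ∣ d → jo φ d p ^ 2 = 1)
    (F : ℝ → ℝ) (hF : TF F) (hF0 : ∀ x, 0 ≤ F x) (m0 : ℕ) (hm0 : Odd m0)
    (hG : GS φ F m0) (q : ℕ) (hq : Even q) (hq0 : q ≠ 0) (c : ℝ) (hc : 0 < c)
    (s θ : ℝ) (hA : Adm2 s θ) (w Q : ℝ → ℝ) (hw : Wt s w) (hQ : Wt θ Q)
    (g : ℝ → ℝ) (hg : Continuous g) (hgc : HasCompactSupport g) :
    Tendsto (fun L : ℝ => EAg φ F (c * Real.exp L) (fun d => g (YY φ L d) * NM φ q L w Q d)) atTop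
      (𝓝 (φ.δ * Ft F 0 * (mn w Q / 2) * ∫ y, g y ∂(gaussianReal 0 1))) := by
  have hm00 : m0 ≠ 0 := hm0.pos.ne'
  have main := tst_NM φ hφ hjo F hF hF0 m0 hm00 hG (q * m0) (hq.mul_right m0) (mul_ne_zero hq0 hm00)
    (dvd_mul_left m0 q) c hc s θ hA w Q hw hQ g hg hgc
  have st := stab φ hφ F hF hF0 c hc s θ hA w Q hw hQ m0 hm0 q hq hq0
  obtain ⟨B, hB⟩ := hgc.exists_bound_of_continuous hg
  have hB0 : 0 ≤ B := (norm_nonneg _).trans (hB 0)
  have h1 := hφ.ef1 F hF c hc
  have h1' : Tendsto (fun L : ℝ => EAg φ F (c * Real.exp L) (fun _ => (1 : ℝ) ^ 2)) atTop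
      (𝓝 (φ.δ * Ft F 0)) := by
    simp only [one_pow]
    exact h1
  have pz := prod_zero φ hF hF0 hc (fun L d => NM φ q L w Q d - NM φ (q * m0) L w Q d)
    (fun _ _ => 1) st h1'
  have pz2 := pz.const_mul B
  rw [mul_zero] at pz2
  have diff : Tendsto (fun L : ℝ =>
      EAg φ F (c * Real.exp L) (fun d => g (YY φ L d) * NM φ q L w Q d) -
      EAg φ F (c * Real.exp L) (fun d => g (YY φ L d) * NM φ (q * m0) L w Q d)) atTop (𝓝 0) := by
    refine squeeze_zero_norm (fun L => ?_) pz2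
    have hX : 0 < c * Real.exp L := by positivity
    rw [← EAg_sub φ hF hX, ← EAg_cmul, Real.norm_eq_abs]
    refine EAg_dom φ φ (fun d hd => hd) hF hF (fun x => (abs_of_nonneg (hF0 x)).le) hX
      (fun d _ => ?_) (fun d _ => by positivity)
    rw [← mul_sub, abs_mul, abs_one, mul_one]
    apply mul_le_mul_of_nonneg_right _ (abs_nonneg _)
    exact hB _
  have := diff.add main
  rw [zero_add] at this
  refine this.congr fun L => ?_
  ring

end

end Pool.Agent.V8H36.IN
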